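import Pool.Agent.H5.W.Defs

/-!
Calculus of uniform convergence in probability of Riemann sums.
-/

open MeasureTheory ProbabilityTheory Filter Topology
open scoped NNReal ENNReal RealInnerProductSpace

namespace Pool.Agent.H5.W

variable {Ω : Type*} {mΩ : MeasurableSpace Ω} {P : Measure Ω}

lemma riemannSum_grid (φ b : ℝ≥0 → Ω → ℝ) (n l : ℕ) (ω : Ω) :
    riemannSum φ b n ((l : ℝ≥0) / 2 ^ n) ω = ∑ i ∈ Finset.range l,
      φ ((i : ℝ≥0) / 2 ^ n) ω * (b (((i + 1 : ℕ) : ℝ≥0) / 2 ^ n) ω - b ((i : ℝ≥0) / 2 ^ n) ω) := by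
  unfold riemannSum
  have hp : (2 : ℝ≥0) ^ n ≠ 0 := by positivity
  rw [div_mul_cancel₀ _ hp, Nat.ceil_natCast]
  refine Finset.sum_congr rfl fun i hi => ?_
  have hi' := Finset.mem_range.1 hi
  have h1 : ((i : ℝ≥0) + 1) / 2 ^ n ≤ (l : ℝ≥0) / 2 ^ n := by
    gcongr
    exact_mod_cast hi'
  rw [min_eq_left h1]
  push_cast
  rfl

lemma riemannSum_add (φ ψ b : ℝ≥0 → Ω → ℝ) (n : ℕ) (t : ℝ≥0) (ω : Ω) :
    riemannSum (fun t ω => φ t ω + ψ t ω) b n t ω
      = riemannSum φ b n t ω + riemannSum ψ b n t ω := by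
  unfold riemannSum
  rw [← Finset.sum_add_distrib]
  refine Finset.sum_congr rfl fun i _ => ?_
  ring

lemma riemannSum_const_mul (c : ℝ) (φ b : ℝ≥0 → Ω → ℝ) (n : ℕ) (t : ℝ≥0) (ω : Ω) :
    riemannSum (fun t ω => c * φ t ω) b n t ω = c * riemannSum φ b n t ω := by
  unfold riemannSum
  rw [Finset.mul_sum]
  refine Finset.sum_congr rfl fun i _ => ?_
  ring

lemma riemannSum_sum {ι : Type*} (s : Finset ι) (φ : ι → ℝ≥0 → Ω → ℝ) (b : ℝ≥0 → Ω → ℝ) (n : ℕ)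
    (t : ℝ≥0) (ω : Ω) :
    riemannSum (fun t ω => ∑ i ∈ s, φ i t ω) b n t ω = ∑ i ∈ s, riemannSum (φ i) b n t ω := by
  unfold riemannSum
  rw [Finset.sum_comm]
  refine Finset.sum_congr rfl fun i _ => ?_
  rw [Finset.sum_mul]

lemma TendstoUCP.zero : TendstoUCP P (fun _ _ _ => (0 : ℝ)) (fun _ _ => (0 : ℝ)) := by
  intro T ε hε
  have h0 : P {ω : Ω | ∃ t ≤ T, ε ≤ |(0 : ℝ) - 0|} = 0 := by
    have : {ω : Ω | ∃ t ≤ T, ε ≤ |(0 : ℝ) - 0|} = ∅ := by
      ext ω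
      simp only [sub_self, abs_zero, Set.mem_ofPred_eq, Set.mem_empty_iff_false, iff_false]
      rintro ⟨t, _, h⟩
      exact absurd h (not_le.2 hε)
    rw [this, measure_empty]
  exact tendsto_const_nhds.congr fun n => h0.symm

lemma TendstoUCP.add {Y Y' : ℕ → ℝ≥0 → Ω → ℝ} {Z Z' : ℝ≥0 → Ω → ℝ} (h : TendstoUCP P Y Z)
    (h' : TendstoUCP P Y' Z') :
    TendstoUCP P (fun n t ω => Y n t ω + Y' n t ω) (fun t ω => Z t ω + Z' t ω) := by
  intro T ε hε
  have h1 := h T (ε / 2) (half_pos hε)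
  have h2 := h' T (ε / 2) (half_pos hε)
  have h3 := h1.add h2
  rw [add_zero] at h3
  refine tendsto_of_tendsto_of_tendsto_of_le_of_le tendsto_const_nhds h3 (fun _ => zero_le)
    fun n => ?_
  refine (measure_mono ?_).trans (measure_union_le _ _)
  rintro ω ⟨t, ht, hω⟩
  by_contra hcon
  simp only [Set.mem_union, Set.mem_ofPred_eq, not_or, not_exists, not_and, not_le] at hcon
  have a1 := hcon.1 t ht
  have a2 := hcon.2 t ht
  have : |Y n t ω + Y' n t ω - (Z t ω + Z' t ω)| ≤ |Y n t ω - Z t ω| + |Y' n t ω - Z' t ω| := by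
    rw [show Y n t ω + Y' n t ω - (Z t ω + Z' t ω) = (Y n t ω - Z t ω) + (Y' n t ω - Z' t ω) by ring]
    exact abs_add_le _ _
  linarith

lemma TendstoUCP.sum {ι : Type*} (s : Finset ι) {Y : ι → ℕ → ℝ≥0 → Ω → ℝ} {Z : ι → ℝ≥0 → Ω → ℝ}
    (h : ∀ i ∈ s, TendstoUCP P (Y i) (Z i)) :
    TendstoUCP P (fun n t ω => ∑ i ∈ s, Y i n t ω) (fun t ω => ∑ i ∈ s, Z i t ω) := by
  classical
  induction s using Finset.induction_on with
  | empty => simpa using TendstoUCP.zero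
  | insert a s ha ih =>
    simp_rw [Finset.sum_insert ha]
    exact (h a (Finset.mem_insert_self _ _)).add
      (ih fun i hi => h i (Finset.mem_insert_of_mem hi))

/-- iterated limit in probability, uniformly on the time interval `[0, 1]` -/
def Approx (P : Measure Ω) (Φ : ℕ → ℕ → ℝ≥0 → Ω → ℝ) (Z : ℝ≥0 → Ω → ℝ) : Prop :=
  ∀ ε : ℝ, 0 < ε → ∀ᶠ J in atTop, ∀ᶠ n in atTop,
    P {ω | ∃ t ≤ 1, ε ≤ |Φ J n t ω - Z t ω|} ≤ ENNReal.ofReal ε

lemma Approx.congr_ae {Φ : ℕ → ℕ → ℝ≥0 → Ω → ℝ} {Z Z' : ℝ≥0 → Ω → ℝ} (h : Approx P Φ Z)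
    (h' : ∀ᵐ ω ∂P, ∀ t ≤ 1, Z t ω = Z' t ω) : Approx P Φ Z' := by
  intro ε hε
  filter_upwards [h ε hε] with J hJ
  filter_upwards [hJ] with n hn
  refine le_trans (measure_mono_ae ?_) hn
  filter_upwards [h'] with ω hω
  rintro ⟨t, ht, h1⟩
  exact ⟨t, ht, by rw [hω t ht]; exact h1⟩

lemma Approx.zero : Approx P (fun _ _ _ _ => (0 : ℝ)) (fun _ _ => (0 : ℝ)) := by
  intro ε hε
  refine Eventually.of_forall fun J => Eventually.of_forall fun n => ?_
  have : {ω : Ω | ∃ t ≤ (1 : ℝ≥0), ε ≤ |(0 : ℝ) - 0|} = ∅ := by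
    ext ω
    simp only [sub_self, abs_zero, Set.mem_ofPred_eq, Set.mem_empty_iff_false, iff_false]
    rintro ⟨t, _, h⟩
    exact absurd h (not_le.2 hε)
  rw [this, measure_empty]
  exact zero_le

lemma Approx.add {Φ Φ' : ℕ → ℕ → ℝ≥0 → Ω → ℝ} {Z Z' : ℝ≥0 → Ω → ℝ} (h : Approx P Φ Z)
    (h' : Approx P Φ' Z') :
    Approx P (fun J n t ω => Φ J n t ω + Φ' J n t ω) (fun t ω => Z t ω + Z' t ω) := by
  intro ε hε
  filter_upwards [h (ε / 2) (half_pos hε), h' (ε / 2) (half_pos hε)] with J h1 h2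
  filter_upwards [h1, h2] with n h1 h2
  have h3 : ENNReal.ofReal (ε / 2) + ENNReal.ofReal (ε / 2) = ENNReal.ofReal ε := by
    rw [← ENNReal.ofReal_add (half_pos hε).le (half_pos hε).le, add_halves]
  rw [← h3]
  refine ((measure_mono ?_).trans (measure_union_le _ _)).trans (add_le_add h1 h2)
  rintro ω ⟨t, ht, hω⟩
  by_contra hcon
  simp only [Set.mem_union, Set.mem_ofPred_eq, not_or, not_exists, not_and, not_le] at hcon
  have a1 := hcon.1 t ht
  have a2 := hcon.2 t ht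
  have : |Φ J n t ω + Φ' J n t ω - (Z t ω + Z' t ω)|
      ≤ |Φ J n t ω - Z t ω| + |Φ' J n t ω - Z' t ω| := by
    rw [show Φ J n t ω + Φ' J n t ω - (Z t ω + Z' t ω)
      = (Φ J n t ω - Z t ω) + (Φ' J n t ω - Z' t ω) by ring]
    exact abs_add_le _ _
  linarith

lemma Approx.const_mul {Φ : ℕ → ℕ → ℝ≥0 → Ω → ℝ} {Z : ℝ≥0 → Ω → ℝ} (c : ℝ)
    (h : Approx P Φ Z) :
    Approx P (fun J n t ω => c * Φ J n t ω) (fun t ω => c * Z t ω) := by
  rcases eq_or_ne c 0 with rfl | hc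
  · simpa using Approx.zero
  intro ε hε
  have hc' : 0 < |c| := abs_pos.2 hc
  filter_upwards [h (min ε (ε / |c|)) (lt_min hε (div_pos hε hc'))] with J h1
  filter_upwards [h1] with n h1
  refine (measure_mono ?_).trans (h1.trans (ENNReal.ofReal_le_ofReal (min_le_left _ _)))
  rintro ω ⟨t, ht, hω⟩
  refine ⟨t, ht, (min_le_right _ _).trans ?_⟩
  rw [← mul_sub, abs_mul] at hω
  rw [div_le_iff₀ hc', mul_comm]
  exact hω

lemma Approx.sum {ι : Type*} (s : Finset ι) {Φ : ι → ℕ → ℕ → ℝ≥0 → Ω → ℝ} {Z : ι → ℝ≥0 → Ω → ℝ}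
    (h : ∀ i ∈ s, Approx P (Φ i) (Z i)) :
    Approx P (fun J n t ω => ∑ i ∈ s, Φ i J n t ω) (fun t ω => ∑ i ∈ s, Z i t ω) := by
  classical
  induction s using Finset.induction_on with
  | empty => simpa using Approx.zero
  | insert a s ha ih =>
    simp_rw [Finset.sum_insert ha]
    exact (h a (Finset.mem_insert_self _ _)).add
      (ih fun i hi => h i (Finset.mem_insert_of_mem hi))

lemma IsItoIntegral.approx {β φ : ℕ × ℕ → ℝ≥0 → Ω → ℝ} {I : ℝ≥0 → Ω → ℝ}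
    (h : IsItoIntegral P β φ I) :
    Approx P (fun J n t ω => ∑ p ∈ Finset.range J ×ˢ Finset.range J,
      riemannSum (φ p) (β p) n t ω) I := by
  obtain ⟨J, hJ, hI⟩ := h
  intro ε hε
  have hpos : 0 < ENNReal.ofReal (ε / 2) := by simpa using hε
  have h1 := (hI 1 (ε / 2) (half_pos hε)).eventually (gt_mem_nhds hpos)
  filter_upwards [h1] with k hk
  have h2 := (TendstoUCP.sum (Finset.range k ×ˢ Finset.range k) (fun p _ => hJ p) 1 (ε / 2)
    (half_pos hε)).eventually (gt_mem_nhds hpos)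
  filter_upwards [h2] with n hn
  have h3 : ENNReal.ofReal (ε / 2) + ENNReal.ofReal (ε / 2) = ENNReal.ofReal ε := by
    rw [← ENNReal.ofReal_add (half_pos hε).le (half_pos hε).le, add_halves]
  rw [← h3]
  refine ((measure_mono ?_).trans (measure_union_le _ _)).trans (add_le_add hk.le hn.le)
  rintro ω ⟨t, ht, hω⟩
  by_contra hcon
  simp only [Set.mem_union, Set.mem_ofPred_eq, not_or, not_exists, not_and, not_le] at hcon
  have a1 := hcon.1 t ht
  have a2 := hcon.2 t ht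
  have := abs_sub_le (∑ p ∈ Finset.range k ×ˢ Finset.range k, riemannSum (φ p) (β p) n t ω)
    (∑ p ∈ Finset.range k ×ˢ Finset.range k, J p t ω) (I t ω)
  linarith

end Pool.Agent.H5.W
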