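import Pool.Agent.H5.W.FDMom

/-!
If Wishart laws of shape `s` exist in all dimensions then `2 s` is a natural number.
-/

open MeasureTheory Filter Topology Matrix

namespace Pool.Agent.H5.W

variable {n : Type*} [Fintype n] [DecidableEq n]

lemma psd_abs_le {Y : Matrix n n ℝ} (hY : Y.PosSemidef) (a b : n) :
    2 * |Y a b| ≤ Y a a + Y b b := by
  have hs : Y b a = Y a b := by
    have := congrFun (congrFun hY.1 a) b
    simpa using this
  have h1 := hY.dotProduct_mulVec_nonneg (Pi.single a 1 + Pi.single b 1)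
  have h2 := hY.dotProduct_mulVec_nonneg (Pi.single a 1 - Pi.single b 1)
  simp [Matrix.mulVec_add, Matrix.mulVec_sub, add_dotProduct, sub_dotProduct, dotProduct_add,
    dotProduct_sub, hs] at h1 h2
  rcases abs_cases (Y a b) with ⟨h, _⟩ | ⟨h, _⟩ <;> rw [h] <;> linarith

lemma psd_triple_le {Y : Matrix n n ℝ} (hY : Y.PosSemidef) (a b c : n) :
    Y a b * Y b c * Y c a ≤ Y a a ^ 3 + Y b b ^ 3 + Y c c ^ 3 := by
  have ha : 0 ≤ Y a a := hY.diag_nonneg
  have hb : 0 ≤ Y b b := hY.diag_nonneg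
  have hc : 0 ≤ Y c c := hY.diag_nonneg
  set m := max (Y a a) (max (Y b b) (Y c c)) with hm
  have hma : Y a a ≤ m := le_max_left _ _
  have hmb : Y b b ≤ m := (le_max_left _ _).trans (le_max_right _ _)
  have hmc : Y c c ≤ m := (le_max_right _ _).trans (le_max_right _ _)
  have hm0 : 0 ≤ m := ha.trans hma
  have h1 : |Y a b| ≤ m := by have := psd_abs_le hY a b; linarith
  have h2 : |Y b c| ≤ m := by have := psd_abs_le hY b c; linarith
  have h3 : |Y c a| ≤ m := by have := psd_abs_le hY c a; linarith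
  have h4 : m ^ 3 ≤ Y a a ^ 3 + Y b b ^ 3 + Y c c ^ 3 := by
    have pa : 0 ≤ Y a a ^ 3 := pow_nonneg ha 3
    have pb : 0 ≤ Y b b ^ 3 := pow_nonneg hb 3
    have pc : 0 ≤ Y c c ^ 3 := pow_nonneg hc 3
    rcases max_choice (Y a a) (max (Y b b) (Y c c)) with h | h
    · rw [hm, h]; linarith
    · rcases max_choice (Y b b) (Y c c) with h' | h'
      · rw [hm, h, h']; linarith
      · rw [hm, h, h']; linarith
  calc Y a b * Y b c * Y c a ≤ |Y a b * Y b c * Y c a| := le_abs_self _
    _ = |Y a b| * |Y b c| * |Y c a| := by rw [abs_mul, abs_mul]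
    _ ≤ m * m * m := by gcongr
    _ = m ^ 3 := by ring
    _ ≤ _ := h4

lemma sum_pair (x : ℝ) : ∑ a : n, ∑ b : n, (if a = b then 0 else x)
    = (Fintype.card n : ℝ) ^ 2 * x - Fintype.card n * x := by
  have h1 : ∀ a b : n, (if a = b then (0 : ℝ) else x) = x - if a = b then x else 0 := by
    intro a b
    split_ifs <;> simp
  simp_rw [h1, Finset.sum_sub_distrib]
  simp [Finset.sum_const, Finset.card_univ]
  ring

lemma sum_triple_le (x y : ℝ) :
    ∑ a : n, ∑ b : n, ∑ c : n, (if a ≠ b ∧ b ≠ c ∧ c ≠ a then x else y)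
      ≤ (Fintype.card n : ℝ) ^ 3 * x + 3 * (Fintype.card n : ℝ) ^ 2 * (|y| + |x|) := by
  have h1 : ∀ a b c : n, (if a ≠ b ∧ b ≠ c ∧ c ≠ a then x else y) ≤
      x + ((if a = b then (|y| + |x|) else 0) + (if b = c then (|y| + |x|) else 0) +
        (if c = a then (|y| + |x|) else 0)) := by
    intro a b c
    have hz : 0 ≤ |y| + |x| := by positivity
    have h2 : y ≤ x + (|y| + |x|) := by
      have := le_abs_self y
      have := neg_abs_le x
      linarith
    have nn : ∀ (p : Prop) [Decidable p], 0 ≤ if p then (|y| + |x|) else 0 := by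
      intro p _
      split_ifs
      · exact hz
      · exact le_rfl
    have n1 := nn (a = b)
    have n2 := nn (b = c)
    have n3 := nn (c = a)
    by_cases hd : a ≠ b ∧ b ≠ c ∧ c ≠ a
    · rw [if_pos hd]
      linarith
    · rw [if_neg hd]
      have hd' : a = b ∨ b = c ∨ c = a := by tauto
      rcases hd' with h | h | h
      · have e : (if a = b then (|y| + |x|) else 0) = |y| + |x| := if_pos h
        linarith
      · have e : (if b = c then (|y| + |x|) else 0) = |y| + |x| := if_pos h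
        linarith
      · have e : (if c = a then (|y| + |x|) else 0) = |y| + |x| := if_pos h
        linarith
  calc _ ≤ ∑ a : n, ∑ b : n, ∑ c : n, (x + ((if a = b then (|y| + |x|) else 0) +
        (if b = c then (|y| + |x|) else 0) + (if c = a then (|y| + |x|) else 0))) :=
        Finset.sum_le_sum fun a _ => Finset.sum_le_sum fun b _ => Finset.sum_le_sum fun c _ =>
          h1 a b c
    _ = _ := by
        simp only [Finset.sum_add_distrib]
        simp [Finset.sum_const, Finset.card_univ]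
        ring

variable {Ω : Type*} [MeasurableSpace Ω]
  {P : Measure Ω} [IsProbabilityMeasure P] {s : ℝ} {X M : Ω → Matrix n n ℝ}

/-- the upper bound functional -/
noncomputable def upp (s : ℝ) (Y : Matrix n n ℝ) : ℝ :=
  2 / (Fintype.card n : ℝ) * trace Y
    - 8 / (Fintype.card n : ℝ) ^ 2 * ∑ a : n, ∑ b : n, (if a = b then 0 else Y a b ^ 2)
    + 8 / (Fintype.card n : ℝ) ^ 3 * ∑ a : n, ∑ b : n, ∑ c : n,
        (if a ≠ b ∧ b ≠ c ∧ c ≠ a then Y a b * Y b c * Y c a
          else Y a a ^ 3 + Y b b ^ 3 + Y c c ^ 3)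
    + 4 / (Fintype.card n : ℝ) ^ 2 * trace Y ^ 2
    - 8 * s / (Fintype.card n : ℝ) * trace Y + 4 * s ^ 2 * 1

lemma le_upp {Y : Matrix n n ℝ} (hY : Y.PosSemidef) (s : ℝ) :
    trace ((2 / (Fintype.card n : ℝ)) • Y)
      - 2 * trace (((2 / (Fintype.card n : ℝ)) • Y) * ((2 / (Fintype.card n : ℝ)) • Y))
      + trace (((2 / (Fintype.card n : ℝ)) • Y) * ((2 / (Fintype.card n : ℝ)) • Y) *
          ((2 / (Fintype.card n : ℝ)) • Y))
      + (trace ((2 / (Fintype.card n : ℝ)) • Y) - 2 * s) ^ 2 ≤ upp s Y := by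
  set N : ℝ := (Fintype.card n : ℝ) with hN
  have hN0 : 0 ≤ N := Nat.cast_nonneg _
  have hs : ∀ a b, Y b a = Y a b := by
    intro a b
    have := congrFun (congrFun hY.1 a) b
    simpa using this
  have h2 : trace (Y * Y) = ∑ a : n, ∑ b : n, Y a b ^ 2 := by
    simp only [trace, diag_apply, mul_apply]
    exact Finset.sum_congr rfl fun a _ => Finset.sum_congr rfl fun b _ => by rw [hs a b]; ring
  have h3 : trace (Y * Y * Y) = ∑ a : n, ∑ b : n, ∑ c : n, Y a b * Y b c * Y c a := by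
    simp only [trace, diag_apply, mul_apply, Finset.sum_mul]
    refine Finset.sum_congr rfl fun a _ => ?_
    rw [Finset.sum_comm]
  have h2' : ∑ a : n, ∑ b : n, (if a = b then 0 else Y a b ^ 2) ≤ trace (Y * Y) := by
    rw [h2]
    refine Finset.sum_le_sum fun a _ => Finset.sum_le_sum fun b _ => ?_
    split_ifs
    · positivity
    · exact le_rfl
  have h3' : trace (Y * Y * Y) ≤ ∑ a : n, ∑ b : n, ∑ c : n,
        (if a ≠ b ∧ b ≠ c ∧ c ≠ a then Y a b * Y b c * Y c a
          else Y a a ^ 3 + Y b b ^ 3 + Y c c ^ 3) := by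
    rw [h3]
    refine Finset.sum_le_sum fun a _ => Finset.sum_le_sum fun b _ =>
      Finset.sum_le_sum fun c _ => ?_
    split_ifs
    · exact le_rfl
    · exact psd_triple_le hY a b c
  unfold upp
  rw [← hN]
  simp only [Matrix.smul_mul, Matrix.mul_smul, Matrix.trace_smul, smul_eq_mul]
  have e2 := mul_le_mul_of_nonneg_left h2' (by positivity : 0 ≤ 8 / N ^ 2)
  have e3 := mul_le_mul_of_nonneg_left h3' (by positivity : 0 ≤ 8 / N ^ 3)
  have i2 : 2 * (2 / N * (2 / N * trace (Y * Y))) = 8 / N ^ 2 * trace (Y * Y) := by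
    ring
  have i3 : 2 / N * (2 / N * (2 / N * trace (Y * Y * Y))) = 8 / N ^ 3 * trace (Y * Y * Y) := by
    ring
  have i4 : (2 / N * trace Y - 2 * s) ^ 2
      = 4 / N ^ 2 * trace Y ^ 2 - 8 * s / N * trace Y + 4 * s ^ 2 * 1 := by
    ring
  rw [i2, i3, i4]
  linarith

lemma WishLaw.ct_upp (h : WishLaw P s X M) :
    CT P (wgt s X) (fun l ω => upp s (resc X l ω))
      (2 / (Fintype.card n : ℝ) * (Fintype.card n * s * mass P M)
    - 8 / (Fintype.card n : ℝ) ^ 2 * ∑ a : n, ∑ b : n, (if a = b then 0 else s / 2 * mass P M)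
    + 8 / (Fintype.card n : ℝ) ^ 3 * ∑ a : n, ∑ b : n, ∑ c : n,
        (if a ≠ b ∧ b ≠ c ∧ c ≠ a then s / 4 * mass P M
          else 3 * (s * (s + 1) * (s + 2)) * mass P M)
    + 4 / (Fintype.card n : ℝ) ^ 2 * (Fintype.card n * s * (Fintype.card n * s + 1) * mass P M)
    - 8 * s / (Fintype.card n : ℝ) * (Fintype.card n * s * mass P M)
    + 4 * s ^ 2 * mass P M) := by
  unfold upp
  refine CT.add (CT.sub (CT.add (CT.add (CT.sub (h.ct_trace.const_mul _)
    (CT.const_mul _ (CT.sum _ fun a _ => CT.sum _ fun b _ => ?_)))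
    (CT.const_mul _ (CT.sum _ fun a _ => CT.sum _ fun b _ => CT.sum _ fun c _ => ?_)))
    (h.ct_trace_sq.const_mul _)) (h.ct_trace.const_mul _)) (h.ct_mass.const_mul _)
  · by_cases hab : a = b
    · simp only [hab, if_true]
      have := h.ct_mass.const_mul 0
      simpa using this
    · simp only [hab, if_false]
      exact h.ct_offdiag_sq hab
  · by_cases hd : a ≠ b ∧ b ≠ c ∧ c ≠ a
    · simp only [hd, ne_eq, not_false_eq_true, and_self, if_true]
      exact h.ct_triple hd.1 hd.2.1 hd.2.2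
    · simp only [hd, if_false]
      exact (((h.ct_diag_cube a).add (h.ct_diag_cube b)).add (h.ct_diag_cube c)).congr
        (fun l ω => rfl) (by ring)

/-- There are nearly idempotent positive semidefinite matrices with trace near `2 s`. -/
lemma WishLaw.exists_matrix [Nonempty n] (h : WishLaw P s X M) :
    ∃ B : Matrix n n ℝ, B.PosSemidef ∧
      trace B - 2 * trace (B * B) + trace (B * B * B) + (trace B - 2 * s) ^ 2 ≤
        (20 * |s| + 72 * |s * (s + 1) * (s + 2)| + 1) / Fintype.card n := by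
  set N : ℝ := (Fintype.card n : ℝ) with hN
  have hNpos : 0 < N := by
    rw [hN]
    exact_mod_cast Fintype.card_pos
  set κ := s * (s + 1) * (s + 2) with hκ
  have hm := h.mass_pos
  set c0 := mass P M with hc0
  set η : ℝ := (20 * |s| + 72 * |κ| + 1) / N with hη
  have h1 := (h.ct_upp).sub (h.ct_mass.const_mul η)
  rw [sum_pair] at h1
  have hbound : 2 / N * (N * s * c0) - 8 / N ^ 2 * (N ^ 2 * (s / 2 * c0) - N * (s / 2 * c0))
      + 8 / N ^ 3 * ∑ a : n, ∑ b : n, ∑ c : n,
        (if a ≠ b ∧ b ≠ c ∧ c ≠ a then s / 4 * c0 else 3 * κ * c0)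
      + 4 / N ^ 2 * (N * s * (N * s + 1) * c0) - 8 * s / N * (N * s * c0) + 4 * s ^ 2 * c0
      - η * c0 < 0 := by
    have h2 := sum_triple_le (n := n) (s / 4 * c0) (3 * κ * c0)
    rw [← hN] at h2
    have h3 := mul_le_mul_of_nonneg_left h2 (by positivity : 0 ≤ 8 / N ^ 3)
    have e1 : 8 / N ^ 3 * (N ^ 3 * (s / 4 * c0) + 3 * N ^ 2 * (|3 * κ * c0| + |s / 4 * c0|))
        = 2 * s * c0 + (72 * |κ| + 6 * |s|) * c0 / N := by
      have a1 : |3 * κ * c0| = 3 * |κ| * c0 := by
        rw [abs_mul (3 * κ) c0, abs_mul 3 κ, abs_of_pos hm, Nat.abs_ofNat]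
      have a2 : |s / 4 * c0| = |s| / 4 * c0 := by
        rw [abs_mul (s / 4) c0, abs_div s 4, abs_of_pos hm, Nat.abs_ofNat]
      rw [a1, a2]
      field_simp
      ring
    have e2 : 2 / N * (N * s * c0) - 8 / N ^ 2 * (N ^ 2 * (s / 2 * c0) - N * (s / 2 * c0))
        = -2 * s * c0 + 4 * s * c0 / N := by
      field_simp
      ring
    have e3 : 4 / N ^ 2 * (N * s * (N * s + 1) * c0) - 8 * s / N * (N * s * c0) + 4 * s ^ 2 * c0
        = 4 * s * c0 / N := by
      field_simp
      ring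
    have e4 : η * c0 = (20 * |s| + 72 * |κ| + 1) * c0 / N := by
      rw [hη]; ring
    have e5 : (4 * s * c0 / N + 4 * s * c0 / N) + (72 * |κ| + 6 * |s|) * c0 / N
        < (20 * |s| + 72 * |κ| + 1) * c0 / N := by
      rw [← add_div, ← add_div]
      apply div_lt_div_of_pos_right _ hNpos
      have := le_abs_self s
      have hs0 := abs_nonneg s
      nlinarith
    rw [e1] at h3
    linarith
  have h2 := h1.2.eventually_lt_const hbound
  obtain ⟨l, hl⟩ := h2.exists
  have h3 : ∃ ω, upp s (resc X l ω) - η * 1 < 0 := by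
    by_contra hcon
    push Not at hcon
    have : 0 ≤ ∫ ω, wgt s X l ω * (upp s (resc X l ω) - η * 1) ∂P := by
      refine integral_nonneg fun ω => mul_nonneg ?_ (hcon ω)
      exact h.lap_one.nonneg l ω
    linarith
  obtain ⟨ω, hω⟩ := h3
  have hpsd : (resc X l ω).PosSemidef := (h.psdX ω).smul (by positivity)
  refine ⟨(2 / N) • resc X l ω, hpsd.smul (by positivity), ?_⟩
  have := le_upp hpsd s
  rw [← hN] at this
  linarith

/-- If Wishart laws of shape `s` exist in all dimensions then `2 s` is a natural number. -/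
theorem exists_nat_of_wishLaw {s : ℝ}
    (h : ∀ N : ℕ, ∃ X M : Ω → Matrix (Fin N) (Fin N) ℝ, WishLaw P s X M) :
    ∃ k : ℕ, 2 * s = k := by
  apply exists_nat_of_near
  intro ε hε
  set K := 20 * |s| + 72 * |s * (s + 1) * (s + 2)| + 1 with hK
  have hK0 : 0 < K := by positivity
  set C := 2 * |2 * s| + 8 with hC
  have hC0 : 0 < C := by positivity
  set δ := min 1 (ε / C) with hδ
  have hδ0 : 0 < δ := lt_min one_pos (by positivity)
  obtain ⟨m, hm⟩ := exists_nat_gt (K / δ ^ 2)
  obtain ⟨X, M, hXM⟩ := h (m + 1)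
  obtain ⟨B, hB, hBle⟩ := hXM.exists_matrix
  have h1 : K / ((Fintype.card (Fin (m + 1)) : ℕ) : ℝ) ≤ δ ^ 2 := by
    rw [Fintype.card_fin, div_le_iff₀ (by positivity)]
    rw [div_lt_iff₀ (by positivity)] at hm
    push_cast
    nlinarith
  obtain ⟨k, hk⟩ := near_nat hB hδ0 (min_le_left _ _) (hBle.trans h1)
  refine ⟨k, hk.trans ?_⟩
  calc C * δ ≤ C * (ε / C) := by gcongr; exact min_le_right _ _
    _ = ε := by field_simp

end Pool.Agent.H5.W
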