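import Pool.Agent.H5.W.NPart
import Pool.Agent.H5.W.FDMain

/-!
The Laplace transform of the finite-dimensional sections of a solution, and the conclusion.
-/

open MeasureTheory ProbabilityTheory Filter Topology
open scoped NNReal ENNReal RealInnerProductSpace

namespace Pool.Agent.H5.W

variable {H : Type*} [NormedAddCommGroup H] [InnerProductSpace ℝ H] {N : ℕ} {Ω : Type*}
  {mΩ : MeasurableSpace Ω} {P : Measure Ω}

lemma IsPosSqrt.isPositive {R X : H →L[ℝ] H} (h : IsPosSqrt R X) : X.IsPositive := by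
  have h1 : ∀ x y, ⟪X x, y⟫ = ⟪R x, R y⟫ := by
    intro x y
    rw [← h.2, ContinuousLinearMap.comp_apply, h.1.inner_left_eq_inner_right]
  have hsym : (X : H →ₗ[ℝ] H).IsSymmetric := by
    intro x y
    change ⟪X x, y⟫ = ⟪x, X y⟫
    rw [← real_inner_comm x (X y), h1, h1, real_inner_comm]
  refine (ContinuousLinearMap.isPositive_iff _).2 ⟨hsym, fun x => ?_⟩
  rw [h1]
  exact real_inner_self_nonneg

/-- the derivative of the inverse Riccati matrix -/
noncomputable def Ud (T : C0Semigroup H) (Q : H →L[ℝ] H) (h : Fin N → H)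
    (K : Matrix (Fin N) (Fin N) ℝ) (r : ℝ) : Matrix (Fin N) (Fin N) ℝ :=
  (2 : ℝ) • ((sig K (qm T Q h) r)⁻¹ * qm T Q h r * (sig K (qm T Q h) r)⁻¹)

/-- the inverse Riccati matrix -/
noncomputable def Ui (T : C0Semigroup H) (Q : H →L[ℝ] H) (h : Fin N → H)
    (K : Matrix (Fin N) (Fin N) ℝ) (r : ℝ) : Matrix (Fin N) (Fin N) ℝ :=
  (sig K (qm T Q h) r)⁻¹

section

variable {T : C0Semigroup H} {Q : H →L[ℝ] H} {h : Fin N → H} {K : Matrix (Fin N) (Fin N) ℝ}

lemma Ui_hasDerivAt (hQ : Q.IsPositive) (hK : K.PosDef) {r : ℝ} (hr : r ≤ 1) (a b : Fin N) :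
    HasDerivAt (fun r => Ui T Q h K r a b) (Ud T Q h K r a b) r :=
  hasDerivAt_sig_inv (qm_continuous T Q h) (qm_psd T hQ h) hK hr a b

lemma Ui_continuousOn (hQ : Q.IsPositive) (hK : K.PosDef) (a b : Fin N) :
    ContinuousOn (fun r => Ui T Q h K r a b) (Set.Icc 0 1) := fun r hr =>
  (Ui_hasDerivAt hQ hK hr.2 a b).continuousAt.continuousWithinAt

lemma Ud_continuousOn (hQ : Q.IsPositive) (hK : K.PosDef) (a b : Fin N) :
    ContinuousOn (fun r => Ud T Q h K r a b) (Set.Icc 0 1) := by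
  have h1 : ∀ r, Ud T Q h K r a b = 2 * ∑ c, (∑ d, Ui T Q h K r a d * qm T Q h r d c) *
      Ui T Q h K r c b := by
    intro r
    simp only [Ud, Ui, Matrix.smul_apply, smul_eq_mul, Matrix.mul_apply]
  simp_rw [h1]
  refine continuousOn_const.mul (continuousOn_finsetSum _ fun c _ => ?_)
  refine ContinuousOn.mul (continuousOn_finsetSum _ fun d _ => ?_) (Ui_continuousOn hQ hK c b)
  exact (Ui_continuousOn hQ hK a d).mul (qm_continuous T Q h d c).continuousOn

lemma Ui_posDef (hQ : Q.IsPositive) (hK : K.PosDef) {r : ℝ} (hr : r ≤ 1) :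
    (Ui T Q h K r).PosDef :=
  (posDef_sig (qm_continuous T Q h) (qm_psd T hQ h) hK hr).inv

lemma Ui_symm (hQ : Q.IsPositive) (hK : K.PosDef) {r : ℝ} (hr : r ≤ 1) (a b : Fin N) :
    Ui T Q h K r a b = Ui T Q h K r b a := by
  have h1 := (Ui_posDef (T := T) (Q := Q) (h := h) hQ hK hr).isHermitian.apply a b
  simpa using h1.symm

end

lemma tpar_mem {m n i : ℕ} (hi : i < 2 ^ n) : tpar m n i ∈ Set.Icc (0 : ℝ) 1 := by
  unfold tpar
  refine ⟨by positivity, ?_⟩
  rw [div_le_one (by positivity)]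
  have h1 : i / 2 ^ (n - m) ≤ 2 ^ m := by
    rcases le_total m n with h | h
    · have : i / 2 ^ (n - m) < 2 ^ m := by
        rw [Nat.div_lt_iff_lt_mul (by positivity), ← pow_add, Nat.add_sub_cancel' h]
        exact hi
      exact this.le
    · rw [Nat.sub_eq_zero_of_le h, pow_zero, Nat.div_one]
      exact hi.le.trans (Nat.pow_le_pow_right (by norm_num) h)
  exact_mod_cast h1

/-- The Laplace transform identity for one matrix `u = K⁻¹`. -/
lemma laplace_identity [CompleteSpace H] [IsProbabilityMeasure P] {T : C0Semigroup H}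
    {Q : H →L[ℝ] H} {α : ℝ} {e : HilbertBasis ℕ ℝ H} {F : Filtration ℝ≥0 mΩ}
    {β : ℕ × ℕ → ℝ≥0 → Ω → ℝ} {X : ℝ≥0 → Ω → H →L[ℝ] H} (hQ : Q.IsPositive)
    (hsol : IsWishartSolution T Q α e P F β X) {h a : Fin N → H}
    (hgen : ∀ i, T.IsGen (h i) (a i)) {K : Matrix (Fin N) (Fin N) ℝ} (hK : K.PosDef) :
    ∫⁻ ω, ENNReal.ofReal (Real.exp (-(FB (Ui T Q h K) (gv T h) (gv T h)
        (fun s => X s.toNNReal ω) 1 1 - ∫ σ in (0 : ℝ)..1,
          α * (∑ a, ∑ b, Ui T Q h K σ a b * ⟪Q (gv T h σ a), gv T h σ b⟫)))) ∂P =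
      ∫⁻ ω, ENNReal.ofReal (Real.exp (-(FB (Ui T Q h K) (gv T h) (gv T h)
        (fun s => X s.toNNReal ω) 0 0))) ∂P := by
  obtain ⟨sQ, sX, hsQ, hsX, heq⟩ := hsol.equation
  set U := Ui T Q h K with hU
  set U' := Ud T Q h K with hU'
  set g := gv T h with hg
  set g' := gv T a with hg'
  set x : Ω → ℝ → H →L[ℝ] H := fun ω s => X s.toNNReal ω with hx
  set θ : ℝ → ℝ := fun σ => α * (∑ a, ∑ b, U σ a b * ⟪Q (g σ a), g σ b⟫) with hθ
  have hxc : ∀ ω, Continuous (x ω) := fun ω => (hsol.continuous ω).comp continuous_real_toNNReal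
  have hUc : ∀ a b, ContinuousOn (fun r => U r a b) (Set.Icc 0 1) := Ui_continuousOn hQ hK
  have hU'c : ∀ a b, ContinuousOn (fun r => U' r a b) (Set.Icc 0 1) := Ud_continuousOn hQ hK
  have hgc : ∀ i, Continuous fun r => g r i := gv_continuous T h
  have hg'c : ∀ i, Continuous fun r => g' r i := gv_continuous T a
  have hUsymm : ∀ r ∈ Set.Icc (0 : ℝ) 1, ∀ a b, U r a b = U r b a := fun r hr a b =>
    Ui_symm hQ hK hr.2 a b
  have hUpsd : ∀ r ∈ Set.Icc (0 : ℝ) 1, (U r).PosSemidef := fun r hr =>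
    (Ui_posDef hQ hK hr.2).posSemidef
  have hXpos : ∀ t ω, (X t ω).IsPositive := fun t ω => (hsX t ω).isPositive
  have hFnn : ∀ ω, ∀ r ∈ Set.Icc (0 : ℝ) 1, 0 ≤ FB U g g (x ω) r r := fun ω r hr =>
    FB_nonneg (hUpsd r hr) (hXpos _ _)
  have hθc : ContinuousOn θ (Set.Icc 0 1) := by
    refine continuousOn_const.mul (continuousOn_finsetSum _ fun a _ =>
      continuousOn_finsetSum _ fun b _ => (hUc a b).mul (qm_continuous T Q h a b).continuousOn)
  have hC1 : ContinuousOn (fun r => ∑ a, ∑ b, |U' r a b| * (‖g r a‖ * ‖g r b‖))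
      (Set.Icc 0 1) :=
    continuousOn_finsetSum _ fun a _ => continuousOn_finsetSum _ fun b _ =>
      (hU'c a b).abs.mul (((hgc a).norm.mul (hgc b).norm).continuousOn)
  obtain ⟨C, hC⟩ := isCompact_Icc.exists_bound_of_continuousOn hC1
  obtain ⟨C2, hC2⟩ := isCompact_Icc.exists_bound_of_continuousOn hθc
  have hC0 : 0 ≤ C := (norm_nonneg _).trans (hC 0 (by simp))
  have hWle : ∀ ω, ∀ r ∈ Set.Icc (0 : ℝ) 1, ∀ s, FB U' g g (x ω) r s ≤ C * ‖x ω s‖ := by
    intro ω r hr s
    refine (FB_le U' g g (x ω) r s).trans ?_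
    gcongr
    exact (le_abs_self _).trans (hC r hr)
  -- the integrands
  set Φ : ℝ → ℕ × ℕ → ℝ≥0 → Ω → ℝ := fun r p t ω => phi e (U r) (sX t ω) sQ (g r) p with hΦ
  have hsXm : ∀ t, Measurable[F t] (sX t) := fun t =>
    @measurable_sqrt_of_measurable H _ _ Ω (F t) (X t) (sX t) (hsol.adapted t) (hsX t)
  have hΦm : ∀ r p t, Measurable[F t] (Φ r p t) := by
    intro r p t
    have hc : Continuous fun A : H →L[ℝ] H => phi e (U r) A sQ (g r) p := by
      unfold phi
      fun_prop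
    exact hc.measurable.comp (hsXm t)
  have hsXc : ∀ ω, Continuous fun t => sX t ω := fun ω =>
    continuous_sqrt_of_continuous (hsol.continuous ω) fun t => hsX t ω
  have hΦc : ∀ r p ω, Continuous fun t => Φ r p t ω := by
    intro r p ω
    have hc : Continuous fun A : H →L[ℝ] H => phi e (U r) A sQ (g r) p := by
      unfold phi
      fun_prop
    exact hc.comp (hsXc ω)
  have hΦW : ∀ ω, ∀ r ∈ Set.Icc (0 : ℝ) 1, ∀ t : ℝ≥0, t ≤ 1 → Tendsto (fun J =>
      (∑ p ∈ Finset.range J ×ˢ Finset.range J, Φ r p t ω ^ 2) / 2) atTop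
        (𝓝 (FB U' g g (x ω) r t)) := by
    intro ω r hr t _
    have h1 := phi_tendsto e (hUsymm r hr) (hsX t ω) hsQ (g r)
    have h2 : FB U' g g (x ω) r t = ∑ a, ∑ b, ((2 : ℝ) • (U r *
        Matrix.of (fun a b => ⟪Q (g r a), g r b⟫) * U r)) a b * ⟪X t ω (g r a), g r b⟫ := by
      simp only [FB, hx, Real.toNNReal_coe]
      rfl
    rw [h2]
    exact h1
  -- the selection
  have hsel : ∀ ε : ℝ, 0 < ε → ∀ δ : ℝ, 0 < δ → ∃ m J n : ℕ,
      P {ω | ∃ l ≤ 2 ^ n, ε < |dS β Φ m J n l ω + dB Φ m J n l ω -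
        (FB U g g (x ω) (tm n l) (tm n l) - FB U g g (x ω) 0 0 -
          ∫ σ in (0 : ℝ)..(tm n l), θ σ)|} ≤ ENNReal.ofReal δ := by
    intro ε hε δ hδ
    refine select (P := P) (β := β) (Φ := Φ) (N := NN Q α U g g' X)
      (fun p t => (hsol.brownian.adapted p t).mono (F.le t) le_rfl)
      (fun r p t => (hΦm r p t).mono (F.le t) le_rfl) hΦc
      (fun r _ => approx_NN heq U (fun r a => gv_isGen hgen r a) r)
      (F := fun ω => FB U g g (x ω))
      (E := fun ω r s => FB U' g g (x ω) r s - (FB U g' g (x ω) r s + FB U g g' (x ω) r s))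
      (D := fun ω r s => θ r + (FB U g' g (x ω) r s + FB U g g' (x ω) r s) -
        FB U' g g (x ω) r s)
      (W := fun ω => FB U' g g (x ω)) ?_ ?_ ?_ ?_ hΦW ?_
      (Z := fun t ω => FB U g g (x ω) t t - FB U g g (x ω) 0 0 - ∫ σ in (0 : ℝ)..t, θ σ)
      ?_ ?_ hε hδ
    · intro ω
      exact (FB_continuousOn hU'c hgc hgc (hxc ω)).sub
        ((FB_continuousOn hUc hg'c hgc (hxc ω)).add (FB_continuousOn hUc hgc hg'c (hxc ω)))
    · intro ω
      have h1 : ContinuousOn (Function.uncurry fun r _ => θ r)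
          (Set.Icc (0 : ℝ) 1 ×ˢ Set.Icc (0 : ℝ) 1) :=
        hθc.comp continuous_fst.continuousOn fun p hp => hp.1
      exact (h1.add
        ((FB_continuousOn hUc hg'c hgc (hxc ω)).add (FB_continuousOn hUc hgc hg'c (hxc ω)))).sub
        (FB_continuousOn hU'c hgc hgc (hxc ω))
    · intro ω s hs r hr r' hr' hrr
      have hc := FB_continuousOn hUc hgc hgc (hxc ω)
      have hE := (FB_continuousOn hU'c hgc hgc (hxc ω)).sub
        ((FB_continuousOn hUc hg'c hgc (hxc ω)).add (FB_continuousOn hUc hgc hg'c (hxc ω)))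
      have hE' : ContinuousOn (Function.uncurry fun r s => FB U' g g (x ω) r s -
          (FB U g' g (x ω) r s + FB U g g' (x ω) r s)) (Set.Icc 0 1 ×ˢ Set.Icc 0 1) := hE
      symm
      refine intervalIntegral.integral_eq_sub_of_hasDerivAt_of_le
        (f := fun r => FB U g g (x ω) r s) hrr
        ((continuousOn_slice' hc hs).mono (Set.Icc_subset_Icc hr.1 hr'.2)) (fun ρ hρ => ?_) ?_
      · exact FB_hasDerivAt (x ω) s (fun a b => Ui_hasDerivAt hQ hK (hρ.2.le.trans hr'.2) a b)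
          (fun i => gv_hasDerivAt hgen (hρ.2.trans_le hr'.2) i)
      · exact ii_of_continuousOn (continuousOn_slice' hE' hs) hr hr'
    · intro ω r _
      exact (FB_continuous_right U' g g (hxc ω) r).continuousOn
    · intro ω r _ s t _ _
      have h1 := NN_eq Q α U g g' (hsol.continuous ω) r t
      have h2 := NN_eq Q α U g g' (hsol.continuous ω) r s
      have hc1 : Continuous fun σ => θ r + (FB U g' g (x ω) r σ + FB U g g' (x ω) r σ) :=
        continuous_const.add ((FB_continuous_right U g' g (hxc ω) r).add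
          (FB_continuous_right U g g' (hxc ω) r))
      have hc2 := FB_continuous_right U' g g (hxc ω) r
      rw [intervalIntegral.integral_sub (hc1.intervalIntegrable _ _)
        (hc2.intervalIntegrable _ _)]
      have h3 := intervalIntegral.integral_interval_sub_left
        (hc1.intervalIntegrable (μ := volume) 0 t) (hc1.intervalIntegrable 0 s)
      rw [← h3]
      change NN Q α U g g' X r t ω = FB U g g (x ω) r t - FB U g g (x ω) r 0 -
        ∫ s in (0 : ℝ)..t, (θ r + (FB U g' g (x ω) r s + FB U g g' (x ω) r s)) at h1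
      change NN Q α U g g' X r s ω = FB U g g (x ω) r s - FB U g g (x ω) r 0 -
        ∫ s in (0 : ℝ)..s, (θ r + (FB U g' g (x ω) r s + FB U g g' (x ω) r s)) at h2
      rw [h1, h2]
      ring
    · intro ω t _
      congr 1
      refine intervalIntegral.integral_congr fun σ _ => ?_
      ring
    · intro t
      have h1 := FB_measurable U g g (x := x) (t : ℝ) t (by
        simp only [hx, Real.toNNReal_coe]
        exact (hsol.adapted t).mono (F.le t) le_rfl)
      have h2 := FB_measurable U g g (x := x) (0 : ℝ) 0 (by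
        simp only [hx, Real.toNNReal_zero]
        exact (hsol.adapted 0).mono (F.le 0) le_rfl)
      exact (h1.sub h2).sub_const _
  -- the exponential identity
  have hmain := exp_identity (P := P) (β := β) (F := F) (Φ := Φ) (V := fun t ω => ‖X t ω‖)
    (Y0 := fun ω => FB U g g (x ω) 0 0)
    (Z := fun t ω => FB U g g (x ω) t t - FB U g g (x ω) 0 0 - ∫ σ in (0 : ℝ)..t, θ σ)
    hsol.brownian hΦm (fun t => measurable_norm.comp (hsol.adapted t)) (fun ω => (hsol.continuous ω).norm)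
    hC0 ?_ ?_ (fun ω => hFnn ω 0 (by simp)) ?_ (C0 := C2) ?_ hsel
  · have e1 : ∀ ω, FB U g g (x ω) 0 0 + (FB U g g (x ω) ((1 : ℝ≥0) : ℝ) ((1 : ℝ≥0) : ℝ) -
        FB U g g (x ω) 0 0 - ∫ σ in (0 : ℝ)..((1 : ℝ≥0) : ℝ), θ σ) =
        FB U g g (x ω) 1 1 - ∫ σ in (0 : ℝ)..1, θ σ := by
      intro ω
      rw [NNReal.coe_one]
      ring
    simp_rw [e1] at hmain
    exact hmain
  · intro ω m J n i hi
    have hmono : Monotone fun J => (∑ p ∈ Finset.range J ×ˢ Finset.range J,
        Φ (tpar m n i) p (tm n i) ω ^ 2) / 2 := by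
      intro J J' hJ
      dsimp only
      gcongr
    have h1 := hmono.ge_of_tendsto (hΦW ω (tpar m n i) (tpar_mem hi) (tm n i)
      (tm_le_one hi.le)) J
    refine h1.trans ((hWle ω _ (tpar_mem hi) _).trans ?_)
    simp only [hx, Real.toNNReal_coe]
    exact le_rfl
  · refine FB_measurable U g g (x := x) (0 : ℝ) 0 ?_
    simp only [hx, Real.toNNReal_zero]
    exact hsol.adapted 0
  · intro t
    have h1 := FB_measurable U g g (x := x) (t : ℝ) t (by
      simp only [hx, Real.toNNReal_coe]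
      exact (hsol.adapted t).mono (F.le t) le_rfl)
    have h2 := FB_measurable U g g (x := x) (0 : ℝ) 0 (by
      simp only [hx, Real.toNNReal_zero]
      exact (hsol.adapted 0).mono (F.le 0) le_rfl)
    exact (h1.sub h2).sub_const _
  · intro t ht ω
    have ht' : (t : ℝ) ∈ Set.Icc (0 : ℝ) 1 := ⟨t.2, by exact_mod_cast ht⟩
    have h1 := hFnn ω t ht'
    have h2 : |∫ σ in (0 : ℝ)..t, θ σ| ≤ C2 := by
      have h3 := intervalIntegral.norm_integral_le_of_norm_le_const (a := (0 : ℝ)) (b := t)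
        (C := C2) (f := θ) (fun σ hσ => by
          rw [Set.uIoc_of_le ht'.1] at hσ
          exact hC2 σ ⟨hσ.1.le, hσ.2.trans ht'.2⟩)
      rw [Real.norm_eq_abs, sub_zero, abs_of_nonneg ht'.1] at h3
      refine h3.trans ?_
      exact mul_le_of_le_one_right ((norm_nonneg _).trans (hC2 0 (by simp))) ht'.2
    have h4 := (abs_le.1 h2).2
    linarith

end Pool.Agent.H5.W
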