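import Pool.Agent.H5.W.Path

/-!
Pathwise convergence of the discretised brackets.
-/

open MeasureTheory Filter Topology
open scoped NNReal

namespace Pool.Agent.H5.W

lemma grid_mem {n i : ℕ} (hi : i ≤ 2 ^ n) : (i : ℝ) / 2 ^ n ∈ Set.Icc (0 : ℝ) 1 := by
  have hp : (0 : ℝ) < 2 ^ n := by positivity
  refine ⟨by positivity, ?_⟩
  rw [div_le_one hp]
  exact_mod_cast hi

lemma grid_le_one {n i : ℕ} (hi : i ≤ 2 ^ n) : (i : ℝ≥0) / 2 ^ n ≤ 1 := by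
  have := (grid_mem hi).2
  exact_mod_cast this

/-- one cell -/
lemma bracket_cell {w : ℕ → ℝ≥0 → ℝ} {W : ℝ → ℝ} (hw : ∀ J, Continuous (w J))
    (hmono : ∀ t, Monotone fun J => w J t) (hW : ContinuousOn W (Set.Icc 0 1))
    (hlim : ∀ t : ℝ≥0, t ≤ 1 → Tendsto (fun J => w J t) atTop (𝓝 (W t))) {ε : ℝ} (hε : 0 < ε) :
    ∀ᶠ J in atTop, ∀ᶠ n : ℕ in atTop, ∀ i : ℕ, i < 2 ^ n →
      |w J ((i : ℝ≥0) / 2 ^ n) * (1 / 2 ^ n) -
        ∫ σ in ((i : ℝ) / 2 ^ n)..(((i + 1 : ℕ) : ℝ) / 2 ^ n), W σ| ≤ ε * (1 / 2 ^ n) := by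
  have hWc : ContinuousOn (fun t : ℝ≥0 => W t) (Set.Icc 0 1) := by
    refine hW.comp (by fun_prop) ?_
    intro t ht
    exact ⟨t.2, by exact_mod_cast ht.2⟩
  have hcomp : IsCompact (Set.Icc (0 : ℝ≥0) 1) := isCompact_Icc
  have hdini := Monotone.tendstoUniformlyOn_of_forall_tendsto hcomp
    (fun J => (hw J).continuousOn) (fun t _ => hmono t) hWc (fun t ht => hlim t ht.2)
  rw [Metric.tendstoUniformlyOn_iff] at hdini
  have h1 := hdini (ε / 2) (half_pos hε)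
  have hu := (isCompact_Icc (a := (0 : ℝ)) (b := 1)).uniformContinuousOn_of_continuous hW
  rw [Metric.uniformContinuousOn_iff] at hu
  obtain ⟨η, hη, hu⟩ := hu (ε / 2) (half_pos hε)
  have hev : ∀ᶠ n : ℕ in atTop, ((1 : ℝ) / 2) ^ n < η :=
    (tendsto_pow_atTop_nhds_zero_of_lt_one (by norm_num) (by norm_num)).eventually_lt_const hη
  filter_upwards [h1] with J hJ
  filter_upwards [hev] with n hn i hi
  have hp : (0 : ℝ) < 2 ^ n := by positivity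
  have hi0 := grid_mem (n := n) hi.le
  have hi1 := grid_mem (n := n) (Nat.succ_le_of_lt hi)
  have hnn : (1 : ℝ) / 2 ^ n < η := by rw [← one_div_pow]; exact hn
  have hlen : ((i + 1 : ℕ) : ℝ) / 2 ^ n - (i : ℝ) / 2 ^ n = 1 / 2 ^ n := by
    push_cast
    ring
  have hle : (i : ℝ) / 2 ^ n ≤ ((i + 1 : ℕ) : ℝ) / 2 ^ n := by
    have : (0 : ℝ) < 1 / 2 ^ n := by positivity
    linarith
  have hint : IntervalIntegrable W volume ((i : ℝ) / 2 ^ n) (((i + 1 : ℕ) : ℝ) / 2 ^ n) :=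
    ii_of_continuousOn hW hi0 hi1
  have e1 : w J ((i : ℝ≥0) / 2 ^ n) * (1 / 2 ^ n) =
      ∫ σ in ((i : ℝ) / 2 ^ n)..(((i + 1 : ℕ) : ℝ) / 2 ^ n), w J ((i : ℝ≥0) / 2 ^ n) := by
    rw [intervalIntegral.integral_const, hlen, smul_eq_mul, mul_comm]
  rw [e1, ← intervalIntegral.integral_sub intervalIntegrable_const hint]
  have hb := intervalIntegral.norm_integral_le_of_norm_le_const (a := (i : ℝ) / 2 ^ n)
    (b := ((i + 1 : ℕ) : ℝ) / 2 ^ n) (C := ε)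
    (f := fun σ => w J ((i : ℝ≥0) / 2 ^ n) - W σ) (fun σ hσ => ?_)
  · rw [hlen, abs_of_pos (by positivity)] at hb
    exact hb
  · rw [Set.uIoc_of_le hle] at hσ
    have hσm : σ ∈ Set.Icc (0 : ℝ) 1 := ⟨hi0.1.trans hσ.1.le, hσ.2.trans hi1.2⟩
    have b1 := hJ ((i : ℝ≥0) / 2 ^ n) ⟨zero_le, grid_le_one hi.le⟩
    have b2 := hu ((i : ℝ) / 2 ^ n) hi0 σ hσm (by
      rw [Real.dist_eq, abs_sub_comm, abs_of_nonneg (by linarith [hσ.1])]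
      linarith [hσ.2])
    rw [Real.dist_eq] at b1 b2
    have hcast : (((i : ℝ≥0) / 2 ^ n : ℝ≥0) : ℝ) = (i : ℝ) / 2 ^ n := by push_cast; rfl
    rw [hcast] at b1
    rw [Real.norm_eq_abs]
    have : w J ((i : ℝ≥0) / 2 ^ n) - W σ = -(W ((i : ℝ) / 2 ^ n) - w J ((i : ℝ≥0) / 2 ^ n)) +
      (W ((i : ℝ) / 2 ^ n) - W σ) := by ring
    rw [this]
    refine (abs_add_le _ _).trans ?_
    rw [abs_neg]
    linarith

/-- all cells, with block-dependent test functions -/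
lemma bracket_sum {w : ℕ → ℕ → ℝ≥0 → ℝ} {W : ℕ → ℝ → ℝ} (m : ℕ)
    (hw : ∀ k J, Continuous (w k J))
    (hmono : ∀ k t, Monotone fun J => w k J t)
    (hW : ∀ k < 2 ^ m, ContinuousOn (W k) (Set.Icc 0 1))
    (hlim : ∀ k < 2 ^ m, ∀ t : ℝ≥0, t ≤ 1 → Tendsto (fun J => w k J t) atTop (𝓝 (W k t)))
    {ε : ℝ} (hε : 0 < ε) :
    ∀ᶠ J in atTop, ∀ᶠ n : ℕ in atTop, ∀ l : ℕ, l ≤ 2 ^ n →
      |∑ i ∈ Finset.range l, (w (i / 2 ^ (n - m)) J ((i : ℝ≥0) / 2 ^ n) * (1 / 2 ^ n) -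
        ∫ σ in ((i : ℝ) / 2 ^ n)..(((i + 1 : ℕ) : ℝ) / 2 ^ n), W (i / 2 ^ (n - m)) σ)| ≤ ε := by
  have h1 : ∀ᶠ J in atTop, ∀ k ∈ Finset.range (2 ^ m), ∀ᶠ n : ℕ in atTop, ∀ i : ℕ, i < 2 ^ n →
      |w k J ((i : ℝ≥0) / 2 ^ n) * (1 / 2 ^ n) -
        ∫ σ in ((i : ℝ) / 2 ^ n)..(((i + 1 : ℕ) : ℝ) / 2 ^ n), W k σ| ≤ ε * (1 / 2 ^ n) := by
    rw [Filter.eventually_all_finset]
    intro k hk
    have hk' := Finset.mem_range.1 hk
    exact bracket_cell (hw k) (hmono k) (hW k hk') (hlim k hk') hε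
  filter_upwards [h1] with J hJ
  rw [← Filter.eventually_all_finset] at hJ
  filter_upwards [hJ, eventually_ge_atTop m] with n hn hmn l hl
  have hpn : (0 : ℝ) < 2 ^ n := by positivity
  refine (Finset.abs_sum_le_sum_abs _ _).trans ?_
  have hterm : ∀ i ∈ Finset.range l, |w (i / 2 ^ (n - m)) J ((i : ℝ≥0) / 2 ^ n) * (1 / 2 ^ n) -
        ∫ σ in ((i : ℝ) / 2 ^ n)..(((i + 1 : ℕ) : ℝ) / 2 ^ n), W (i / 2 ^ (n - m)) σ|
        ≤ ε * (1 / 2 ^ n) := by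
    intro i hi
    have hi' : i < 2 ^ n := (Finset.mem_range.1 hi).trans_le hl
    have hk : i / 2 ^ (n - m) < 2 ^ m := by
      rw [Nat.div_lt_iff_lt_mul (by positivity), ← pow_add, Nat.add_sub_cancel' hmn]
      exact hi'
    exact hn _ (Finset.mem_range.2 hk) i hi'
  refine (Finset.sum_le_sum hterm).trans ?_
  rw [Finset.sum_const, Finset.card_range, nsmul_eq_mul]
  have : (l : ℝ) ≤ 2 ^ n := by exact_mod_cast hl
  calc (l : ℝ) * (ε * (1 / 2 ^ n)) ≤ 2 ^ n * (ε * (1 / 2 ^ n)) := by gcongr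
    _ = ε := by field_simp

end Pool.Agent.H5.W
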