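import Pool.Agent.H5.W.Bracket

/-!
Combination of the block estimates.
-/

open MeasureTheory Filter Topology
open scoped NNReal

namespace Pool.Agent.H5.W

lemma min_grid {m n : ℕ} (hmn : m ≤ n) (l k : ℕ) :
    ((min l (k * 2 ^ (n - m)) : ℕ) : ℝ) / 2 ^ n = min ((l : ℝ) / 2 ^ n) ((k : ℝ) / 2 ^ m) := by
  rw [Nat.cast_min, ← min_div_div_right (by positivity)]
  congr 1
  push_cast
  have : (2 : ℝ) ^ n = 2 ^ m * 2 ^ (n - m) := by rw [← pow_add, Nat.add_sub_cancel' hmn]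
  rw [this]
  field_simp

lemma sum_integral_grid {W : ℝ → ℝ} (hW : ContinuousOn W (Set.Icc 0 1)) {n l : ℕ}
    (hl : l ≤ 2 ^ n) :
    ∑ i ∈ Finset.range l, ∫ σ in ((i : ℝ) / 2 ^ n)..(((i + 1 : ℕ) : ℝ) / 2 ^ n), W σ =
      ∫ σ in (0 : ℝ)..((l : ℝ) / 2 ^ n), W σ := by
  have := intervalIntegral.sum_integral_adjacent_intervals (f := W) (μ := volume)
    (a := fun i : ℕ => (i : ℝ) / 2 ^ n) (n := l) (fun i hi =>
      ii_of_continuousOn hW (grid_mem (hi.le.trans hl)) (grid_mem (Nat.succ_le_of_lt (hi.trans_le hl))))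
  rw [this]
  simp

lemma combine {m n : ℕ} (hmn : m ≤ n) {l : ℕ} (hl : l ≤ 2 ^ n) (G : ℕ → ℕ → ℝ)
    (N : ℕ → ℝ → ℝ) (W : ℕ → ℝ → ℝ) (hW : ∀ k < 2 ^ m, ContinuousOn (W k) (Set.Icc 0 1))
    (b : ℕ → ℝ) (X : ℕ → ℝ) (Z : ℝ)
    (hX : ∀ k < 2 ^ m, N k (min ((l : ℝ) / 2 ^ n) (((k + 1 : ℕ) : ℝ) / 2 ^ m)) -
      N k (min ((l : ℝ) / 2 ^ n) ((k : ℝ) / 2 ^ m)) +
      ∫ σ in (min ((l : ℝ) / 2 ^ n) ((k : ℝ) / 2 ^ m))..
        (min ((l : ℝ) / 2 ^ n) (((k + 1 : ℕ) : ℝ) / 2 ^ m)), W k σ = X k) {ε : ℝ}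
    (h1 : |∑ i ∈ Finset.range l, (b i -
        ∫ σ in ((i : ℝ) / 2 ^ n)..(((i + 1 : ℕ) : ℝ) / 2 ^ n), W (i / 2 ^ (n - m)) σ)| ≤ ε / 3)
    (h2 : ∀ k < 2 ^ m, ∀ l' ≤ 2 ^ n,
      |∑ i ∈ Finset.range l', G k i - N k ((l' : ℝ) / 2 ^ n)| ≤ ε / (6 * 2 ^ m))
    (h3 : |∑ k ∈ Finset.range (2 ^ m), X k - Z| ≤ ε / 3) :
    |∑ i ∈ Finset.range l, G (i / 2 ^ (n - m)) i + ∑ i ∈ Finset.range l, b i - Z| ≤ ε := by
  set M : ℕ := 2 ^ (n - m) with hM
  have hMpos : 0 < M := by positivity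
  have hLM : 2 ^ m * M = 2 ^ n := by rw [hM, ← pow_add, Nat.add_sub_cancel' hmn]
  have hl' : l ≤ 2 ^ m * M := by rw [hLM]; exact hl
  have b1 := block_sum G hMpos (2 ^ m) hl'
  have b2 := block_sum (fun k i =>
    ∫ σ in ((i : ℝ) / 2 ^ n)..(((i + 1 : ℕ) : ℝ) / 2 ^ n), W k σ) hMpos (2 ^ m) hl'
  have hminle : ∀ k : ℕ, min l (k * M) ≤ 2 ^ n := fun k => (min_le_left _ _).trans hl
  have b2' : ∀ k ∈ Finset.range (2 ^ m),
      (∑ i ∈ Finset.range (min l ((k + 1) * M)),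
        ∫ σ in ((i : ℝ) / 2 ^ n)..(((i + 1 : ℕ) : ℝ) / 2 ^ n), W k σ) -
      (∑ i ∈ Finset.range (min l (k * M)),
        ∫ σ in ((i : ℝ) / 2 ^ n)..(((i + 1 : ℕ) : ℝ) / 2 ^ n), W k σ) =
      ∫ σ in (min ((l : ℝ) / 2 ^ n) ((k : ℝ) / 2 ^ m))..
        (min ((l : ℝ) / 2 ^ n) (((k + 1 : ℕ) : ℝ) / 2 ^ m)), W k σ := by
    intro k hk
    have hWk := hW k (Finset.mem_range.1 hk)
    rw [sum_integral_grid hWk (hminle _), sum_integral_grid hWk (hminle _),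
      intervalIntegral.integral_interval_sub_left
        (ii_of_continuousOn hWk (by simp) (grid_mem (hminle _)))
        (ii_of_continuousOn hWk (by simp) (grid_mem (hminle _))),
      min_grid hmn, min_grid hmn]
  have key : ∑ i ∈ Finset.range l, G (i / M) i + ∑ i ∈ Finset.range l, b i - Z =
      ∑ i ∈ Finset.range l, (b i -
        ∫ σ in ((i : ℝ) / 2 ^ n)..(((i + 1 : ℕ) : ℝ) / 2 ^ n), W (i / M) σ) +
      ∑ k ∈ Finset.range (2 ^ m),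
        ((∑ i ∈ Finset.range (min l ((k + 1) * M)), G k i -
            N k (min ((l : ℝ) / 2 ^ n) (((k + 1 : ℕ) : ℝ) / 2 ^ m))) -
          (∑ i ∈ Finset.range (min l (k * M)), G k i -
            N k (min ((l : ℝ) / 2 ^ n) ((k : ℝ) / 2 ^ m)))) +
      (∑ k ∈ Finset.range (2 ^ m), X k - Z) := by
    rw [← b1, Finset.sum_sub_distrib (f := b), ← b2, Finset.sum_congr rfl b2',
      Finset.sum_congr rfl fun k hk => (hX k (Finset.mem_range.1 hk)).symm]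
    simp only [Finset.sum_sub_distrib, Finset.sum_add_distrib]
    ring
  rw [key]
  have hk2 : |∑ k ∈ Finset.range (2 ^ m),
        ((∑ i ∈ Finset.range (min l ((k + 1) * M)), G k i -
            N k (min ((l : ℝ) / 2 ^ n) (((k + 1 : ℕ) : ℝ) / 2 ^ m))) -
          (∑ i ∈ Finset.range (min l (k * M)), G k i -
            N k (min ((l : ℝ) / 2 ^ n) ((k : ℝ) / 2 ^ m))))| ≤ ε / 3 := by
    refine (Finset.abs_sum_le_sum_abs _ _).trans ?_
    have : ∀ k ∈ Finset.range (2 ^ m), |(∑ i ∈ Finset.range (min l ((k + 1) * M)), G k i -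
            N k (min ((l : ℝ) / 2 ^ n) (((k + 1 : ℕ) : ℝ) / 2 ^ m))) -
          (∑ i ∈ Finset.range (min l (k * M)), G k i -
            N k (min ((l : ℝ) / 2 ^ n) ((k : ℝ) / 2 ^ m)))| ≤ ε / (3 * 2 ^ m) := by
      intro k hk
      have hk' := Finset.mem_range.1 hk
      have c1 := h2 k hk' _ (hminle (k + 1))
      have c2 := h2 k hk' _ (hminle k)
      rw [min_grid hmn] at c1 c2
      refine (abs_sub _ _).trans ((add_le_add c1 c2).trans (le_of_eq ?_))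
      field_simp
      ring
    refine (Finset.sum_le_sum this).trans ?_
    rw [Finset.sum_const, Finset.card_range, nsmul_eq_mul]
    push_cast
    apply le_of_eq
    field_simp
  refine (abs_add_le _ _).trans ?_
  have := abs_add_le (∑ i ∈ Finset.range l, (b i -
        ∫ σ in ((i : ℝ) / 2 ^ n)..(((i + 1 : ℕ) : ℝ) / 2 ^ n), W (i / M) σ))
    (∑ k ∈ Finset.range (2 ^ m),
        ((∑ i ∈ Finset.range (min l ((k + 1) * M)), G k i -
            N k (min ((l : ℝ) / 2 ^ n) (((k + 1 : ℕ) : ℝ) / 2 ^ m))) -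
          (∑ i ∈ Finset.range (min l (k * M)), G k i -
            N k (min ((l : ℝ) / 2 ^ n) ((k : ℝ) / 2 ^ m)))))
  linarith

end Pool.Agent.H5.W
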