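import Mathlib

/-!
Definitions for the infinite-dimensional Wishart equation (problem MP_f9c8f0_pr).
-/

open MeasureTheory ProbabilityTheory Filter Topology
open scoped NNReal ENNReal RealInnerProductSpace

namespace Pool.Agent.H5.W

/-- A strongly continuous semigroup of bounded operators on a real Hilbert space. -/
structure C0Semigroup (H : Type*) [NormedAddCommGroup H] [InnerProductSpace ℝ H] where
  /-- the operator at time `t` -/
  S : ℝ≥0 → H →L[ℝ] H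
  zero : S 0 = ContinuousLinearMap.id ℝ H
  add : ∀ s t, S (s + t) = (S s).comp (S t)
  cont : ∀ x, Continuous fun t => S t x

variable {H : Type*} [NormedAddCommGroup H] [InnerProductSpace ℝ H]

/-- `T.IsGen g Ag`: `g` is in the domain of the generator `A` of the semigroup and `A g = Ag`,
i.e. `(S_t g - g) / t → Ag` as `t → 0`, `t > 0`. -/
def C0Semigroup.IsGen (T : C0Semigroup H) (g Ag : H) : Prop :=
  Tendsto (fun t : ℝ≥0 => (t : ℝ)⁻¹ • (T.S t g - g)) (𝓝[≠] 0) (𝓝 Ag)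

/-- `R` is the positive square root of `X`. -/
def IsPosSqrt (R X : H →L[ℝ] H) : Prop := R.IsPositive ∧ R.comp R = X

/-- `β p`, `p : ι`, are independent standard real Brownian motions with respect to the
filtration `F`: each is a Brownian motion, adapted to `F`, and for `s ≤ t` the family of
increments over `[s, t]` is independent, and independent of `F s`. -/
structure IsBrownianFamily {Ω ι : Type*} {mΩ : MeasurableSpace Ω} (P : Measure Ω)
    (F : Filtration ℝ≥0 mΩ) (β : ι → ℝ≥0 → Ω → ℝ) : Prop where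
  isBrownian : ∀ p, IsBrownianReal (β p) P
  adapted : ∀ p t, Measurable[F t] (β p t)
  indep_incr : ∀ s t, s ≤ t → iIndepFun (fun p ω => β p t ω - β p s ω) P
  indep_past : ∀ s t, s ≤ t →
    Indep (⨆ p, MeasurableSpace.comap (fun ω => β p t ω - β p s ω) inferInstance) (F s) P

/-- The left-point Riemann sum, at time `t` along the dyadic grid of mesh `2 ^ (-n)`, of the
process `φ` against the process `b`. -/
noncomputable def riemannSum {Ω : Type*} (φ b : ℝ≥0 → Ω → ℝ) (n : ℕ) (t : ℝ≥0) (ω : Ω) : ℝ :=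
  ∑ i ∈ Finset.range ⌈t * 2 ^ n⌉₊,
    φ (i / 2 ^ n) ω * (b (min ((i + 1) / 2 ^ n) t) ω - b (i / 2 ^ n) ω)

/-- Convergence in probability, uniformly on compact time intervals. -/
def TendstoUCP {Ω : Type*} {mΩ : MeasurableSpace Ω} (P : Measure Ω) (Y : ℕ → ℝ≥0 → Ω → ℝ)
    (Z : ℝ≥0 → Ω → ℝ) : Prop :=
  ∀ T : ℝ≥0, ∀ ε : ℝ, 0 < ε →
    Tendsto (fun n => P {ω | ∃ t ≤ T, ε ≤ |Y n t ω - Z t ω|}) atTop (𝓝 0)

/-- `I` is the Ito integral `∑_{j,k} ∫ φ_{jk} dβ_{jk}`: there are processes `J j k`, the limits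
(uniformly on compacts in probability) of the left-point Riemann sums of `φ j k` against
`β (j, k)`, and `I` is the limit, in the same sense, of `∑_{j,k<n} J j k`. -/
def IsItoIntegral {Ω : Type*} {mΩ : MeasurableSpace Ω} (P : Measure Ω)
    (β : ℕ × ℕ → ℝ≥0 → Ω → ℝ) (φ : ℕ × ℕ → ℝ≥0 → Ω → ℝ) (I : ℝ≥0 → Ω → ℝ) : Prop :=
  ∃ J : ℕ × ℕ → ℝ≥0 → Ω → ℝ,
    (∀ p, TendstoUCP P (riemannSum (φ p) (β p)) (J p)) ∧
    TendstoUCP P (fun n t ω => ∑ p ∈ Finset.range n ×ˢ Finset.range n, J p t ω) I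

/-- Weak solutions of the Wishart equation
`dX = (α Q + X A + A* X) dt + √X dW √Q + √Q dW* √X` on a Hilbert space with orthonormal basis
`e`, where `W = ∑_{j,k} β_{jk} e_j ⊗ e_k` is the cylindrical Brownian motion. -/
structure IsWishartSolution (T : C0Semigroup H) (Q : H →L[ℝ] H) (α : ℝ) (e : HilbertBasis ℕ ℝ H)
    {Ω : Type*} {mΩ : MeasurableSpace Ω} (P : Measure Ω) (F : Filtration ℝ≥0 mΩ)
    (β : ℕ × ℕ → ℝ≥0 → Ω → ℝ) (X : ℝ≥0 → Ω → H →L[ℝ] H) : Prop where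
  brownian : IsBrownianFamily P F β
  adapted : ∀ t, Measurable[F t] (X t)
  continuous : ∀ ω, Continuous fun t => X t ω
  equation : ∃ (sQ : H →L[ℝ] H) (sX : ℝ≥0 → Ω → H →L[ℝ] H), IsPosSqrt sQ Q ∧
    (∀ t ω, IsPosSqrt (sX t ω) (X t ω)) ∧
    ∀ g h Ag Ah, T.IsGen g Ag → T.IsGen h Ah →
      ∃ I₁ I₂ : ℝ≥0 → Ω → ℝ,
        IsItoIntegral P β (fun p t ω => ⟪sX t ω (e p.1), h⟫ * ⟪sQ g, e p.2⟫) I₁ ∧
        IsItoIntegral P β (fun p t ω => ⟪sX t ω g, e p.1⟫ * ⟪sQ (e p.2), h⟫) I₂ ∧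
        ∀ᵐ ω ∂P, ∀ t : ℝ≥0, ⟪X t ω g, h⟫ = ⟪X 0 ω g, h⟫ +
          (∫ s in (0 : ℝ)..t, (α * ⟪Q g, h⟫ + ⟪X s.toNNReal ω Ag, h⟫ +
            ⟪X s.toNNReal ω g, Ah⟫)) + I₁ t ω + I₂ t ω

end Pool.Agent.H5.W
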