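import Mathlib

/-!
Selection of indices from iterated almost sure eventual statements.
-/

open MeasureTheory Filter Topology
open scoped ENNReal

namespace Pool.Agent.H5.W

variable {Ω : Type*} {mΩ : MeasurableSpace Ω} {P : Measure Ω}

lemma measurableSet_frequently {B : ℕ → Set Ω} (hB : ∀ n, MeasurableSet (B n)) :
    MeasurableSet {ω | ∃ᶠ n in atTop, ω ∈ B n} := by
  have : {ω | ∃ᶠ n in atTop, ω ∈ B n} = ⋂ N, ⋃ n, ⋃ (_ : N ≤ n), B n := by
    ext ω
    simp only [Set.mem_ofPred_eq, frequently_atTop, Set.mem_iInter, Set.mem_iUnion, exists_prop]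
  rw [this]
  exact MeasurableSet.iInter fun N => MeasurableSet.iUnion fun n => MeasurableSet.iUnion fun _ => hB n

lemma eventually_measure_lt [IsFiniteMeasure P] {B : ℕ → Set Ω} (hB : ∀ n, MeasurableSet (B n))
    {δ : ℝ≥0∞} (h : P {ω | ∃ᶠ n in atTop, ω ∈ B n} < δ) : ∀ᶠ n in atTop, P (B n) < δ := by
  let C : ℕ → Set Ω := fun N => ⋃ n, ⋃ (_ : N ≤ n), B n
  have hC : ∀ N, MeasurableSet (C N) := fun N => MeasurableSet.iUnion fun n =>
    MeasurableSet.iUnion fun _ => hB n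
  have hanti : Antitone C := by
    intro a b hab x hx
    simp only [C, Set.mem_iUnion, exists_prop] at hx ⊢
    obtain ⟨n, hn, hx⟩ := hx
    exact ⟨n, hab.trans hn, hx⟩
  have ht := tendsto_measure_iInter_atTop (μ := P) (s := C)
    (fun N => (hC N).nullMeasurableSet) hanti ⟨0, measure_ne_top _ _⟩
  have he : (⋂ N, C N) = {ω | ∃ᶠ n in atTop, ω ∈ B n} := by
    ext ω
    simp only [C, Set.mem_ofPred_eq, frequently_atTop, Set.mem_iInter, Set.mem_iUnion, exists_prop]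
  rw [he] at ht
  filter_upwards [ht.eventually (gt_mem_nhds h)] with n hn
  refine lt_of_le_of_lt (measure_mono ?_) hn
  intro x hx
  simp only [C, Set.mem_iUnion, exists_prop]
  exact ⟨n, le_rfl, hx⟩

lemma triple_select [IsFiniteMeasure P] {B : ℕ → ℕ → ℕ → Set Ω}
    (hB : ∀ m J n, MeasurableSet (B m J n))
    (h : ∀ᵐ ω ∂P, ∀ᶠ m in atTop, ∀ᶠ J in atTop, ∀ᶠ n in atTop, ω ∉ B m J n)
    {δ : ℝ≥0∞} (hδ : 0 < δ) :
    ∀ᶠ m in atTop, ∀ᶠ J in atTop, ∀ᶠ n in atTop, P (B m J n) < δ := by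
  have h1 : ∀ m J, MeasurableSet {ω | ∃ᶠ n in atTop, ω ∈ B m J n} := fun m J =>
    measurableSet_frequently (hB m J)
  have h2 : ∀ m, MeasurableSet {ω | ∃ᶠ J in atTop, ω ∈ {ω | ∃ᶠ n in atTop, ω ∈ B m J n}} :=
    fun m => measurableSet_frequently (h1 m)
  have h3 : P {ω | ∃ᶠ m in atTop, ω ∈ {ω | ∃ᶠ J in atTop, ω ∈ {ω | ∃ᶠ n in atTop, ω ∈ B m J n}}}
      = 0 := by
    rw [measure_eq_zero_iff_ae_notMem]
    filter_upwards [h] with ω hω
    simp only [not_frequently]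
    exact hω
  have h4 := eventually_measure_lt h2 (h3.symm ▸ hδ)
  filter_upwards [h4] with m hm
  have h5 := eventually_measure_lt (h1 m) hm
  filter_upwards [h5] with J hJ
  exact eventually_measure_lt (hB m J) hJ

end Pool.Agent.H5.W
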