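import Pool.Agent.H5.W.Approx
import Pool.Agent.H5.W.Fatou
import Pool.Agent.H5.W.Combine

/-!
Selection of a discretisation for which the discrete exponent is close, in probability and
uniformly on the grid, to its continuous counterpart.
-/

open MeasureTheory ProbabilityTheory Filter Topology
open scoped NNReal ENNReal

namespace Pool.Agent.H5.W

variable {Ω : Type*} {mΩ : MeasurableSpace Ω} {P : Measure Ω}

/-- the test parameter used on the `i`-th cell -/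
noncomputable def tpar (m n i : ℕ) : ℝ := ((i / 2 ^ (n - m) : ℕ) : ℝ) / 2 ^ m

/-- the time at which the `i`-th cell starts -/
noncomputable def tm (n i : ℕ) : ℝ≥0 := (i : ℝ≥0) / 2 ^ n

lemma tm_coe (n i : ℕ) : ((tm n i : ℝ≥0) : ℝ) = (i : ℝ) / 2 ^ n := by
  unfold tm; push_cast; rfl

/-- discrete stochastic integral -/
noncomputable def dS (β : ℕ × ℕ → ℝ≥0 → Ω → ℝ) (Φ : ℝ → ℕ × ℕ → ℝ≥0 → Ω → ℝ) (m J n l : ℕ)
    (ω : Ω) : ℝ :=
  ∑ i ∈ Finset.range l, ∑ p ∈ Finset.range J ×ˢ Finset.range J,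
    Φ (tpar m n i) p (tm n i) ω * (β p (tm n (i + 1)) ω - β p (tm n i) ω)

/-- half of the discrete bracket -/
noncomputable def dB (Φ : ℝ → ℕ × ℕ → ℝ≥0 → Ω → ℝ) (m J n l : ℕ) (ω : Ω) : ℝ :=
  ∑ i ∈ Finset.range l, (∑ p ∈ Finset.range J ×ˢ Finset.range J,
    Φ (tpar m n i) p (tm n i) ω ^ 2) / 2 * (1 / 2 ^ n)

theorem select [IsProbabilityMeasure P] {β : ℕ × ℕ → ℝ≥0 → Ω → ℝ}
    (hβm : ∀ p t, Measurable (β p t)) {Φ : ℝ → ℕ × ℕ → ℝ≥0 → Ω → ℝ}
    (hΦm : ∀ r p t, Measurable (Φ r p t)) (hΦc : ∀ r p ω, Continuous fun t => Φ r p t ω)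
    {N : ℝ → ℝ≥0 → Ω → ℝ}
    (hA : ∀ r ∈ Set.Icc (0 : ℝ) 1, Approx P (fun J n t ω =>
      ∑ p ∈ Finset.range J ×ˢ Finset.range J, riemannSum (Φ r p) (β p) n t ω) (N r))
    {F E D W : Ω → ℝ → ℝ → ℝ}
    (hE : ∀ ω, ContinuousOn (Function.uncurry (E ω)) (Set.Icc 0 1 ×ˢ Set.Icc 0 1))
    (hD : ∀ ω, ContinuousOn (Function.uncurry (D ω)) (Set.Icc 0 1 ×ˢ Set.Icc 0 1))
    (hFE : ∀ ω, ∀ s ∈ Set.Icc (0 : ℝ) 1, ∀ r ∈ Set.Icc (0 : ℝ) 1, ∀ r' ∈ Set.Icc (0 : ℝ) 1,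
      r ≤ r' → F ω r' s - F ω r s = ∫ ρ in r..r', E ω ρ s)
    (hW : ∀ ω, ∀ r ∈ Set.Icc (0 : ℝ) 1, ContinuousOn (W ω r) (Set.Icc 0 1))
    (hΦW : ∀ ω, ∀ r ∈ Set.Icc (0 : ℝ) 1, ∀ t : ℝ≥0, t ≤ 1 → Tendsto (fun J =>
      (∑ p ∈ Finset.range J ×ˢ Finset.range J, Φ r p t ω ^ 2) / 2) atTop (𝓝 (W ω r t)))
    (hN : ∀ ω, ∀ r ∈ Set.Icc (0 : ℝ) 1, ∀ s t : ℝ≥0, s ≤ t → t ≤ 1 →
      N r t ω - N r s ω + ∫ σ in (s : ℝ)..t, W ω r σ =
        F ω r t - F ω r s - ∫ σ in (s : ℝ)..t, D ω r σ)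
    {Z : ℝ≥0 → Ω → ℝ} (hZ : ∀ ω, ∀ t : ℝ≥0, t ≤ 1 → Z t ω = F ω t t - F ω 0 0 -
      ∫ σ in (0 : ℝ)..t, (E ω σ σ + D ω σ σ)) (hZm : ∀ t : ℝ≥0, Measurable (Z t))
    {ε : ℝ} (hε : 0 < ε) {δ : ℝ} (hδ : 0 < δ) :
    ∃ m J n : ℕ, P {ω | ∃ l ≤ 2 ^ n, ε < |dS β Φ m J n l ω + dB Φ m J n l ω - Z (tm n l) ω|}
      ≤ ENNReal.ofReal δ := by
  classical
  -- the exceptional sets
  let A : ℕ → ℕ → ℕ → Set Ω := fun m J n =>
    {ω | ∃ l ≤ 2 ^ n, ε < |dS β Φ m J n l ω + dB Φ m J n l ω - Z (tm n l) ω|}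
  let ε' : ℕ → ℝ := fun m => ε / (6 * 2 ^ m)
  let Dm : ℕ → ℕ → ℕ → Set Ω := fun m J n =>
    ⋃ k ∈ Finset.range (2 ^ m), {ω | ∃ t ≤ 1, ε' m ≤
      |∑ p ∈ Finset.range J ×ˢ Finset.range J, riemannSum (Φ ((k : ℝ) / 2 ^ m) p) (β p) n t ω
        - N ((k : ℝ) / 2 ^ m) t ω|}
  have hε' : ∀ m, 0 < ε' m := fun m => by positivity
  -- measurability
  have hdS : ∀ m J n l, Measurable (dS β Φ m J n l) := fun m J n l =>
    Finset.measurable_fun_sum _ fun i _ => Finset.measurable_fun_sum _ fun p _ =>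
      (hΦm _ _ _).mul ((hβm _ _).sub (hβm _ _))
  have hdB : ∀ m J n l, Measurable (dB Φ m J n l) := fun m J n l =>
    Finset.measurable_fun_sum _ fun i _ => ((Finset.measurable_fun_sum _ fun p _ =>
      (hΦm _ _ _).pow_const 2).div_const _).mul_const _
  have hAm : ∀ m J n, MeasurableSet (A m J n) := by
    intro m J n
    have : A m J n = ⋃ l, ⋃ (_ : l ≤ 2 ^ n),
        {ω | ε < |dS β Φ m J n l ω + dB Φ m J n l ω - Z (tm n l) ω|} := by
      ext ω
      simp [A]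
    rw [this]
    refine MeasurableSet.iUnion fun l => MeasurableSet.iUnion fun _ => ?_
    exact measurableSet_lt measurable_const
      ((((hdS m J n l).add (hdB m J n l)).sub (hZm _)).abs)
  -- the in-probability part
  have hDsmall : ∀ m, ∀ᶠ J in atTop, ∀ᶠ n in atTop, P (Dm m J n) ≤ ENNReal.ofReal (δ / 2) := by
    intro m
    set η : ℝ := min (ε' m) (δ / 2 / 2 ^ m) with hη
    have hηpos : 0 < η := lt_min (hε' m) (by positivity)
    have h1 : ∀ᶠ J in atTop, ∀ k ∈ Finset.range (2 ^ m), ∀ᶠ n in atTop,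
        P {ω | ∃ t ≤ 1, η ≤ |∑ p ∈ Finset.range J ×ˢ Finset.range J,
          riemannSum (Φ ((k : ℝ) / 2 ^ m) p) (β p) n t ω - N ((k : ℝ) / 2 ^ m) t ω|}
          ≤ ENNReal.ofReal η := by
      rw [Filter.eventually_all_finset]
      intro k hk
      exact hA _ (grid_mem (Finset.mem_range.1 hk).le) η hηpos
    filter_upwards [h1] with J hJ
    rw [← Filter.eventually_all_finset] at hJ
    filter_upwards [hJ] with n hn
    calc P (Dm m J n) ≤ ∑ k ∈ Finset.range (2 ^ m), P {ω | ∃ t ≤ 1, ε' m ≤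
            |∑ p ∈ Finset.range J ×ˢ Finset.range J,
              riemannSum (Φ ((k : ℝ) / 2 ^ m) p) (β p) n t ω - N ((k : ℝ) / 2 ^ m) t ω|} :=
          measure_biUnion_finset_le _ _
      _ ≤ ∑ k ∈ Finset.range (2 ^ m), ENNReal.ofReal η := by
          refine Finset.sum_le_sum fun k hk => ?_
          refine (measure_mono ?_).trans (hn k hk)
          rintro ω ⟨t, ht, h⟩
          exact ⟨t, ht, (min_le_left _ _).trans h⟩
      _ = ENNReal.ofReal (2 ^ m * η) := by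
          rw [Finset.sum_const, Finset.card_range, nsmul_eq_mul,
            ENNReal.ofReal_mul (by positivity)]
          congr 1
          rw [ENNReal.ofReal_pow (by norm_num)]
          push_cast
          simp
      _ ≤ ENNReal.ofReal (δ / 2) := by
          apply ENNReal.ofReal_le_ofReal
          calc 2 ^ m * η ≤ 2 ^ m * (δ / 2 / 2 ^ m) := by
                gcongr
                exact min_le_right _ _
            _ = δ / 2 := by field_simp
  -- the pathwise part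
  have hpath : ∀ ω, ∀ᶠ m in atTop, ∀ᶠ J in atTop, ∀ᶠ n in atTop, ω ∉ Dm m J n → ω ∉ A m J n := by
    intro ω
    have h1 := path_ibp (hE ω) (hD ω) (hFE ω) (ε := ε / 3) (by positivity)
    filter_upwards [h1] with m hm
    have h2 := bracket_sum (w := fun k J t => (∑ p ∈ Finset.range J ×ˢ Finset.range J,
        Φ ((k : ℝ) / 2 ^ m) p t ω ^ 2) / 2) (W := fun k => W ω ((k : ℝ) / 2 ^ m)) m
      (fun k J => (continuous_finsetSum _ fun p _ => (hΦc _ _ _).pow 2).div_const _)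
      (fun k t J J' hJJ => by
        dsimp only
        gcongr)
      (fun k hk => hW ω _ (grid_mem hk.le))
      (fun k hk t ht => hΦW ω _ (grid_mem hk.le) t ht) (ε := ε / 3) (by positivity)
    filter_upwards [h2] with J hJ
    filter_upwards [hJ, eventually_ge_atTop m] with n hn hmn hωD
    simp only [A, Set.mem_ofPred_eq, not_exists, not_and, not_lt]
    intro l hl
    have h3 := hm ((l : ℝ) / 2 ^ n) (grid_mem hl)
    have h4 := hn l hl
    simp only [Dm, Set.mem_iUnion, Set.mem_ofPred_eq, not_exists, not_and, not_le, exists_prop,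
      Finset.mem_range] at hωD
    have hgrid : ∀ k : ℕ, k < 2 ^ m → ∀ l' ≤ 2 ^ n,
        |∑ i ∈ Finset.range l', (∑ p ∈ Finset.range J ×ˢ Finset.range J,
          Φ ((k : ℝ) / 2 ^ m) p (tm n i) ω * (β p (tm n (i + 1)) ω - β p (tm n i) ω)) -
          N ((k : ℝ) / 2 ^ m) ((l' : ℝ) / 2 ^ n).toNNReal ω| ≤ ε / (6 * 2 ^ m) := by
      intro k hk l' hl'
      have h5 := hωD k hk ((l' : ℝ≥0) / 2 ^ n) (grid_le_one hl')
      have h6 : ((l' : ℝ) / 2 ^ n).toNNReal = (l' : ℝ≥0) / 2 ^ n := by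
        apply NNReal.coe_injective
        rw [Real.coe_toNNReal _ (by positivity)]
        push_cast
        rfl
      simp_rw [riemannSum_grid] at h5
      rw [Finset.sum_comm] at h5
      rw [h6]
      exact h5.le
    have h7 := combine hmn hl (fun k i => ∑ p ∈ Finset.range J ×ˢ Finset.range J,
        Φ ((k : ℝ) / 2 ^ m) p (tm n i) ω * (β p (tm n (i + 1)) ω - β p (tm n i) ω))
      (fun k t => N ((k : ℝ) / 2 ^ m) t.toNNReal ω) (fun k => W ω ((k : ℝ) / 2 ^ m))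
      (fun k hk => hW ω _ (grid_mem hk.le))
      (fun i => (∑ p ∈ Finset.range J ×ˢ Finset.range J,
        Φ (tpar m n i) p (tm n i) ω ^ 2) / 2 * (1 / 2 ^ n))
      (fun k => F ω (k / 2 ^ m) (min ((l : ℝ) / 2 ^ n) ((k + 1) / 2 ^ m)) -
          F ω (k / 2 ^ m) (min ((l : ℝ) / 2 ^ n) (k / 2 ^ m)) -
          ∫ σ in (min ((l : ℝ) / 2 ^ n) (k / 2 ^ m))..(min ((l : ℝ) / 2 ^ n) ((k + 1) / 2 ^ m)),
            D ω (k / 2 ^ m) σ)
      (Z (tm n l) ω) ?_ (ε := ε) ?_ hgrid ?_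
    · exact h7
    · intro k hk
      have hkm := grid_mem (n := m) hk.le
      have hkm1 := grid_mem (n := m) (Nat.succ_le_of_lt hk)
      have hlm := grid_mem hl
      push_cast at hkm1
      have hle : (k : ℝ) / 2 ^ m ≤ ((k : ℝ) + 1) / 2 ^ m := by gcongr; linarith
      have e1 : ∀ x : ℝ, x ∈ Set.Icc (0 : ℝ) 1 → 0 ≤ min ((l : ℝ) / 2 ^ n) x := fun x hx =>
        le_min hlm.1 hx.1
      have h8 := hN ω ((k : ℝ) / 2 ^ m) hkm (min ((l : ℝ) / 2 ^ n) ((k : ℝ) / 2 ^ m)).toNNReal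
        (min ((l : ℝ) / 2 ^ n) (((k : ℝ) + 1) / 2 ^ m)).toNNReal
        (Real.toNNReal_le_toNNReal (min_le_min le_rfl hle))
        (by
          rw [← Real.toNNReal_one]
          exact Real.toNNReal_le_toNNReal ((min_le_left _ _).trans hlm.2))
      rw [Real.coe_toNNReal _ (e1 _ hkm), Real.coe_toNNReal _ (e1 _ hkm1)] at h8
      push_cast
      exact h8
    · exact h4
    · rw [hZ ω (tm n l) (grid_le_one hl), tm_coe]
      exact h3
  -- selection
  have hsel : ∀ᵐ ω ∂P, ∀ᶠ m in atTop, ∀ᶠ J in atTop, ∀ᶠ n in atTop,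
      ω ∉ A m J n \ toMeasurable P (Dm m J n) := by
    refine Eventually.of_forall fun ω => ?_
    filter_upwards [hpath ω] with m hm
    filter_upwards [hm] with J hJ
    filter_upwards [hJ] with n hn
    rintro ⟨h1, h2⟩
    exact hn (fun h => h2 (subset_toMeasurable _ _ h)) h1
  have h9 := triple_select (P := P) (B := fun m J n => A m J n \ toMeasurable P (Dm m J n))
    (fun m J n => (hAm m J n).diff (measurableSet_toMeasurable _ _)) hsel
    (δ := ENNReal.ofReal (δ / 2)) (by simpa using hδ)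
  obtain ⟨m, hm⟩ := h9.exists
  obtain ⟨J, hJ1, hJ2⟩ := (hm.and (hDsmall m)).exists
  obtain ⟨n, hn1, hn2⟩ := (hJ1.and hJ2).exists
  refine ⟨m, J, n, ?_⟩
  have h10 : A m J n ⊆ (A m J n \ toMeasurable P (Dm m J n)) ∪ toMeasurable P (Dm m J n) := by
    intro ω hω
    by_cases h : ω ∈ toMeasurable P (Dm m J n)
    · exact Or.inr h
    · exact Or.inl ⟨hω, h⟩
  calc P (A m J n) ≤ P (A m J n \ toMeasurable P (Dm m J n)) + P (toMeasurable P (Dm m J n)) :=
        (measure_mono h10).trans (measure_union_le _ _)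
    _ ≤ ENNReal.ofReal (δ / 2) + ENNReal.ofReal (δ / 2) := by
        gcongr
        rw [measure_toMeasurable]
        exact hn2
    _ = ENNReal.ofReal δ := by
        rw [← ENNReal.ofReal_add (by positivity) (by positivity), add_halves]

end Pool.Agent.H5.W
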