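import Pool.Agent.H5.W.ExpStep
import Pool.Agent.H5.W.Select

/-!
The exponential identity, by discretisation and stopping.
-/

open MeasureTheory ProbabilityTheory Filter Topology
open scoped NNReal ENNReal

namespace Pool.Agent.H5.W

variable {Ω : Type*} {mΩ : MeasurableSpace Ω} {P : Measure Ω}

lemma tm_mono (n : ℕ) : Monotone (tm n) := by
  intro i j hij
  unfold tm
  gcongr

lemma tm_zero (n : ℕ) : tm n 0 = 0 := by simp [tm]

lemma tm_top (n : ℕ) : tm n (2 ^ n) = 1 := by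
  unfold tm
  push_cast
  exact div_self (by positivity)

lemma incr_law {β : ℕ × ℕ → ℝ≥0 → Ω → ℝ} {F : Filtration ℝ≥0 mΩ} (hβ : IsBrownianFamily P F β)
    (n i : ℕ) (p : ℕ × ℕ) :
    P.map (fun ω => β p (tm n (i + 1)) ω - β p (tm n i) ω) = gaussianReal 0 (1 / 2 ^ n) := by
  have h := ((hβ.isBrownian p).toIsPreBrownianReal.hasLaw_sub (tm n (i + 1)) (tm n i)).map_eq
  have e : nndist (tm n (i + 1)).1 (tm n i).1 = 1 / 2 ^ n := by
    apply NNReal.coe_injective
    rw [coe_nndist, Real.dist_eq]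
    have h1 : (tm n (i + 1)).1 - (tm n i).1 = 1 / 2 ^ n := by
      have h2 := tm_coe n (i + 1)
      have h3 := tm_coe n i
      change ((tm n (i + 1) : ℝ≥0) : ℝ) - ((tm n i : ℝ≥0) : ℝ) = 1 / 2 ^ n
      rw [h2, h3]
      push_cast
      ring
    rw [h1, abs_of_pos (by positivity)]
    push_cast
    rfl
  rw [e] at h
  exact h

/-- The exponential identity on a grid. -/
lemma disc_exp [IsProbabilityMeasure P] {β : ℕ × ℕ → ℝ≥0 → Ω → ℝ} {F : Filtration ℝ≥0 mΩ}
    (hβ : IsBrownianFamily P F β) (s : Finset (ℕ × ℕ)) (n : ℕ) {ψ : ℕ → ℕ × ℕ → Ω → ℝ}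
    (hψ : ∀ i p, Measurable[F (tm n i)] (ψ i p)) {G : Ω → ℝ≥0∞} (hG : Measurable[F 0] G)
    (l : ℕ) :
    ∫⁻ ω, G ω * ENNReal.ofReal (Real.exp (-(∑ i ∈ Finset.range l, ∑ p ∈ s,
        ψ i p ω * (β p (tm n (i + 1)) ω - β p (tm n i) ω)) -
      ∑ i ∈ Finset.range l, (∑ p ∈ s, ψ i p ω ^ 2) / 2 * (1 / 2 ^ n))) ∂P = ∫⁻ ω, G ω ∂P := by
  have hmono : Monotone fun i => (F (tm n i) : MeasurableSpace Ω) := fun i j hij =>
    F.mono (tm_mono n hij)
  have hle : ∀ i, (F (tm n i) : MeasurableSpace Ω) ≤ mΩ := fun i => F.le _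
  have hβm : ∀ i p, Measurable[F (tm n (i + 1))]
      (fun ω => β p (tm n (i + 1)) ω - β p (tm n i) ω) := by
    intro i p
    have h1 := hβ.adapted p (tm n (i + 1))
    have h2 := (hβ.adapted p (tm n i)).mono (hmono (Nat.le_succ i)) le_rfl
    exact h1.sub h2
  have key := exp_prod (ι := {p // p ∈ s}) (P := P) (F := fun i => F (tm n i)) hle hmono
    (D := fun i p ω => β p.1 (tm n (i + 1)) ω - β p.1 (tm n i) ω) (δ := 1 / 2 ^ n)
    (fun i p => hβm i p.1) (fun i p => incr_law hβ n i p.1)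
    (fun i => (hβ.indep_incr (tm n i) (tm n (i + 1)) (tm_mono n (Nat.le_succ i))).precomp
      Subtype.val_injective)
    (fun i => by
      refine indep_of_indep_of_le_left
        (hβ.indep_past (tm n i) (tm n (i + 1)) (tm_mono n (Nat.le_succ i))) ?_
      exact iSup_le fun p => le_iSup (fun p : ℕ × ℕ => MeasurableSpace.comap
        (fun ω => β p (tm n (i + 1)) ω - β p (tm n i) ω) inferInstance) p.1)
    (ψ := fun i p => ψ i p.1) (fun i p => hψ i p.1) (G := G)
    (by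
      have h0 : tm n 0 = 0 := tm_zero n
      change Measurable[F (tm n 0)] G
      rw [h0]
      exact hG) l
  rw [← key]
  apply lintegral_congr
  intro ω
  congr 4
  · refine congrArg _ (Finset.sum_congr rfl fun i _ => ?_)
    rw [Finset.sum_coe_sort s (fun p => ψ i p ω * (β p (tm n (i + 1)) ω - β p (tm n i) ω))]
  · rw [Finset.sum_mul, Finset.sum_div]
    refine Finset.sum_congr rfl fun i _ => ?_
    rw [Finset.sum_coe_sort s (fun p => ψ i p ω ^ 2)]
    push_cast
    ring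

lemma exists_cut (Q : ℕ → Prop) (hQ : ∀ i j, i ≤ j → Q j → Q i) (L : ℕ) :
    ∃ c ≤ L, (∀ i < L, (Q i ↔ i < c)) := by
  induction L with
  | zero => exact ⟨0, le_rfl, fun i hi => absurd hi (Nat.not_lt_zero _)⟩
  | succ L ih =>
    obtain ⟨c, hc, h⟩ := ih
    by_cases hL : Q L
    · exact ⟨L + 1, le_rfl, fun i hi => ⟨fun _ => hi, fun _ => hQ i L (by omega) hL⟩⟩
    · refine ⟨c, by omega, fun i hi => ?_⟩
      rcases Nat.lt_succ_iff_lt_or_eq.1 hi with h1 | h1
      · exact h i h1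
      · subst h1
        exact ⟨fun h2 => absurd h2 hL, fun h2 => by omega⟩

end Pool.Agent.H5.W
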