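import Pool.Agent.H5.W.ExpMain

/-!
The exponential identity: passage to the limit.
-/

open MeasureTheory ProbabilityTheory Filter Topology
open scoped NNReal ENNReal

namespace Pool.Agent.H5.W

variable {Ω : Type*} {mΩ : MeasurableSpace Ω} {P : Measure Ω}

/-- the event that the grid values exceed `R` -/
def BR (V : ℝ≥0 → Ω → ℝ) (R : ℝ) : Set Ω := {ω | ∃ n i : ℕ, i ≤ 2 ^ n ∧ R < V (tm n i) ω}

lemma BR_meas {V : ℝ≥0 → Ω → ℝ} (hV : ∀ t, Measurable (V t)) (R : ℝ) :
    MeasurableSet (BR V R) := by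
  have : BR V R = ⋃ n, ⋃ i, ⋃ (_ : i ≤ 2 ^ n), {ω | R < V (tm n i) ω} := by
    ext ω; simp [BR]
  rw [this]
  exact MeasurableSet.iUnion fun n => MeasurableSet.iUnion fun i => MeasurableSet.iUnion fun _ =>
    measurableSet_lt measurable_const (hV _)

lemma tm_le_one {n i : ℕ} (hi : i ≤ 2 ^ n) : tm n i ≤ 1 := grid_le_one hi

lemma exists_BR_small [IsProbabilityMeasure P] {V : ℝ≥0 → Ω → ℝ} (hV : ∀ t, Measurable (V t))
    (hVc : ∀ ω, Continuous fun t => V t ω) {κ : ℝ} (hκ : 0 < κ) :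
    ∃ R : ℝ, 0 ≤ R ∧ P (BR V R) ≤ ENNReal.ofReal κ := by
  have h0 : {ω | ∃ᶠ k : ℕ in atTop, ω ∈ BR V k} = ∅ := by
    ext ω
    simp only [Set.mem_ofPred_eq, Set.mem_empty_iff_false, iff_false, not_frequently]
    obtain ⟨b, hb⟩ := (isCompact_Icc (a := (0 : ℝ≥0)) (b := 1)).bddAbove_image
      (hVc ω).continuousOn
    obtain ⟨N, hN⟩ := exists_nat_ge b
    filter_upwards [eventually_ge_atTop N] with k hk
    rintro ⟨n, i, hi, h⟩
    have h1 : V (tm n i) ω ≤ b := hb ⟨tm n i, ⟨zero_le, tm_le_one hi⟩, rfl⟩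
    have h2 : (N : ℝ) ≤ k := by exact_mod_cast hk
    linarith
  have h1 := eventually_measure_lt (P := P) (B := fun k : ℕ => BR V k)
    (fun k => BR_meas hV k) (δ := ENNReal.ofReal κ) (by rw [h0]; simpa using hκ)
  obtain ⟨k, hk⟩ := h1.exists
  exact ⟨k, by positivity, hk.le⟩

section

variable [IsProbabilityMeasure P] {β : ℕ × ℕ → ℝ≥0 → Ω → ℝ} {F : Filtration ℝ≥0 mΩ}
  {Φ : ℝ → ℕ × ℕ → ℝ≥0 → Ω → ℝ} {V : ℝ≥0 → Ω → ℝ} {Y0 : Ω → ℝ} {Z : ℝ≥0 → Ω → ℝ}

/-- the two estimates for a good discretisation -/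
lemma two_bounds (hβ : IsBrownianFamily P F β) (hΦm : ∀ r p t, Measurable[F t] (Φ r p t))
    (hVm : ∀ t, Measurable[F t] (V t)) {C : ℝ} (hC : 0 ≤ C)
    (hY0 : Measurable[F 0] Y0) (hY0nn : ∀ ω, 0 ≤ Y0 ω) (hZm : ∀ t : ℝ≥0, Measurable (Z t))
    {C0 : ℝ} (hZb : ∀ t : ℝ≥0, t ≤ 1 → ∀ ω, -C0 ≤ Y0 ω + Z t ω) {R : ℝ} (hR : 0 ≤ R)
    {m J n : ℕ}
    (hb : ∀ ω, ∀ i < 2 ^ n, (∑ p ∈ Finset.range J ×ˢ Finset.range J,
      Φ (tpar m n i) p (tm n i) ω ^ 2) / 2 ≤ C * V (tm n i) ω)
    {ε η : ℝ} (hη : 0 < η) {A : Set Ω}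
    (hA : A = {ω | ∃ l ≤ 2 ^ n, ε < |dS β Φ m J n l ω + dB Φ m J n l ω - Z (tm n l) ω|}) :
    ∫⁻ ω, ENNReal.ofReal (Real.exp (-Y0 ω)) ∂P ≤
      ENNReal.ofReal (Real.exp ε) * ∫⁻ ω, ENNReal.ofReal (Real.exp (-(Y0 ω + Z 1 ω))) ∂P +
      (ENNReal.ofReal (Real.exp (ε + C0)) * P (BR V R) +
        (ENNReal.ofReal η⁻¹ * P A + ENNReal.ofReal η * ENNReal.ofReal (Real.exp (2 * (C * R))))) ∧
    ∫⁻ ω, ENNReal.ofReal (Real.exp (-(Y0 ω + Z 1 ω))) ∂P ≤
      ENNReal.ofReal (Real.exp C0) * P (BR V R) + (ENNReal.ofReal (Real.exp C0) * P A +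
        ENNReal.ofReal (Real.exp ε) * ∫⁻ ω, ENNReal.ofReal (Real.exp (-Y0 ω)) ∂P) := by
  classical
  have hVm' : ∀ t, Measurable (V t) := fun t => (hVm t).mono (F.le t) le_rfl
  have hY0' : Measurable Y0 := hY0.mono (F.le 0) le_rfl
  have hBm := BR_meas hVm' R
  set A' := toMeasurable P A with hA'
  have hAm : MeasurableSet A' := measurableSet_toMeasurable _ _
  have hPA : P A' = P A := measure_toMeasurable _
  have hsub : A ⊆ A' := subset_toMeasurable _ _
  set v : Ω → ℝ := fun ω => Real.exp (-(Y0 ω + Z 1 ω)) with hv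
  set v' : Ω → ℝ := fun ω => Real.exp (-(Y0 ω + sS β Φ V R m J n ω + sB Φ V R m J n ω)) with hv'
  have hvm : Measurable v := Real.measurable_exp.comp (hY0'.add (hZm 1)).neg
  have hpt : ∀ ω, ω ∉ A' → (ω ∉ BR V R → v' ω ≤ Real.exp ε * v ω ∧ v ω ≤ Real.exp ε * v' ω) ∧
      v' ω ≤ Real.exp (ε + C0) := by
    intro ω hω
    have hωA : ω ∉ A := fun h => hω (hsub h)
    rw [hA] at hωA
    simp only [Set.mem_ofPred_eq, not_exists, not_and, not_lt] at hωA
    obtain ⟨c, hc, e1, e2, h3⟩ := cut_eq β Φ V R m J n ω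
    have h4 := abs_le.1 (hωA c hc)
    constructor
    · intro hB
      have hall : ∀ i ≤ 2 ^ n, V (tm n i) ω ≤ R := by
        intro i hi
        by_contra hcon
        exact hB ⟨n, i, hi, not_le.1 hcon⟩
      have hce := h3 hall
      rw [hce] at e1 e2 h4
      rw [tm_top] at h4
      simp only [hv, hv']
      rw [e1, e2, ← Real.exp_add, ← Real.exp_add]
      exact ⟨Real.exp_le_exp.2 (by linarith [h4.1]), Real.exp_le_exp.2 (by linarith [h4.2])⟩
    · have h5 := hZb (tm n c) (tm_le_one hc) ω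
      simp only [hv']
      rw [e1, e2]
      exact Real.exp_le_exp.2 (by linarith [h4.1])
  have hvC : ∀ ω, v ω ≤ Real.exp C0 := by
    intro ω
    have := hZb 1 le_rfl ω
    exact Real.exp_le_exp.2 (by linarith)
  have hind : ∀ (s : Set Ω) (ω : Ω), s.indicator (fun _ => (1 : ℝ≥0∞)) ω
      = if ω ∈ s then 1 else 0 := fun s ω => by
    simp [Set.indicator_apply]
  constructor
  · rw [← stopped_exp hβ hΦm hVm hY0 R m J n]
    have hsq := stopped_exp_sq hβ hΦm hVm hY0nn hC hR m J n hb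
    have hle : ∀ ω, ENNReal.ofReal (v' ω) ≤ ENNReal.ofReal (Real.exp ε) * ENNReal.ofReal (v ω) +
        (ENNReal.ofReal (Real.exp (ε + C0)) * (BR V R).indicator (fun _ => 1) ω +
        (ENNReal.ofReal η⁻¹ * A'.indicator (fun _ => 1) ω +
          ENNReal.ofReal η * ENNReal.ofReal (v' ω ^ 2))) := by
      intro ω
      have hv0 : 0 ≤ v' ω := (Real.exp_pos _).le
      by_cases hωA : ω ∈ A'
      · have h1 : ENNReal.ofReal (v' ω) ≤ ENNReal.ofReal η⁻¹ * 1 +
            ENNReal.ofReal η * ENNReal.ofReal (v' ω ^ 2) := by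
          rw [mul_one, ← ENNReal.ofReal_mul hη.le, ← ENNReal.ofReal_add (by positivity)
            (by positivity)]
          apply ENNReal.ofReal_le_ofReal
          have h2 : 0 ≤ (η * v' ω - 1) ^ 2 := sq_nonneg _
          have h3 : v' ω ≤ (η ^ 2 * v' ω ^ 2 + 1) / η := by
            rw [le_div_iff₀ hη]
            nlinarith [mul_nonneg hη.le hv0]
          have h4 : (η ^ 2 * v' ω ^ 2 + 1) / η = η⁻¹ + η * v' ω ^ 2 := by field_simp; ring
          rwa [h4] at h3
        rw [hind A', if_pos hωA]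
        exact h1.trans (le_add_left (le_add_left le_rfl))
      · by_cases hωB : ω ∈ BR V R
        · rw [hind (BR V R), if_pos hωB, mul_one]
          exact (ENNReal.ofReal_le_ofReal (hpt ω hωA).2).trans
            (le_add_left (le_add_right le_rfl))
        · refine le_trans ?_ (le_add_right le_rfl)
          rw [← ENNReal.ofReal_mul (Real.exp_pos _).le]
          exact ENNReal.ofReal_le_ofReal ((hpt ω hωA).1 hωB).1
    calc (∫⁻ ω, ENNReal.ofReal (v' ω) ∂P) ≤ ∫⁻ ω, (ENNReal.ofReal (Real.exp ε) *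
          ENNReal.ofReal (v ω) +
        (ENNReal.ofReal (Real.exp (ε + C0)) * (BR V R).indicator (fun _ => 1) ω +
        (ENNReal.ofReal η⁻¹ * A'.indicator (fun _ => 1) ω +
          ENNReal.ofReal η * ENNReal.ofReal (v' ω ^ 2)))) ∂P := lintegral_mono hle
      _ ≤ _ := by
        rw [lintegral_add_left (hvm.ennreal_ofReal.const_mul _),
          lintegral_add_left ((measurable_const.indicator hBm).const_mul _),
          lintegral_add_left ((measurable_const.indicator hAm).const_mul _),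
          lintegral_const_mul' _ _ ENNReal.ofReal_ne_top,
          lintegral_const_mul' _ _ ENNReal.ofReal_ne_top,
          lintegral_const_mul' _ _ ENNReal.ofReal_ne_top,
          lintegral_const_mul' _ _ ENNReal.ofReal_ne_top,
          lintegral_indicator_const hBm, lintegral_indicator_const hAm, one_mul, one_mul, hPA]
        gcongr
  · rw [← stopped_exp hβ hΦm hVm hY0 R m J n]
    have hle : ∀ ω, ENNReal.ofReal (v ω) ≤
        ENNReal.ofReal (Real.exp C0) * (BR V R).indicator (fun _ => 1) ω +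
        (ENNReal.ofReal (Real.exp C0) * A'.indicator (fun _ => 1) ω +
          ENNReal.ofReal (Real.exp ε) * ENNReal.ofReal (v' ω)) := by
      intro ω
      by_cases hωA : ω ∈ A'
      · rw [hind A', if_pos hωA, mul_one]
        exact (ENNReal.ofReal_le_ofReal (hvC ω)).trans (le_add_left (le_add_right le_rfl))
      · by_cases hωB : ω ∈ BR V R
        · rw [hind (BR V R), if_pos hωB, mul_one]
          exact (ENNReal.ofReal_le_ofReal (hvC ω)).trans (le_add_right le_rfl)
        · refine le_trans ?_ (le_add_left (le_add_left le_rfl))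
          rw [← ENNReal.ofReal_mul (Real.exp_pos _).le]
          exact ENNReal.ofReal_le_ofReal ((hpt ω hωA).1 hωB).2
    calc (∫⁻ ω, ENNReal.ofReal (v ω) ∂P) ≤ ∫⁻ ω,
        (ENNReal.ofReal (Real.exp C0) * (BR V R).indicator (fun _ => 1) ω +
        (ENNReal.ofReal (Real.exp C0) * A'.indicator (fun _ => 1) ω +
          ENNReal.ofReal (Real.exp ε) * ENNReal.ofReal (v' ω))) ∂P := lintegral_mono hle
      _ ≤ _ := by
        rw [lintegral_add_left ((measurable_const.indicator hBm).const_mul _),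
          lintegral_add_left ((measurable_const.indicator hAm).const_mul _),
          lintegral_const_mul' _ _ ENNReal.ofReal_ne_top,
          lintegral_const_mul' _ _ ENNReal.ofReal_ne_top,
          lintegral_const_mul' _ _ ENNReal.ofReal_ne_top,
          lintegral_indicator_const hBm, lintegral_indicator_const hAm, one_mul, one_mul, hPA]

theorem exp_identity (hβ : IsBrownianFamily P F β) (hΦm : ∀ r p t, Measurable[F t] (Φ r p t))
    (hVm : ∀ t, Measurable[F t] (V t)) (hVc : ∀ ω, Continuous fun t => V t ω)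
    {C : ℝ} (hC : 0 ≤ C)
    (hb : ∀ ω, ∀ m J n, ∀ i < 2 ^ n, (∑ p ∈ Finset.range J ×ˢ Finset.range J,
      Φ (tpar m n i) p (tm n i) ω ^ 2) / 2 ≤ C * V (tm n i) ω)
    (hY0 : Measurable[F 0] Y0) (hY0nn : ∀ ω, 0 ≤ Y0 ω) (hZm : ∀ t : ℝ≥0, Measurable (Z t))
    {C0 : ℝ} (hZb : ∀ t : ℝ≥0, t ≤ 1 → ∀ ω, -C0 ≤ Y0 ω + Z t ω)
    (hsel : ∀ ε : ℝ, 0 < ε → ∀ δ : ℝ, 0 < δ → ∃ m J n : ℕ,
      P {ω | ∃ l ≤ 2 ^ n, ε < |dS β Φ m J n l ω + dB Φ m J n l ω - Z (tm n l) ω|}
        ≤ ENNReal.ofReal δ) :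
    ∫⁻ ω, ENNReal.ofReal (Real.exp (-(Y0 ω + Z 1 ω))) ∂P =
      ∫⁻ ω, ENNReal.ofReal (Real.exp (-Y0 ω)) ∂P := by
  have hVm' : ∀ t, Measurable (V t) := fun t => (hVm t).mono (F.le t) le_rfl
  set x := ∫⁻ ω, ENNReal.ofReal (Real.exp (-(Y0 ω + Z 1 ω))) ∂P with hx
  set y := ∫⁻ ω, ENNReal.ofReal (Real.exp (-Y0 ω)) ∂P with hy
  have hbound : ∀ κ : ℝ, 0 < κ →
      y ≤ ENNReal.ofReal (Real.exp κ) * x + ENNReal.ofReal (Real.exp (κ + C0) * κ + 2 * κ) ∧
      x ≤ ENNReal.ofReal (Real.exp κ) * y + ENNReal.ofReal (2 * (Real.exp C0 * κ)) := by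
    intro κ hκ
    obtain ⟨R, hR, hPR⟩ := exists_BR_small (P := P) hVm' hVc hκ
    set η : ℝ := κ / Real.exp (2 * (C * R)) with hη
    have hηpos : 0 < η := div_pos hκ (Real.exp_pos _)
    obtain ⟨m, J, n, hPA⟩ := hsel κ hκ (min (κ * η) κ) (lt_min (by positivity) hκ)
    obtain ⟨h1, h2⟩ := two_bounds hβ hΦm hVm hC hY0 hY0nn hZm hZb hR (m := m) (J := J) (n := n)
      (fun ω => hb ω m J n) (ε := κ) hηpos rfl
    constructor
    · refine h1.trans ?_
      gcongr
      have e1 : ENNReal.ofReal (Real.exp (κ + C0)) * P (BR V R) ≤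
          ENNReal.ofReal (Real.exp (κ + C0) * κ) := by
        rw [ENNReal.ofReal_mul (Real.exp_pos _).le]
        gcongr
      have e2 : ENNReal.ofReal η⁻¹ * P {ω | ∃ l ≤ 2 ^ n,
          κ < |dS β Φ m J n l ω + dB Φ m J n l ω - Z (tm n l) ω|} ≤ ENNReal.ofReal κ := by
        calc _ ≤ ENNReal.ofReal η⁻¹ * ENNReal.ofReal (κ * η) := by
              gcongr
              exact hPA.trans (ENNReal.ofReal_le_ofReal (min_le_left _ _))
          _ = ENNReal.ofReal κ := by
              rw [← ENNReal.ofReal_mul (by positivity)]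
              congr 1
              field_simp
      have e3 : ENNReal.ofReal η * ENNReal.ofReal (Real.exp (2 * (C * R))) =
          ENNReal.ofReal κ := by
        rw [← ENNReal.ofReal_mul hηpos.le]
        congr 1
        rw [hη]
        field_simp
      calc _ ≤ ENNReal.ofReal (Real.exp (κ + C0) * κ) +
            (ENNReal.ofReal κ + ENNReal.ofReal κ) := add_le_add e1 (add_le_add e2 e3.le)
        _ = ENNReal.ofReal (Real.exp (κ + C0) * κ + 2 * κ) := by
            rw [← ENNReal.ofReal_add hκ.le hκ.le, ← ENNReal.ofReal_add (by positivity)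
              (by positivity)]
            congr 1
            ring
    · refine h2.trans ?_
      have e1 : ENNReal.ofReal (Real.exp C0) * P (BR V R) ≤
          ENNReal.ofReal (Real.exp C0 * κ) := by
        rw [ENNReal.ofReal_mul (Real.exp_pos _).le]
        gcongr
      have e2 : ENNReal.ofReal (Real.exp C0) * P {ω | ∃ l ≤ 2 ^ n,
          κ < |dS β Φ m J n l ω + dB Φ m J n l ω - Z (tm n l) ω|} ≤
          ENNReal.ofReal (Real.exp C0 * κ) := by
        rw [ENNReal.ofReal_mul (Real.exp_pos _).le]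
        gcongr
        exact hPA.trans (ENNReal.ofReal_le_ofReal (min_le_right _ _))
      calc _ ≤ ENNReal.ofReal (Real.exp C0 * κ) + (ENNReal.ofReal (Real.exp C0 * κ) +
            ENNReal.ofReal (Real.exp κ) * y) := add_le_add e1 (add_le_add e2 le_rfl)
        _ = ENNReal.ofReal (Real.exp κ) * y + ENNReal.ofReal (2 * (Real.exp C0 * κ)) := by
            rw [two_mul, ENNReal.ofReal_add (by positivity) (by positivity)]
            ring
  have hxtop : x ≠ ⊤ := by
    have : x ≤ ENNReal.ofReal (Real.exp C0) := by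
      calc x ≤ ∫⁻ _, ENNReal.ofReal (Real.exp C0) ∂P := by
            apply lintegral_mono
            intro ω
            apply ENNReal.ofReal_le_ofReal
            apply Real.exp_le_exp.2
            linarith [hZb 1 le_rfl ω]
        _ = ENNReal.ofReal (Real.exp C0) := by simp
    exact ne_top_of_le_ne_top ENNReal.ofReal_ne_top this
  have hytop : y ≠ ⊤ := by
    have : y ≤ 1 := by
      calc y ≤ ∫⁻ _, 1 ∂P := by
            apply lintegral_mono
            intro ω
            dsimp only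
            rw [← ENNReal.ofReal_one]
            apply ENNReal.ofReal_le_ofReal
            rw [← Real.exp_zero]
            exact Real.exp_le_exp.2 (by linarith [hY0nn ω])
        _ = 1 := by simp
    exact ne_top_of_le_ne_top ENNReal.one_ne_top this
  have ht : ∀ (z : ℝ≥0∞) (g : ℝ → ℝ), Continuous g → g 0 = 0 → z ≠ ⊤ →
      Tendsto (fun κ : ℝ => ENNReal.ofReal (Real.exp κ) * z + ENNReal.ofReal (g κ)) (𝓝[>] 0)
        (𝓝 z) := by
    intro z g hg hg0 hz
    have h1 : Tendsto (fun κ : ℝ => ENNReal.ofReal (Real.exp κ)) (𝓝[>] 0) (𝓝 1) := by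
      have : Tendsto (fun κ : ℝ => ENNReal.ofReal (Real.exp κ)) (𝓝 0)
          (𝓝 (ENNReal.ofReal (Real.exp 0))) :=
        (ENNReal.continuous_ofReal.comp Real.continuous_exp).tendsto 0
      rw [Real.exp_zero, ENNReal.ofReal_one] at this
      exact this.mono_left nhdsWithin_le_nhds
    have h2 : Tendsto (fun κ : ℝ => ENNReal.ofReal (g κ)) (𝓝[>] 0) (𝓝 0) := by
      have : Tendsto (fun κ : ℝ => ENNReal.ofReal (g κ)) (𝓝 0)
          (𝓝 (ENNReal.ofReal (g 0))) :=
        (ENNReal.continuous_ofReal.comp hg).tendsto 0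
      rw [hg0, ENNReal.ofReal_zero] at this
      exact this.mono_left nhdsWithin_le_nhds
    have h3 := (ENNReal.Tendsto.mul_const h1 (Or.inr hz)).add h2
    rwa [one_mul, add_zero] at h3
  apply le_antisymm
  · refine ge_of_tendsto (ht y (fun κ => 2 * (Real.exp C0 * κ)) (by fun_prop) (by simp) hytop) ?_
    filter_upwards [self_mem_nhdsWithin] with κ hκ
    exact (hbound κ hκ).2
  · refine ge_of_tendsto (ht x (fun κ => Real.exp (κ + C0) * κ + 2 * κ) (by fun_prop) (by simp)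
      hxtop) ?_
    filter_upwards [self_mem_nhdsWithin] with κ hκ
    exact (hbound κ hκ).1

end

end Pool.Agent.H5.W
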