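import Pool.Agent.H5.W.ExpId

/-!
The exponential identity: main estimate and passage to the limit.
-/

open MeasureTheory ProbabilityTheory Filter Topology
open scoped NNReal ENNReal

namespace Pool.Agent.H5.W

variable {Ω : Type*} {mΩ : MeasurableSpace Ω} {P : Measure Ω}

open Classical in
/-- stopping indicator -/
noncomputable def stopI (V : ℝ≥0 → Ω → ℝ) (R : ℝ) (n i : ℕ) (ω : Ω) : ℝ :=
  if ∀ j ≤ i, V (tm n j) ω ≤ R then 1 else 0

lemma stopI_meas {F : Filtration ℝ≥0 mΩ} {V : ℝ≥0 → Ω → ℝ} (hV : ∀ t, Measurable[F t] (V t))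
    (R : ℝ) (n i : ℕ) : Measurable[F (tm n i)] (stopI V R n i) := by
  classical
  unfold stopI
  refine Measurable.ite ?_ measurable_const measurable_const
  have : {ω | ∀ j ≤ i, V (tm n j) ω ≤ R} = ⋂ j, ⋂ (_ : j ≤ i), {ω | V (tm n j) ω ≤ R} := by
    ext ω; simp
  rw [this]
  refine MeasurableSet.iInter fun j => MeasurableSet.iInter fun hj => ?_
  have h1 := (hV (tm n j)).mono (F.mono (tm_mono n hj)) le_rfl
  exact measurableSet_le h1 measurable_const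

/-- stopped discrete integral -/
noncomputable def sS (β : ℕ × ℕ → ℝ≥0 → Ω → ℝ) (Φ : ℝ → ℕ × ℕ → ℝ≥0 → Ω → ℝ)
    (V : ℝ≥0 → Ω → ℝ) (R : ℝ) (m J n : ℕ) (ω : Ω) : ℝ :=
  ∑ i ∈ Finset.range (2 ^ n), ∑ p ∈ Finset.range J ×ˢ Finset.range J,
    (stopI V R n i ω * Φ (tpar m n i) p (tm n i) ω) * (β p (tm n (i + 1)) ω - β p (tm n i) ω)

/-- half of the stopped discrete bracket -/
noncomputable def sB (Φ : ℝ → ℕ × ℕ → ℝ≥0 → Ω → ℝ)
    (V : ℝ≥0 → Ω → ℝ) (R : ℝ) (m J n : ℕ) (ω : Ω) : ℝ :=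
  ∑ i ∈ Finset.range (2 ^ n), (∑ p ∈ Finset.range J ×ˢ Finset.range J,
    (stopI V R n i ω * Φ (tpar m n i) p (tm n i) ω) ^ 2) / 2 * (1 / 2 ^ n)

lemma cut_eq (β : ℕ × ℕ → ℝ≥0 → Ω → ℝ) (Φ : ℝ → ℕ × ℕ → ℝ≥0 → Ω → ℝ)
    (V : ℝ≥0 → Ω → ℝ) (R : ℝ) (m J n : ℕ) (ω : Ω) :
    ∃ c ≤ 2 ^ n, sS β Φ V R m J n ω = dS β Φ m J n c ω ∧ sB Φ V R m J n ω = dB Φ m J n c ω ∧
      ((∀ i ≤ 2 ^ n, V (tm n i) ω ≤ R) → c = 2 ^ n) := by
  classical
  obtain ⟨c, hc, h⟩ := exists_cut (fun i => ∀ j ≤ i, V (tm n j) ω ≤ R)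
    (fun i j hij hj k hk => hj k (hk.trans hij)) (2 ^ n)
  have h1 : ∀ i < 2 ^ n, i < c → stopI V R n i ω = 1 := by
    intro i hi hic
    unfold stopI
    rw [if_pos ((h i hi).2 hic)]
  have h0 : ∀ i < 2 ^ n, ¬ i < c → stopI V R n i ω = 0 := by
    intro i hi hic
    unfold stopI
    rw [if_neg (fun hq => hic ((h i hi).1 hq))]
  have hsub : Finset.range c ⊆ Finset.range (2 ^ n) := Finset.range_mono hc
  refine ⟨c, hc, ?_, ?_, ?_⟩
  · unfold sS dS
    rw [← Finset.sum_subset hsub]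
    · refine Finset.sum_congr rfl fun i hi => Finset.sum_congr rfl fun p _ => ?_
      rw [h1 i (Finset.mem_range.1 (hsub hi)) (Finset.mem_range.1 hi), one_mul]
    · intro i hi hic
      refine Finset.sum_eq_zero fun p _ => ?_
      rw [h0 i (Finset.mem_range.1 hi) (fun h => hic (Finset.mem_range.2 h)), zero_mul, zero_mul]
  · unfold sB dB
    rw [← Finset.sum_subset hsub]
    · refine Finset.sum_congr rfl fun i hi => ?_
      rw [h1 i (Finset.mem_range.1 (hsub hi)) (Finset.mem_range.1 hi)]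
      simp only [one_mul]
    · intro i hi hic
      rw [h0 i (Finset.mem_range.1 hi) (fun h => hic (Finset.mem_range.2 h))]
      simp
  · intro hall
    by_contra hne
    have hlt : c < 2 ^ n := lt_of_le_of_ne hc hne
    have : c < c := (h c hlt).1 fun j hj => hall j (hj.trans hc)
    exact lt_irrefl _ this

lemma sB_le {Φ : ℝ → ℕ × ℕ → ℝ≥0 → Ω → ℝ} {V : ℝ≥0 → Ω → ℝ} {C R : ℝ}
    (hCR : 0 ≤ C * R) (hC : 0 ≤ C) {m J n : ℕ} {ω : Ω}
    (hb : ∀ i < 2 ^ n, (∑ p ∈ Finset.range J ×ˢ Finset.range J,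
      Φ (tpar m n i) p (tm n i) ω ^ 2) / 2 ≤ C * V (tm n i) ω) :
    sB Φ V R m J n ω ≤ C * R := by
  classical
  unfold sB
  have hterm : ∀ i ∈ Finset.range (2 ^ n), (∑ p ∈ Finset.range J ×ˢ Finset.range J,
    (stopI V R n i ω * Φ (tpar m n i) p (tm n i) ω) ^ 2) / 2 * (1 / 2 ^ n) ≤
      C * R * (1 / 2 ^ n) := by
    intro i hi
    gcongr
    by_cases hq : ∀ j ≤ i, V (tm n j) ω ≤ R
    · have : stopI V R n i ω = 1 := by unfold stopI; rw [if_pos hq]
      rw [this]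
      simp only [one_mul]
      refine (hb i (Finset.mem_range.1 hi)).trans ?_
      gcongr
      exact hq i le_rfl
    · have : stopI V R n i ω = 0 := by unfold stopI; rw [if_neg hq]
      rw [this]
      simpa using hCR
  refine (Finset.sum_le_sum hterm).trans ?_
  rw [Finset.sum_const, Finset.card_range, nsmul_eq_mul]
  push_cast
  apply le_of_eq
  field_simp

lemma sB_nonneg (Φ : ℝ → ℕ × ℕ → ℝ≥0 → Ω → ℝ) (V : ℝ≥0 → Ω → ℝ) (R : ℝ) (m J n : ℕ) (ω : Ω) :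
    0 ≤ sB Φ V R m J n ω := by
  unfold sB
  positivity

section

variable [IsProbabilityMeasure P] {β : ℕ × ℕ → ℝ≥0 → Ω → ℝ} {F : Filtration ℝ≥0 mΩ}
  {Φ : ℝ → ℕ × ℕ → ℝ≥0 → Ω → ℝ} {V : ℝ≥0 → Ω → ℝ} {Y0 : Ω → ℝ}

lemma stopped_exp (hβ : IsBrownianFamily P F β) (hΦm : ∀ r p t, Measurable[F t] (Φ r p t))
    (hVm : ∀ t, Measurable[F t] (V t)) (hY0 : Measurable[F 0] Y0) (R : ℝ) (m J n : ℕ) :
    ∫⁻ ω, ENNReal.ofReal (Real.exp (-(Y0 ω + sS β Φ V R m J n ω + sB Φ V R m J n ω))) ∂P =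
      ∫⁻ ω, ENNReal.ofReal (Real.exp (-Y0 ω)) ∂P := by
  have hG : Measurable[F 0] fun ω => ENNReal.ofReal (Real.exp (-Y0 ω)) :=
    (Real.measurable_exp.comp hY0.neg).ennreal_ofReal
  rw [← disc_exp hβ (Finset.range J ×ˢ Finset.range J) n
    (ψ := fun i p ω => stopI V R n i ω * Φ (tpar m n i) p (tm n i) ω)
    (fun i p => (stopI_meas hVm R n i).mul (hΦm _ p _)) hG (2 ^ n)]
  apply lintegral_congr
  intro ω
  rw [← ENNReal.ofReal_mul (Real.exp_pos _).le, ← Real.exp_add]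
  congr 2
  unfold sS sB
  ring

lemma stopped_exp_sq (hβ : IsBrownianFamily P F β) (hΦm : ∀ r p t, Measurable[F t] (Φ r p t))
    (hVm : ∀ t, Measurable[F t] (V t)) (hY0nn : ∀ ω, 0 ≤ Y0 ω) {C R : ℝ} (hC : 0 ≤ C) (hR : 0 ≤ R)
    (m J n : ℕ) (hb : ∀ ω, ∀ i < 2 ^ n, (∑ p ∈ Finset.range J ×ˢ Finset.range J,
      Φ (tpar m n i) p (tm n i) ω ^ 2) / 2 ≤ C * V (tm n i) ω) :
    ∫⁻ ω, ENNReal.ofReal
      (Real.exp (-(Y0 ω + sS β Φ V R m J n ω + sB Φ V R m J n ω)) ^ 2) ∂P ≤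
      ENNReal.ofReal (Real.exp (2 * (C * R))) := by
  have h1 := disc_exp hβ (Finset.range J ×ˢ Finset.range J) n
    (ψ := fun i p ω => 2 * (stopI V R n i ω * Φ (tpar m n i) p (tm n i) ω))
    (fun i p => ((stopI_meas hVm R n i).mul (hΦm _ p _)).const_mul 2)
    (G := fun _ => 1) measurable_const (2 ^ n)
  rw [lintegral_one, measure_univ] at h1
  calc (∫⁻ ω, ENNReal.ofReal
          (Real.exp (-(Y0 ω + sS β Φ V R m J n ω + sB Φ V R m J n ω)) ^ 2) ∂P)
      ≤ ∫⁻ ω, ENNReal.ofReal (Real.exp (2 * (C * R))) * (1 * ENNReal.ofReal (Real.exp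
        (-(∑ i ∈ Finset.range (2 ^ n), ∑ p ∈ Finset.range J ×ˢ Finset.range J,
          2 * (stopI V R n i ω * Φ (tpar m n i) p (tm n i) ω) *
            (β p (tm n (i + 1)) ω - β p (tm n i) ω)) -
        ∑ i ∈ Finset.range (2 ^ n), (∑ p ∈ Finset.range J ×ˢ Finset.range J,
          (2 * (stopI V R n i ω * Φ (tpar m n i) p (tm n i) ω)) ^ 2) / 2 * (1 / 2 ^ n)))) ∂P := by
        apply lintegral_mono
        intro ω
        dsimp only
        rw [one_mul, ← ENNReal.ofReal_mul (Real.exp_pos _).le, ← Real.exp_add, ← Real.exp_nat_mul]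
        apply ENNReal.ofReal_le_ofReal
        apply Real.exp_le_exp.2
        have e1 : ∑ i ∈ Finset.range (2 ^ n), ∑ p ∈ Finset.range J ×ˢ Finset.range J,
          2 * (stopI V R n i ω * Φ (tpar m n i) p (tm n i) ω) *
            (β p (tm n (i + 1)) ω - β p (tm n i) ω) = 2 * sS β Φ V R m J n ω := by
          unfold sS
          rw [Finset.mul_sum]
          refine Finset.sum_congr rfl fun i _ => ?_
          rw [Finset.mul_sum]
          refine Finset.sum_congr rfl fun p _ => ?_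
          ring
        have e2 : ∑ i ∈ Finset.range (2 ^ n), (∑ p ∈ Finset.range J ×ˢ Finset.range J,
          (2 * (stopI V R n i ω * Φ (tpar m n i) p (tm n i) ω)) ^ 2) / 2 * (1 / 2 ^ n)
            = 4 * sB Φ V R m J n ω := by
          unfold sB
          rw [Finset.mul_sum]
          refine Finset.sum_congr rfl fun i _ => ?_
          rw [Finset.sum_div, Finset.sum_div, Finset.sum_mul, Finset.sum_mul, Finset.mul_sum]
          refine Finset.sum_congr rfl fun p _ => ?_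
          ring
        rw [e1, e2]
        have h2 := sB_le (R := R) (mul_nonneg hC hR) hC (hb ω)
        have h3 := hY0nn ω
        push_cast
        linarith
    _ = ENNReal.ofReal (Real.exp (2 * (C * R))) := by
        rw [lintegral_const_mul' _ _ ENNReal.ofReal_ne_top, h1, mul_one]

end

end Pool.Agent.H5.W
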