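import Mathlib

/-!
The exact exponential identity for one conditionally Gaussian step, and for finite products.
-/

open MeasureTheory ProbabilityTheory Filter Topology
open scoped NNReal ENNReal

namespace Pool.Agent.H5.W

/-- Exponential moment of a Gaussian combination, lintegral form. -/
lemma lintegral_exp_gauss {Ω ι : Type*} [Fintype ι] {mΩ : MeasurableSpace Ω} {P : Measure Ω}
    [IsProbabilityMeasure P] {D : ι → Ω → ℝ} {δ : ℝ≥0}
    (hD : ∀ p, Measurable (D p)) (hlaw : ∀ p, P.map (D p) = gaussianReal 0 δ)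
    (hind : iIndepFun D P) (a : ι → ℝ) :
    ∫⁻ ω, ENNReal.ofReal (Real.exp (-(∑ p, a p * D p ω) - (∑ p, a p ^ 2) * δ / 2)) ∂P = 1 := by
  have h1 : ∀ ω, ENNReal.ofReal (Real.exp (-(∑ p, a p * D p ω) - (∑ p, a p ^ 2) * δ / 2))
      = ∏ p, ENNReal.ofReal (Real.exp (-(a p * D p ω) - a p ^ 2 * δ / 2)) := by
    intro ω
    rw [← ENNReal.ofReal_prod_of_nonneg (fun _ _ => (Real.exp_pos _).le), ← Real.exp_sum]
    congr 2
    rw [Finset.sum_sub_distrib, Finset.sum_neg_distrib, Finset.sum_mul, Finset.sum_div]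
  simp_rw [h1]
  have hm : ∀ p, Measurable fun ω => ENNReal.ofReal (Real.exp (-(a p * D p ω) - a p ^ 2 * δ / 2)) := by
    intro p
    have := hD p
    fun_prop
  have hind' : iIndepFun (fun p ω => ENNReal.ofReal (Real.exp (-(a p * D p ω) - a p ^ 2 * δ / 2))) P := by
    exact hind.comp (fun p x => ENNReal.ofReal (Real.exp (-(a p * x) - a p ^ 2 * δ / 2)))
      (fun p => by fun_prop)
  rw [lintegral_prod_eq_prod_lintegral_of_indepFun Finset.univ _ hind' hm]
  apply Finset.prod_eq_one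
  intro p _
  have hmgf := mgf_gaussianReal (hlaw p) (-(a p))
  have hint : Integrable (fun ω => Real.exp (-(a p) * D p ω)) P := by
    have := integrable_exp_mul_gaussianReal (μ := 0) (v := δ) (-(a p))
    rw [← hlaw p] at this
    exact (integrable_map_measure (by fun_prop) (hD p).aemeasurable).1 this
  have h2 : ∀ ω, Real.exp (-(a p * D p ω) - a p ^ 2 * δ / 2)
      = Real.exp (-(a p ^ 2 * δ / 2)) * Real.exp (-(a p) * D p ω) := by
    intro ω
    rw [← Real.exp_add]
    congr 1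
    ring
  rw [← ofReal_integral_eq_lintegral_ofReal]
  · simp_rw [h2]
    rw [integral_const_mul]
    have : ∫ ω, Real.exp (-(a p) * D p ω) ∂P = mgf (D p) P (-(a p)) := rfl
    rw [this, hmgf, ← Real.exp_add]
    rw [show -(a p ^ 2 * (δ : ℝ) / 2) + (0 * -a p + δ * (-a p) ^ 2 / 2) = 0 by ring]
    simp
  · simp_rw [h2]
    exact hint.const_mul _
  · exact Eventually.of_forall fun _ => (Real.exp_pos _).le

/-- One step of the exponential identity. -/
lemma exp_step {Ω ι : Type*} [Fintype ι] {m mΩ : MeasurableSpace Ω} {P : Measure Ω}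
    [IsProbabilityMeasure P] (hm : m ≤ mΩ) {D : ι → Ω → ℝ} {δ : ℝ≥0}
    (hD : ∀ p, Measurable (D p)) (hlaw : ∀ p, P.map (D p) = gaussianReal 0 δ)
    (hind : iIndepFun D P)
    (hF : Indep (⨆ p, MeasurableSpace.comap (D p) inferInstance) m P)
    {ψ : ι → Ω → ℝ} (hψ : ∀ p, Measurable[m] (ψ p)) {G : Ω → ℝ≥0∞} (hG : Measurable[m] G) :
    ∫⁻ ω, G ω * ENNReal.ofReal
      (Real.exp (-(∑ p, ψ p ω * D p ω) - (∑ p, ψ p ω ^ 2) * δ / 2)) ∂P = ∫⁻ ω, G ω ∂P := by
  let Y : Ω → (ι → ℝ) × ℝ≥0∞ := fun ω => (fun p => ψ p ω, G ω)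
  let Z : Ω → ι → ℝ := fun ω p => D p ω
  have hYm : Measurable[m] Y := by
    exact @Measurable.prodMk _ m _ _ _ _ _ _ (@measurable_pi_lambda _ _ _ m _ _ hψ) hG
  have hY : Measurable Y := hYm.mono hm le_rfl
  have hZ : Measurable Z := measurable_pi_lambda _ hD
  have hYZ : IndepFun Y Z P := by
    rw [IndepFun_iff_Indep]
    refine indep_of_indep_of_le_left (indep_of_indep_of_le_right hF.symm ?_) ?_
    · intro s hs
      obtain ⟨t, ht, rfl⟩ := hs
      have : Measurable[⨆ p, MeasurableSpace.comap (D p) inferInstance] Z := by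
        refine @measurable_pi_lambda _ _ _ (⨆ p, MeasurableSpace.comap (D p) inferInstance) _ _
          fun p => ?_
        have h1 : Measurable[MeasurableSpace.comap (D p) inferInstance] (D p) :=
          comap_measurable _
        exact h1.mono (le_iSup (fun p => MeasurableSpace.comap (D p) inferInstance) p) le_rfl
      exact this ht
    · intro s hs
      obtain ⟨t, ht, rfl⟩ := hs
      exact hYm ht
  let f : ((ι → ℝ) × ℝ≥0∞) × (ι → ℝ) → ℝ≥0∞ := fun x =>
    x.1.2 * ENNReal.ofReal (Real.exp (-(∑ p, x.1.1 p * x.2 p) - (∑ p, x.1.1 p ^ 2) * δ / 2))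
  have hf : Measurable f := by
    have h1 : Measurable fun x : ((ι → ℝ) × ℝ≥0∞) × (ι → ℝ) =>
        -(∑ p, x.1.1 p * x.2 p) - (∑ p, x.1.1 p ^ 2) * δ / 2 := by
      have h2 : ∀ p, Measurable fun x : ((ι → ℝ) × ℝ≥0∞) × (ι → ℝ) => x.1.1 p := fun p =>
        (measurable_pi_apply p).comp (measurable_fst.comp measurable_fst)
      have h3 : ∀ p, Measurable fun x : ((ι → ℝ) × ℝ≥0∞) × (ι → ℝ) => x.2 p := fun p =>
        (measurable_pi_apply p).comp measurable_snd
      refine Measurable.sub (Measurable.neg ?_) (Measurable.div_const (Measurable.mul_const ?_ _) _)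
      · exact Finset.measurable_sum _ fun p _ => (h2 p).mul (h3 p)
      · exact Finset.measurable_sum _ fun p _ => (h2 p).pow_const 2
    exact (measurable_snd.comp measurable_fst).mul (Measurable.ennreal_ofReal h1.exp)
  have h0 : ∫⁻ ω, G ω * ENNReal.ofReal
      (Real.exp (-(∑ p, ψ p ω * D p ω) - (∑ p, ψ p ω ^ 2) * δ / 2)) ∂P
      = ∫⁻ ω, f (Y ω, Z ω) ∂P := rfl
  rw [h0]
  calc ∫⁻ ω, f (Y ω, Z ω) ∂P = ∫⁻ x, f x ∂(P.map (fun ω => (Y ω, Z ω))) := by
        rw [lintegral_map hf (hY.prodMk hZ)]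
    _ = ∫⁻ x, f x ∂((P.map Y).prod (P.map Z)) := by
        rw [(indepFun_iff_map_prod_eq_prod_map_map hY.aemeasurable hZ.aemeasurable).1 hYZ]
    _ = ∫⁻ y, ∫⁻ z, f (y, z) ∂(P.map Z) ∂(P.map Y) := by
        have : IsProbabilityMeasure (P.map Z) := Measure.isProbabilityMeasure_map hZ.aemeasurable
        rw [lintegral_prod _ hf.aemeasurable]
    _ = ∫⁻ y, y.2 ∂(P.map Y) := by
        apply lintegral_congr
        intro y
        have h2 : Measurable fun z => f (y, z) := hf.comp measurable_prodMk_left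
        rw [lintegral_map h2 hZ]
        have h3 : Measurable fun ω => ENNReal.ofReal
            (Real.exp (-(∑ p, y.1 p * D p ω) - (∑ p, y.1 p ^ 2) * δ / 2)) := by
          refine Measurable.ennreal_ofReal (Measurable.exp ?_)
          refine Measurable.sub_const (Measurable.neg ?_) _
          exact Finset.measurable_sum _ fun p _ => (hD p).const_mul _
        change ∫⁻ ω, y.2 * ENNReal.ofReal
            (Real.exp (-(∑ p, y.1 p * D p ω) - (∑ p, y.1 p ^ 2) * δ / 2)) ∂P = y.2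
        rw [lintegral_const_mul _ h3, lintegral_exp_gauss hD hlaw hind y.1, mul_one]
    _ = ∫⁻ ω, G ω ∂P := by
        rw [lintegral_map measurable_snd hY]

lemma exp_prod_meas {Ω ι : Type*} [Fintype ι] [MeasurableSpace Ω] {D ψ : ℕ → ι → Ω → ℝ}
    {δ : ℝ≥0} {G : Ω → ℝ≥0∞} (hG : Measurable G) (L : ℕ)
    (hD : ∀ i < L, ∀ p, Measurable (D i p)) (hψ : ∀ i < L, ∀ p, Measurable (ψ i p)) :
    Measurable fun ω => G ω * ENNReal.ofReal
        (Real.exp (-(∑ i ∈ Finset.range L, ∑ p, ψ i p ω * D i p ω)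
          - (∑ i ∈ Finset.range L, ∑ p, ψ i p ω ^ 2) * δ / 2)) := by
  have h3 : Measurable fun ω => ∑ i ∈ Finset.range L, ∑ p, ψ i p ω * D i p ω :=
    Finset.measurable_fun_sum _ fun i hi => Finset.measurable_fun_sum _ fun p _ =>
      (hψ i (Finset.mem_range.1 hi) p).mul (hD i (Finset.mem_range.1 hi) p)
  have h4 : Measurable fun ω => ∑ i ∈ Finset.range L, ∑ p, ψ i p ω ^ 2 :=
    Finset.measurable_fun_sum _ fun i hi => Finset.measurable_fun_sum _ fun p _ =>
      (hψ i (Finset.mem_range.1 hi) p).pow_const 2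
  exact hG.mul (Measurable.ennreal_ofReal (Measurable.exp
    (h3.neg.sub ((h4.mul_const _).div_const _))))

/-- The exact exponential identity for a sum of conditionally Gaussian steps. -/
lemma exp_prod {Ω ι : Type*} [Fintype ι] {mΩ : MeasurableSpace Ω} {P : Measure Ω}
    [IsProbabilityMeasure P] {F : ℕ → MeasurableSpace Ω} (hF : ∀ i, F i ≤ mΩ)
    (hmono : Monotone F) {D : ℕ → ι → Ω → ℝ} {δ : ℝ≥0}
    (hD : ∀ i p, Measurable[F (i + 1)] (D i p))
    (hlaw : ∀ i p, P.map (D i p) = gaussianReal 0 δ) (hind : ∀ i, iIndepFun (D i) P)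
    (hindF : ∀ i, Indep (⨆ p, MeasurableSpace.comap (D i p) inferInstance) (F i) P)
    {ψ : ℕ → ι → Ω → ℝ} (hψ : ∀ i p, Measurable[F i] (ψ i p)) {G : Ω → ℝ≥0∞}
    (hG : Measurable[F 0] G) (L : ℕ) :
    ∫⁻ ω, G ω * ENNReal.ofReal (Real.exp (-(∑ i ∈ Finset.range L, ∑ p, ψ i p ω * D i p ω)
      - (∑ i ∈ Finset.range L, ∑ p, ψ i p ω ^ 2) * δ / 2)) ∂P = ∫⁻ ω, G ω ∂P := by
  induction L with
  | zero => simp
  | succ L ih =>
    rw [← ih]
    have hmeas := @exp_prod_meas Ω ι _ (F L) D ψ δ G (hG.mono (hmono (Nat.zero_le _)) le_rfl) L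
      (fun i hi p => (hD i p).mono (hmono hi) le_rfl)
      (fun i hi p => (hψ i p).mono (hmono hi.le) le_rfl)
    have := exp_step (hF L) (fun p => (hD L p).mono (hF _) le_rfl) (hlaw L) (hind L) (hindF L)
      (hψ L) hmeas
    rw [← this]
    apply lintegral_congr
    intro ω
    rw [mul_assoc, ← ENNReal.ofReal_mul (Real.exp_pos _).le, ← Real.exp_add,
      Finset.sum_range_succ, Finset.sum_range_succ]
    congr 3
    ring

end Pool.Agent.H5.W
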