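import Pool.Agent.H5.W.Moments

/-!
Third order expansions of the Laplace transforms used.
-/

open MeasureTheory Filter Topology Asymptotics

namespace Pool.Agent.H5.W

lemma isBigO_pow_four_mul {q : ℝ → ℝ} (hq : Continuous q) :
    (fun t => t ^ 4 * q t) =O[𝓝 0] fun t => t ^ 4 := by
  have h : q =O[𝓝 0] fun _ => (1 : ℝ) := hq.continuousAt.isBigO_one ℝ
  have := (isBigO_refl (fun t : ℝ => t ^ 4) (𝓝 0)).mul h
  simpa using this

lemma HasExp3.const_mul {φ : ℝ → ℝ} {a0 a1 a2 a3 : ℝ} (h : HasExp3 φ a0 a1 a2 a3) (c : ℝ) :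
    HasExp3 (fun t => φ t * c) (a0 * c) (a1 * c) (a2 * c) (a3 * c) := by
  unfold HasExp3 at *
  refine (h.const_mul_left c).congr_left fun t => ?_
  ring

lemma exp3_one (n : ℕ) (s : ℝ) :
    HasExp3 (fun t => ((1 + t) ^ n) ^ (-s)) 1 (-(n * s)) (n * s * (n * s + 1) / 2)
      (-(n * s * (n * s + 1) * (n * s + 2) / 6)) := by
  unfold HasExp3
  refine (rpow_taylor (n * s)).congr' ?_ EventuallyEq.rfl
  have : ∀ᶠ t : ℝ in 𝓝 0, 0 < 1 + t := by
    have h : Tendsto (fun t : ℝ => 1 + t) (𝓝 0) (𝓝 (1 + 0)) :=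
      (continuous_const.add continuous_id).tendsto 0
    rw [add_zero] at h
    exact h.eventually_const_lt one_pos
  filter_upwards [this] with t ht
  have h1 : ((1 + t) ^ n) ^ (-s) = (1 + t) ^ (-(n * s)) := by
    rw [← Real.rpow_natCast, ← Real.rpow_mul ht.le]
    congr 1
    ring
  rw [h1]
  ring

lemma exp3_comp (s : ℝ) {x : ℝ → ℝ} (hx : Continuous x) {y : ℝ → ℝ} (hy : Continuous y)
    (hxy : ∀ t, x t = t ^ 2 * y t) {a2 a3 : ℝ} {z : ℝ → ℝ} (hz : Continuous z)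
    (hyz : ∀ t, -s * x t = a2 * t ^ 2 + a3 * t ^ 3 + t ^ 4 * z t) :
    HasExp3 (fun t => (1 + x t) ^ (-s)) 1 0 a2 a3 := by
  unfold HasExp3
  have hx0 : Tendsto x (𝓝 0) (𝓝 0) := by
    have := hx.tendsto 0
    rwa [hxy 0, zero_pow two_ne_zero, zero_mul] at this
  have h1 := (rpow_taylor s).comp_tendsto hx0
  have h2 : ((fun x : ℝ => x ^ 4) ∘ x) =O[𝓝 0] fun t => t ^ 4 := by
    have : ((fun x : ℝ => x ^ 4) ∘ x) = fun t => t ^ 4 * (t ^ 4 * y t ^ 4) := by
      funext t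
      simp only [Function.comp_apply, hxy t]
      ring
    rw [this]
    exact isBigO_pow_four_mul (by fun_prop)
  have h3 := h1.trans h2
  have h4 : (fun t : ℝ => t ^ 4 * (z t + s * (s + 1) / 2 * y t ^ 2 -
      s * (s + 1) * (s + 2) / 6 * t ^ 2 * y t ^ 3)) =O[𝓝 0] fun t => t ^ 4 :=
    isBigO_pow_four_mul (by fun_prop)
  refine (h3.add h4).congr_left fun t => ?_
  simp only [Function.comp_apply]
  have e1 := hyz t
  have e2 : s * (s + 1) / 2 * x t ^ 2 = t ^ 4 * (s * (s + 1) / 2 * y t ^ 2) := by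
    rw [hxy t]; ring
  have e3 : s * (s + 1) * (s + 2) / 6 * x t ^ 3
      = t ^ 4 * (s * (s + 1) * (s + 2) / 6 * t ^ 2 * y t ^ 3) := by
    rw [hxy t]; ring
  linear_combination -e1 - e2 + e3

lemma exp3_pair (s : ℝ) : HasExp3 (fun t => (1 - t ^ 2) ^ (-s)) 1 0 s 0 := by
  have := exp3_comp s (x := fun t => -t ^ 2) (by fun_prop) (y := fun _ => -1) continuous_const
    (fun t => by ring) (a2 := s) (a3 := 0) (z := fun _ => 0) continuous_const
    (fun t => by ring)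
  refine this

lemma exp3_triple (s : ℝ) :
    HasExp3 (fun t => (1 - 3 * t ^ 2 + 2 * t ^ 3) ^ (-s)) 1 0 (3 * s) (-2 * s) := by
  have := exp3_comp s (x := fun t => -3 * t ^ 2 + 2 * t ^ 3) (by fun_prop)
    (y := fun t => -3 + 2 * t) (by fun_prop)
    (fun t => by ring) (a2 := 3 * s) (a3 := -2 * s) (z := fun _ => 0) continuous_const
    (fun t => by ring)
  refine this.congr_left fun t => ?_
  have : 1 - 3 * t ^ 2 + 2 * t ^ 3 = 1 + (-3 * t ^ 2 + 2 * t ^ 3) := by ring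
  simp only [this]

end Pool.Agent.H5.W
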