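import Mathlib

/-!
Deterministic (pathwise) lemmas: block sums, integration by parts with piecewise constant test
functions, Riemann sums.
-/

open MeasureTheory Filter Topology

namespace Pool.Agent.H5.W

lemma block_sum (G : ℕ → ℕ → ℝ) {M : ℕ} (hM : 0 < M) (L : ℕ) {l : ℕ} (hl : l ≤ L * M) :
    ∑ k ∈ Finset.range L, (∑ i ∈ Finset.range (min l ((k + 1) * M)), G k i -
      ∑ i ∈ Finset.range (min l (k * M)), G k i) = ∑ i ∈ Finset.range l, G (i / M) i := by
  induction l with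
  | zero => simp
  | succ l ih =>
    have hl' : l ≤ L * M := by omega
    have hlt : l / M < L := (Nat.div_lt_iff_lt_mul hM).2 (by omega)
    have key : ∀ k, (∑ i ∈ Finset.range (min (l + 1) ((k + 1) * M)), G k i -
      ∑ i ∈ Finset.range (min (l + 1) (k * M)), G k i)
      = (∑ i ∈ Finset.range (min l ((k + 1) * M)), G k i -
      ∑ i ∈ Finset.range (min l (k * M)), G k i) + (if k = l / M then G k l else 0) := by
      intro k
      have hdiv : k = l / M ↔ k * M ≤ l ∧ l < (k + 1) * M := by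
        constructor
        · rintro rfl
          refine ⟨Nat.div_mul_le_self l M, ?_⟩
          rw [mul_comm]
          exact Nat.lt_mul_div_succ l hM
        · rintro ⟨h1, h2⟩
          exact (Nat.div_eq_of_lt_le h1 h2).symm
      have hAB : (k + 1) * M = k * M + M := by ring
      rcases lt_or_ge l (k * M) with h1 | h1
      · have e1 : min (l + 1) ((k + 1) * M) = l + 1 := min_eq_left (by omega)
        have e2 : min (l + 1) (k * M) = l + 1 := min_eq_left (by omega)
        have e3 : min l ((k + 1) * M) = l := min_eq_left (by omega)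
        have e4 : min l (k * M) = l := min_eq_left (by omega)
        rw [e1, e2, e3, e4, if_neg (by rw [hdiv]; omega)]
        ring
      · have e2 : min (l + 1) (k * M) = k * M := min_eq_right (by omega)
        have e4 : min l (k * M) = k * M := min_eq_right h1
        rcases lt_or_ge l ((k + 1) * M) with h2 | h2
        · have e1 : min (l + 1) ((k + 1) * M) = l + 1 := min_eq_left (by omega)
          have e3 : min l ((k + 1) * M) = l := min_eq_left (by omega)
          rw [e1, e2, e3, e4, if_pos (hdiv.2 ⟨h1, h2⟩), Finset.sum_range_succ]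
          ring
        · have e1 : min (l + 1) ((k + 1) * M) = (k + 1) * M := min_eq_right (by omega)
          have e3 : min l ((k + 1) * M) = (k + 1) * M := min_eq_right h2
          rw [e1, e2, e3, e4, if_neg (by rw [hdiv]; omega)]
          ring
    rw [Finset.sum_congr rfl fun k _ => key k, Finset.sum_add_distrib, ih hl',
      Finset.sum_range_succ]
    congr 1
    rw [Finset.sum_ite_eq' (Finset.range L) (l / M) (fun k => G k l)]
    rw [if_pos (Finset.mem_range.2 hlt)]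

/-- modulus of continuity on the unit square -/
lemma unif_cont {E : ℝ → ℝ → ℝ}
    (hE : ContinuousOn (Function.uncurry E) (Set.Icc 0 1 ×ˢ Set.Icc 0 1)) {ε : ℝ} (hε : 0 < ε) :
    ∃ δ > 0, ∀ r ∈ Set.Icc (0 : ℝ) 1, ∀ r' ∈ Set.Icc (0 : ℝ) 1, ∀ s ∈ Set.Icc (0 : ℝ) 1,
      ∀ s' ∈ Set.Icc (0 : ℝ) 1, |r - r'| < δ → |s - s'| < δ → |E r s - E r' s'| ≤ ε := by
  have hc : IsCompact (Set.Icc (0 : ℝ) 1 ×ˢ Set.Icc (0 : ℝ) 1) := isCompact_Icc.prod isCompact_Icc
  have hu := hc.uniformContinuousOn_of_continuous hE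
  rw [Metric.uniformContinuousOn_iff] at hu
  obtain ⟨δ, hδ, h⟩ := hu ε hε
  refine ⟨δ, hδ, fun r hr r' hr' s hs s' hs' h1 h2 => ?_⟩
  have := h (r, s) ⟨hr, hs⟩ (r', s') ⟨hr', hs'⟩ (by
    rw [Prod.dist_eq, max_lt_iff, Real.dist_eq, Real.dist_eq]
    exact ⟨h1, h2⟩)
  rw [Real.dist_eq] at this
  exact this.le

lemma continuousOn_slice {E : ℝ → ℝ → ℝ}
    (hE : ContinuousOn (Function.uncurry E) (Set.Icc 0 1 ×ˢ Set.Icc 0 1)) {r : ℝ}
    (hr : r ∈ Set.Icc (0 : ℝ) 1) : ContinuousOn (fun s => E r s) (Set.Icc 0 1) := by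
  have : ContinuousOn (Function.uncurry E ∘ fun s => (r, s)) (Set.Icc 0 1) :=
    hE.comp (by fun_prop) fun s hs => ⟨hr, hs⟩
  exact this

lemma continuousOn_slice' {E : ℝ → ℝ → ℝ}
    (hE : ContinuousOn (Function.uncurry E) (Set.Icc 0 1 ×ˢ Set.Icc 0 1)) {s : ℝ}
    (hs : s ∈ Set.Icc (0 : ℝ) 1) : ContinuousOn (fun r => E r s) (Set.Icc 0 1) := by
  have : ContinuousOn (Function.uncurry E ∘ fun r => (r, s)) (Set.Icc 0 1) :=
    hE.comp (by fun_prop) fun r hr => ⟨hr, hs⟩
  exact this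

lemma continuousOn_diag {E : ℝ → ℝ → ℝ}
    (hE : ContinuousOn (Function.uncurry E) (Set.Icc 0 1 ×ˢ Set.Icc 0 1)) :
    ContinuousOn (fun s => E s s) (Set.Icc 0 1) := by
  have : ContinuousOn (Function.uncurry E ∘ fun s => (s, s)) (Set.Icc 0 1) :=
    hE.comp (by fun_prop) fun s hs => ⟨hs, hs⟩
  exact this

lemma ii_of_continuousOn {f : ℝ → ℝ} (hf : ContinuousOn f (Set.Icc 0 1)) {a b : ℝ}
    (ha : a ∈ Set.Icc (0 : ℝ) 1) (hb : b ∈ Set.Icc (0 : ℝ) 1) :
    IntervalIntegrable f volume a b := by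
  refine (hf.mono ?_).intervalIntegrable
  exact Set.uIcc_subset_Icc ha hb

/-- Integration by parts with piecewise constant test functions. -/
lemma path_ibp {F E D : ℝ → ℝ → ℝ}
    (hE : ContinuousOn (Function.uncurry E) (Set.Icc 0 1 ×ˢ Set.Icc 0 1))
    (hD : ContinuousOn (Function.uncurry D) (Set.Icc 0 1 ×ˢ Set.Icc 0 1))
    (hFE : ∀ s ∈ Set.Icc (0 : ℝ) 1, ∀ r ∈ Set.Icc (0 : ℝ) 1, ∀ r' ∈ Set.Icc (0 : ℝ) 1, r ≤ r' →
      F r' s - F r s = ∫ ρ in r..r', E ρ s) {ε : ℝ} (hε : 0 < ε) :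
    ∀ᶠ m : ℕ in atTop, ∀ t ∈ Set.Icc (0 : ℝ) 1,
      |∑ k ∈ Finset.range (2 ^ m), (F (k / 2 ^ m) (min t ((k + 1) / 2 ^ m)) -
          F (k / 2 ^ m) (min t (k / 2 ^ m)) -
          ∫ σ in (min t (k / 2 ^ m))..(min t ((k + 1) / 2 ^ m)), D (k / 2 ^ m) σ) -
        (F t t - F 0 0 - ∫ σ in (0 : ℝ)..t, (E σ σ + D σ σ))| ≤ ε := by
  obtain ⟨δ1, hδ1, h1⟩ := unif_cont hE (half_pos hε)
  obtain ⟨δ2, hδ2, h2⟩ := unif_cont hD (half_pos hε)
  have hev : ∀ᶠ m : ℕ in atTop, ((1 : ℝ) / 2) ^ m < min δ1 δ2 :=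
    (tendsto_pow_atTop_nhds_zero_of_lt_one (by norm_num) (by norm_num)).eventually_lt_const
      (lt_min hδ1 hδ2)
  filter_upwards [hev] with m hm t ht
  have hm1 : (1 : ℝ) / 2 ^ m < δ1 := by
    rw [← one_div_pow]; exact hm.trans_le (min_le_left _ _)
  have hm2 : (1 : ℝ) / 2 ^ m < δ2 := by
    rw [← one_div_pow]; exact hm.trans_le (min_le_right _ _)
  have hpow : (0 : ℝ) < 2 ^ m := by positivity
  have hEDd : ContinuousOn (fun σ => E σ σ + D σ σ) (Set.Icc 0 1) :=
    (continuousOn_diag hE).add (continuousOn_diag hD)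
  set G : ℝ → ℝ := fun s => F s s - ∫ σ in (0 : ℝ)..s, (E σ σ + D σ σ) with hG
  have hmem : ∀ k : ℕ, k ≤ 2 ^ m → (k : ℝ) / 2 ^ m ∈ Set.Icc (0 : ℝ) 1 := by
    intro k hk
    refine ⟨by positivity, ?_⟩
    rw [div_le_one hpow]
    exact_mod_cast hk
  have htel : F t t - F 0 0 - ∫ σ in (0 : ℝ)..t, (E σ σ + D σ σ)
      = ∑ k ∈ Finset.range (2 ^ m), (G (min t (((k + 1 : ℕ) : ℝ) / 2 ^ m)) -
          G (min t ((k : ℝ) / 2 ^ m))) := by
    rw [Finset.sum_range_sub (fun k : ℕ => G (min t ((k : ℝ) / 2 ^ m)))]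
    have e1 : min t (((2 ^ m : ℕ) : ℝ) / 2 ^ m) = t := by
      push_cast
      rw [div_self hpow.ne']
      exact min_eq_left ht.2
    have e2 : min t (((0 : ℕ) : ℝ) / 2 ^ m) = 0 := by
      simp [ht.1]
    rw [e1, e2, hG]
    simp
    ring
  rw [htel, ← Finset.sum_sub_distrib]
  have hterm : ∀ k ∈ Finset.range (2 ^ m),
      |(F (k / 2 ^ m) (min t ((k + 1) / 2 ^ m)) - F (k / 2 ^ m) (min t (k / 2 ^ m)) -
          ∫ σ in (min t ((k : ℝ) / 2 ^ m))..(min t ((k + 1) / 2 ^ m)), D (k / 2 ^ m) σ) -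
        (G (min t (((k + 1 : ℕ) : ℝ) / 2 ^ m)) - G (min t ((k : ℝ) / 2 ^ m)))| ≤
      ε * (min t (((k + 1 : ℕ) : ℝ) / 2 ^ m) - min t ((k : ℝ) / 2 ^ m)) := by
    intro k hk
    have hk' := Finset.mem_range.1 hk
    push_cast
    set x := min t ((k : ℝ) / 2 ^ m) with hx
    set y := min t (((k : ℝ) + 1) / 2 ^ m) with hy
    have hkk : (k : ℝ) / 2 ^ m ≤ ((k : ℝ) + 1) / 2 ^ m := by gcongr; linarith
    have hk1 : ((k : ℝ) + 1) / 2 ^ m ∈ Set.Icc (0 : ℝ) 1 := by
      have := hmem (k + 1) hk'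
      push_cast at this
      exact this
    rcases le_or_gt t ((k : ℝ) / 2 ^ m) with hle | hgt
    · have ex : x = t := min_eq_left hle
      have ey : y = t := min_eq_left (hle.trans hkk)
      rw [ex, ey]
      simp
    · have ex : x = (k : ℝ) / 2 ^ m := min_eq_right hgt.le
      have hxm : x ∈ Set.Icc (0 : ℝ) 1 := by rw [ex]; exact hmem k hk'.le
      have hym : y ∈ Set.Icc (0 : ℝ) 1 := ⟨le_min ht.1 hk1.1, (min_le_left _ _).trans ht.2⟩
      have hxy : x ≤ y := min_le_min le_rfl hkk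
      have hyx : y - x ≤ 1 / 2 ^ m := by
        have : y ≤ ((k : ℝ) + 1) / 2 ^ m := min_le_right _ _
        rw [ex]
        have e : ((k : ℝ) + 1) / 2 ^ m = (k : ℝ) / 2 ^ m + 1 / 2 ^ m := by ring
        linarith
      have hI0 : IntervalIntegrable (fun σ => E σ σ + D σ σ) volume 0 x :=
        ii_of_continuousOn hEDd (by simp) hxm
      have hI1 : IntervalIntegrable (fun σ => E σ σ + D σ σ) volume x y :=
        ii_of_continuousOn hEDd hxm hym
      have hI2 : IntervalIntegrable (fun σ => D x σ) volume x y :=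
        ii_of_continuousOn (continuousOn_slice hD hxm) hxm hym
      have hI3 : IntervalIntegrable (fun σ => E σ y) volume x y :=
        ii_of_continuousOn (continuousOn_slice' hE hym) hxm hym
      have e1 : (F ((k : ℝ) / 2 ^ m) y - F ((k : ℝ) / 2 ^ m) x - ∫ σ in x..y, D ((k : ℝ) / 2 ^ m) σ) -
          (G y - G x) = ∫ σ in x..y, ((E σ σ + D σ σ) - D x σ - E σ y) := by
        rw [intervalIntegral.integral_sub (hI1.sub hI2) hI3, intervalIntegral.integral_sub hI1 hI2,
          ← hFE y hym x hxm y hym hxy]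
        have e2 := intervalIntegral.integral_add_adjacent_intervals hI0 hI1
        simp only [hG]
        rw [← ex, ← e2]
        ring
      rw [e1]
      have hb := intervalIntegral.norm_integral_le_of_norm_le_const (a := x) (b := y) (C := ε)
        (f := fun σ => (E σ σ + D σ σ) - D x σ - E σ y) (fun σ hσ => ?_)
      · rw [Real.norm_eq_abs, abs_of_nonneg (sub_nonneg.2 hxy)] at hb
        exact hb
      · rw [Set.uIoc_of_le hxy] at hσ
        have hσm : σ ∈ Set.Icc (0 : ℝ) 1 := ⟨hxm.1.trans hσ.1.le, hσ.2.trans hym.2⟩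
        have b1 := h1 σ hσm σ hσm σ hσm y hym (by simpa using hδ1) (by
          rw [abs_sub_comm, abs_of_nonneg (by linarith [hσ.2])]
          linarith [hσ.1])
        have b2 := h2 σ hσm x hxm σ hσm σ hσm (by
          rw [abs_of_nonneg (by linarith [hσ.1])]
          linarith [hσ.2]) (by simpa using hδ2)
        rw [Real.norm_eq_abs]
        have : (E σ σ + D σ σ) - D x σ - E σ y = (E σ σ - E σ y) + (D σ σ - D x σ) := by ring
        rw [this]
        refine (abs_add_le _ _).trans ?_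
        linarith
  refine (Finset.abs_sum_le_sum_abs _ _).trans ((Finset.sum_le_sum hterm).trans ?_)
  rw [← Finset.mul_sum, Finset.sum_range_sub (fun k : ℕ => min t ((k : ℝ) / 2 ^ m))]
  have e1 : min t (((2 ^ m : ℕ) : ℝ) / 2 ^ m) = t := by
    push_cast
    rw [div_self hpow.ne']
    exact min_eq_left ht.2
  have e2 : min t (((0 : ℕ) : ℝ) / 2 ^ m) = 0 := by
    simp [ht.1]
  rw [e1, e2, sub_zero]
  exact mul_le_of_le_one_right hε.le ht.2

end Pool.Agent.H5.W
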