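import Mathlib

/-!
Derivatives of determinants and inverses of matrix functions, and the matrix Riccati function.
-/

open MeasureTheory Filter Topology Matrix

namespace Pool.Agent.H5.W

variable {n : Type*} [Fintype n] [DecidableEq n]

/-- Jacobi's formula. -/
lemma hasDerivAt_det {W : ℝ → Matrix n n ℝ} {W' : Matrix n n ℝ} {s : ℝ}
    (hW : ∀ a b, HasDerivAt (fun t => W t a b) (W' a b) s) :
    HasDerivAt (fun t => (W t).det) (trace (adjugate (W s) * W')) s := by
  have h1 : ∀ t, (W t).det = ∑ σ : Equiv.Perm n, (Equiv.Perm.sign σ : ℝ) * ∏ i, W t (σ i) i := by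
    intro t
    rw [Matrix.det_apply']
  have h2 : HasDerivAt (fun t => ∑ σ : Equiv.Perm n, (Equiv.Perm.sign σ : ℝ) * ∏ i, W t (σ i) i)
      (∑ σ : Equiv.Perm n, (Equiv.Perm.sign σ : ℝ) *
        ∑ i, (∏ j ∈ Finset.univ.erase i, W s (σ j) j) • W' (σ i) i) s := by
    refine HasDerivAt.fun_sum fun σ _ => ?_
    refine HasDerivAt.const_mul _ ?_
    exact HasDerivAt.fun_finsetProd fun i _ => hW (σ i) i
  have h3 : (∑ σ : Equiv.Perm n, (Equiv.Perm.sign σ : ℝ) *
        ∑ i, (∏ j ∈ Finset.univ.erase i, W s (σ j) j) • W' (σ i) i)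
      = trace (adjugate (W s) * W') := by
    have h4 : ∀ i, (adjugate (W s) * W') i i = ((W s).updateCol i fun j => W' j i).det := by
      intro i
      rw [← Matrix.cramer_apply, Matrix.cramer_eq_adjugate_mulVec]
      rfl
    rw [trace]
    simp only [diag_apply, h4, Matrix.det_apply']
    rw [Finset.sum_comm]
    refine Finset.sum_congr rfl fun σ _ => ?_
    rw [Finset.mul_sum]
    refine Finset.sum_congr rfl fun i _ => ?_
    congr 1
    rw [← Finset.mul_prod_erase Finset.univ _ (Finset.mem_univ i)]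
    rw [smul_eq_mul, mul_comm]
    congr 1
    · simp
    · refine Finset.prod_congr rfl fun j hj => ?_
      rw [Matrix.updateCol_ne (Finset.ne_of_mem_erase hj)]
  rw [← h3]
  exact h2.congr_of_eventuallyEq (Eventually.of_forall h1)

lemma hasDerivAt_inv {W : ℝ → Matrix n n ℝ} {W' : Matrix n n ℝ} {s : ℝ}
    (hW : ∀ a b, HasDerivAt (fun t => W t a b) (W' a b) s) (hdet : (W s).det ≠ 0) (a b : n) :
    HasDerivAt (fun t => (W t)⁻¹ a b) (-((W s)⁻¹ * W' * (W s)⁻¹) a b) s := by
  have hdiff : ∀ a b, DifferentiableAt ℝ (fun t => (W t)⁻¹ a b) s := by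
    intro a b
    have h1 : ∀ t, (W t)⁻¹ a b = (W t).det⁻¹ * ((W t).updateRow b (Pi.single a 1)).det := by
      intro t
      rw [Matrix.inv_def, Ring.inverse_eq_inv', Matrix.smul_apply, Matrix.adjugate_apply,
        smul_eq_mul]
    have h2 : DifferentiableAt ℝ (fun t => ((W t).updateRow b (Pi.single a 1)).det) s := by
      refine (hasDerivAt_det (W' := W'.updateRow b 0) fun c d => ?_).differentiableAt
      by_cases hc : c = b
      · subst hc
        simp only [Matrix.updateRow_self]
        simpa using hasDerivAt_const s _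
      · simp only [Matrix.updateRow_ne hc]
        exact hW c d
    have h3 := (hasDerivAt_det hW).differentiableAt
    simp_rw [h1]
    exact (h3.inv hdet).mul h2
  have hev : ∀ᶠ t in 𝓝 s, (W t).det ≠ 0 :=
    (hasDerivAt_det hW).continuousAt.eventually_ne hdet
  set V : Matrix n n ℝ := Matrix.of fun a b => deriv (fun t => (W t)⁻¹ a b) s with hV
  have hVd : ∀ a b, HasDerivAt (fun t => (W t)⁻¹ a b) (V a b) s := fun a b =>
    (hdiff a b).hasDerivAt
  have key : W' * (W s)⁻¹ + W s * V = 0 := by
    ext c d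
    have h1 : HasDerivAt (fun t => (W t * (W t)⁻¹) c d)
        ((W' * (W s)⁻¹ + W s * V) c d) s := by
      simp only [Matrix.mul_apply, Matrix.add_apply]
      rw [← Finset.sum_add_distrib]
      exact HasDerivAt.fun_sum fun i _ => (hW c i).mul (hVd i d)
    have h2 : HasDerivAt (fun t => (W t * (W t)⁻¹) c d) 0 s := by
      refine (hasDerivAt_const s ((1 : Matrix n n ℝ) c d)).congr_of_eventuallyEq ?_
      filter_upwards [hev] with t ht
      rw [Matrix.mul_nonsing_inv _ (isUnit_iff_ne_zero.2 ht)]
    exact h1.unique h2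
  have hVeq : V = -((W s)⁻¹ * W' * (W s)⁻¹) := by
    have h1 : W s * V = -(W' * (W s)⁻¹) := by
      rw [eq_neg_iff_add_eq_zero, add_comm]
      exact key
    calc V = (W s)⁻¹ * (W s * V) := by
          rw [← Matrix.mul_assoc, Matrix.nonsing_inv_mul _ (isUnit_iff_ne_zero.2 hdet),
            Matrix.one_mul]
      _ = -((W s)⁻¹ * W' * (W s)⁻¹) := by rw [h1, Matrix.mul_neg, Matrix.mul_assoc]
  have := hVd a b
  rw [hVeq] at this
  exact this

/-- `K + 2 ∫_s^1 q`. -/
noncomputable def sig (K : Matrix n n ℝ) (q : ℝ → Matrix n n ℝ) (s : ℝ) : Matrix n n ℝ :=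
  Matrix.of fun a b => K a b + 2 * ∫ r in s..1, q r a b

lemma sig_one (K : Matrix n n ℝ) (q : ℝ → Matrix n n ℝ) : sig K q 1 = K := by
  ext a b
  simp [sig]

section

variable {K : Matrix n n ℝ} {q : ℝ → Matrix n n ℝ} (hq : ∀ a b, Continuous fun r => q r a b)

include hq

lemma hasDerivAt_sig (s : ℝ) (a b : n) :
    HasDerivAt (fun t => sig K q t a b) (((-2 : ℝ) • q s) a b) s := by
  have h1 : HasDerivAt (fun t => ∫ r in t..1, q r a b) (-q s a b) s :=
    intervalIntegral.integral_hasDerivAt_left ((hq a b).intervalIntegrable _ _)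
      ((hq a b).stronglyMeasurableAtFilter _ _) (hq a b).continuousAt
  have h2 := (h1.const_mul 2).const_add (K a b)
  simp only [Matrix.smul_apply, smul_eq_mul]
  rw [show (-2 : ℝ) * q s a b = 2 * -q s a b by ring]
  exact h2

lemma continuous_sig (a b : n) : Continuous fun t => sig K q t a b :=
  continuous_iff_continuousAt.2 fun s => (hasDerivAt_sig hq s a b).continuousAt

lemma posDef_sig (hqp : ∀ r, (q r).PosSemidef) (hK : K.PosDef) {s : ℝ} (hs : s ≤ 1) :
    (sig K q s).PosDef := by
  have h1 : sig K q s = K + (2 : ℝ) • Matrix.of fun a b => ∫ r in s..1, q r a b := by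
    ext a b
    simp [sig]
  rw [h1]
  refine hK.add_posSemidef (Matrix.PosSemidef.smul ?_ (by norm_num))
  refine Matrix.PosSemidef.of_dotProduct_mulVec_nonneg ?_ fun x => ?_
  · ext a b
    simp only [Matrix.conjTranspose_apply, Matrix.of_apply, star_trivial]
    refine intervalIntegral.integral_congr fun r _ => ?_
    have := congrFun (congrFun (hqp r).1 a) b
    simpa using this
  · have h2 : star x ⬝ᵥ ((Matrix.of fun a b => ∫ r in s..1, q r a b) *ᵥ x)
        = ∫ r in s..1, star x ⬝ᵥ (q r *ᵥ x) := by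
      simp only [dotProduct, mulVec, Matrix.of_apply, star_trivial]
      rw [intervalIntegral.integral_finsetSum]
      · refine Finset.sum_congr rfl fun a _ => ?_
        rw [intervalIntegral.integral_const_mul, intervalIntegral.integral_finsetSum]
        · refine congrArg _ (Finset.sum_congr rfl fun b _ => ?_)
          rw [intervalIntegral.integral_mul_const]
        · exact fun b _ => ((hq a b).mul continuous_const).intervalIntegrable _ _
      · intro a _
        refine Continuous.intervalIntegrable ?_ _ _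
        exact continuous_const.mul (continuous_finsetSum _ fun b _ =>
          (hq a b).mul continuous_const)
    rw [h2]
    exact intervalIntegral.integral_nonneg hs fun r _ => (hqp r).dotProduct_mulVec_nonneg x

lemma hasDerivAt_sig_inv (hqp : ∀ r, (q r).PosSemidef) (hK : K.PosDef) {s : ℝ} (hs : s ≤ 1)
    (a b : n) : HasDerivAt (fun t => (sig K q t)⁻¹ a b)
      (((2 : ℝ) • ((sig K q s)⁻¹ * q s * (sig K q s)⁻¹)) a b) s := by
  have h1 := hasDerivAt_inv (fun a b => hasDerivAt_sig (K := K) hq s a b)
    (posDef_sig hq hqp hK hs).det_pos.ne' a b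
  convert h1 using 1
  simp

lemma hasDerivAt_log_det_sig (hqp : ∀ r, (q r).PosSemidef) (hK : K.PosDef) {s : ℝ} (hs : s ≤ 1) :
    HasDerivAt (fun t => Real.log (sig K q t).det)
      (-2 * trace ((sig K q s)⁻¹ * q s)) s := by
  have hpos := (posDef_sig hq hqp hK hs).det_pos
  have h1 := (hasDerivAt_det (fun a b => hasDerivAt_sig (K := K) hq s a b)).log hpos.ne'
  convert h1 using 1
  rw [Matrix.inv_def, Ring.inverse_eq_inv', Matrix.mul_smul, Matrix.trace_smul,
    Matrix.smul_mul, Matrix.trace_smul, smul_eq_mul, smul_eq_mul]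
  field_simp

lemma integral_trace_sig (hqp : ∀ r, (q r).PosSemidef) (hK : K.PosDef) {s : ℝ} (hs : s ≤ 1) :
    ∫ r in s..1, trace ((sig K q r)⁻¹ * q r)
      = (Real.log (sig K q s).det - Real.log K.det) / 2 := by
  have hcont : ContinuousOn (fun r => trace ((sig K q r)⁻¹ * q r)) (Set.uIcc s 1) := by
    simp only [trace, Matrix.diag_apply, Matrix.mul_apply]
    refine continuousOn_finsetSum _ fun a _ => continuousOn_finsetSum _ fun b _ => ?_
    refine ContinuousOn.mul (fun t ht => ?_) (hq b a).continuousOn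
    rw [Set.uIcc_of_le hs] at ht
    exact (hasDerivAt_sig_inv hq hqp hK ht.2 a b).continuousAt.continuousWithinAt
  have h1 : ∫ r in s..1, (-2 * trace ((sig K q r)⁻¹ * q r))
      = Real.log (sig K q 1).det - Real.log (sig K q s).det := by
    refine intervalIntegral.integral_eq_sub_of_hasDerivAt
      (f := fun t => Real.log (sig K q t).det) (fun t ht => ?_)
      ((continuousOn_const.mul hcont).intervalIntegrable)
    rw [Set.uIcc_of_le hs] at ht
    exact hasDerivAt_log_det_sig hq hqp hK ht.2
  rw [intervalIntegral.integral_const_mul, sig_one] at h1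
  linarith

end

end Pool.Agent.H5.W
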