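import Pool.Agent.H5.W.Expand

/-!
Random positive semidefinite matrices with the Laplace transform of a Wishart law.
-/

open MeasureTheory Filter Topology Matrix

namespace Pool.Agent.H5.W

variable {n : Type*} [Fintype n] [DecidableEq n]

lemma trace_mul_nonneg {A B : Matrix n n ℝ} (hA : A.PosSemidef) (hB : B.PosSemidef) :
    0 ≤ trace (A * B) := by
  obtain ⟨m, v, hv⟩ := Matrix.posSemidef_iff_eq_sum_vecMulVec.1 hB
  rw [hv, Matrix.mul_sum, Matrix.trace_sum]
  refine Finset.sum_nonneg fun i _ => ?_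
  rw [Matrix.mul_vecMulVec, Matrix.trace_vecMulVec, dotProduct_comm]
  exact hA.dotProduct_mulVec_nonneg (v i)

/-- `X` has the Laplace transform of a (mixture of non-central) Wishart laws of shape `s`. -/
structure WishLaw {Ω : Type*} [MeasurableSpace Ω] (P : Measure Ω) (s : ℝ)
    (X M : Ω → Matrix n n ℝ) : Prop where
  measX : ∀ a b, Measurable fun ω => X ω a b
  measM : ∀ a b, Measurable fun ω => M ω a b
  psdX : ∀ ω, (X ω).PosSemidef
  psdM : ∀ ω, (M ω).PosSemidef
  transform : ∀ u : Matrix n n ℝ, u.PosDef →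
    ∫ ω, Real.exp (-trace (u * X ω)) ∂P =
      (1 + u).det ^ (-s) * ∫ ω, Real.exp (-trace ((u⁻¹ + 1)⁻¹ * M ω)) ∂P

lemma measurable_trace_mul {Ω : Type*} [MeasurableSpace Ω] {X : Ω → Matrix n n ℝ}
    (hX : ∀ a b, Measurable fun ω => X ω a b) (v : Matrix n n ℝ) :
    Measurable fun ω => trace (v * X ω) := by
  simp only [trace, diag_apply, mul_apply]
  exact Finset.measurable_fun_sum _ fun a _ => Finset.measurable_fun_sum _ fun b _ =>
    (hX b a).const_mul _

lemma inv_add_one_inv {u : Matrix n n ℝ} (hu : u.PosDef) :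
    (u⁻¹ + 1)⁻¹ = 1 - (1 + u)⁻¹ := by
  have hud : IsUnit u.det := isUnit_iff_ne_zero.2 hu.det_pos.ne'
  have h1u : (1 + u).PosDef := Matrix.PosDef.one.add hu
  have h1ud : IsUnit (1 + u).det := isUnit_iff_ne_zero.2 h1u.det_pos.ne'
  refine Matrix.inv_eq_right_inv ?_
  have e1 : u⁻¹ + 1 = u⁻¹ * (1 + u) := by
    rw [Matrix.mul_add, Matrix.mul_one, Matrix.nonsing_inv_mul _ hud]
  rw [e1, Matrix.mul_sub, Matrix.mul_one, Matrix.mul_assoc, Matrix.mul_nonsing_inv _ h1ud,
    Matrix.mul_one, Matrix.mul_add, Matrix.mul_one, Matrix.nonsing_inv_mul _ hud]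
  abel

section

variable {Ω : Type*} [MeasurableSpace Ω] {P : Measure Ω} {s : ℝ}
  {X M : Ω → Matrix n n ℝ}

/-- the tilting weight -/
noncomputable def wgt (s : ℝ) (X : Ω → Matrix n n ℝ) (l : ℕ) (ω : Ω) : ℝ :=
  (1 + ((l : ℝ) + 1)) ^ ((Fintype.card n : ℝ) * s) * Real.exp (-(((l : ℝ) + 1) * trace (X ω)))

/-- the rescaled linear functional -/
noncomputable def lin (v : Matrix n n ℝ) (X : Ω → Matrix n n ℝ) (l : ℕ) (ω : Ω) : ℝ :=
  (1 + ((l : ℝ) + 1)) * trace (v * X ω)

lemma posDef_tilt {v : Matrix n n ℝ} {t : ℝ} (h : (1 + (2 * t) • v).PosDef) (l : ℕ) :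
    (((l : ℝ) + 1) • (1 : Matrix n n ℝ) + ((1 + ((l : ℝ) + 1)) * t) • v).PosDef := by
  have e : ((l : ℝ) + 1) • (1 : Matrix n n ℝ) + ((1 + ((l : ℝ) + 1)) * t) • v
      = ((l : ℝ) / 2) • (1 : Matrix n n ℝ) + ((1 + ((l : ℝ) + 1)) / 2) • (1 + (2 * t) • v) := by
    ext a b
    simp only [Matrix.add_apply, Matrix.smul_apply, smul_eq_mul]
    ring
  rw [e]
  exact Matrix.PosDef.posSemidef_add (Matrix.PosSemidef.one.smul (by positivity))
    (h.smul (by positivity))

lemma WishLaw.laplaceLim [IsProbabilityMeasure P] (h : WishLaw P s X M) {v : Matrix n n ℝ}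
    {t0 : ℝ} (ht0 : 0 < t0) (hv : ∀ t, |t| ≤ t0 → (1 + (2 * t) • v).PosDef) :
    LaplaceLim P (wgt s X) (lin v X) t0
      (fun t => (1 + t • v).det ^ (-s) * ∫ ω, Real.exp (-trace (M ω)) ∂P) := by
  have hmeasT : Measurable fun ω => trace (X ω) := by
    have := measurable_trace_mul h.measX 1
    simpa using this
  have hmw : ∀ l, Measurable (wgt s X l) := fun l =>
    ((hmeasT.const_mul _).neg.exp).const_mul _
  have hml : ∀ l, Measurable (lin v X l) := fun l =>
    (measurable_trace_mul h.measX v).const_mul _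
  have hPDt : ∀ t, |t| ≤ t0 → (1 + t • v).PosDef := by
    intro t ht
    have := hv (t / 2) (by rw [abs_div, abs_two]; linarith [abs_nonneg t])
    rwa [mul_div_cancel₀ _ (two_ne_zero)] at this
  -- rewriting of the integrand
  have hrew : ∀ (l : ℕ) (t : ℝ) (ω : Ω), wgt s X l ω * Real.exp (-(t * lin v X l ω))
      = (1 + ((l : ℝ) + 1)) ^ ((Fintype.card n : ℝ) * s) * Real.exp (-trace
        ((((l : ℝ) + 1) • (1 : Matrix n n ℝ) + ((1 + ((l : ℝ) + 1)) * t) • v) * X ω)) := by
    intro l t ω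
    unfold wgt lin
    rw [mul_assoc, ← Real.exp_add, Matrix.add_mul, Matrix.smul_mul, Matrix.smul_mul,
      Matrix.one_mul, Matrix.trace_add, Matrix.trace_smul, Matrix.trace_smul, smul_eq_mul,
      smul_eq_mul]
    congr 2
    ring
  have hint : ∀ l t, |t| ≤ t0 →
      Integrable (fun ω => wgt s X l ω * Real.exp (-(t * lin v X l ω))) P := by
    intro l t ht
    refine Integrable.of_bound (C := (1 + ((l : ℝ) + 1)) ^ ((Fintype.card n : ℝ) * s))
      ((hmw l).mul (((hml l).const_mul t).neg.exp)).aestronglyMeasurable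
      (Eventually.of_forall fun ω => ?_)
    rw [hrew, Real.norm_eq_abs, abs_mul, abs_of_pos (Real.exp_pos _),
      abs_of_pos (Real.rpow_pos_of_pos (by positivity) _)]
    refine mul_le_of_le_one_right (Real.rpow_nonneg (by positivity) _) ?_
    rw [Real.exp_le_one_iff, neg_nonpos]
    exact trace_mul_nonneg (posDef_tilt (hv t ht) l).posSemidef (h.psdX ω)
  refine ⟨ht0, fun l ω => ?_, hmw, hml, hint, ?_⟩
  · unfold wgt
    have : (0 : ℝ) ≤ (1 + ((l : ℝ) + 1)) ^ ((Fintype.card n : ℝ) * s) :=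
      Real.rpow_nonneg (by positivity) _
    positivity
  · intro t ht
    set u : ℕ → Matrix n n ℝ := fun l =>
      ((l : ℝ) + 1) • (1 : Matrix n n ℝ) + ((1 + ((l : ℝ) + 1)) * t) • v with hu
    have huPD : ∀ l, (u l).PosDef := fun l => posDef_tilt (hv t ht) l
    have h1u : ∀ l : ℕ, 1 + u l = (1 + ((l : ℝ) + 1)) • (1 + t • v) := by
      intro l
      ext a b
      simp only [hu, Matrix.add_apply, Matrix.smul_apply, smul_eq_mul]
      ring
    have hPD1 := hPDt t ht
    have hval : ∀ l, ∫ ω, wgt s X l ω * Real.exp (-(t * lin v X l ω)) ∂P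
        = (1 + t • v).det ^ (-s) * ∫ ω, Real.exp (-trace (((u l)⁻¹ + 1)⁻¹ * M ω)) ∂P := by
      intro l
      have hpos : (0 : ℝ) < 1 + ((l : ℝ) + 1) := by positivity
      simp_rw [hrew l t]
      rw [integral_const_mul, h.transform (u l) (huPD l), h1u l, Matrix.det_smul,
        Real.mul_rpow (by positivity) hPD1.det_pos.le, ← mul_assoc, ← mul_assoc]
      congr 2
      have e1 : ((1 + ((l : ℝ) + 1)) ^ Fintype.card n) ^ (-s)
          = (1 + ((l : ℝ) + 1)) ^ (-((Fintype.card n : ℝ) * s)) := by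
        rw [← Real.rpow_natCast, ← Real.rpow_mul hpos.le]
        congr 1
        ring
      rw [e1, ← Real.rpow_add hpos, add_neg_cancel, Real.rpow_zero, one_mul]
    simp_rw [hval]
    refine Tendsto.const_mul _ ?_
    have hmM : ∀ w : Matrix n n ℝ, Measurable fun ω => Real.exp (-trace (w * M ω)) := fun w =>
      (measurable_trace_mul h.measM w).neg.exp
    refine tendsto_integral_of_dominated_convergence (fun _ => (1 : ℝ))
      (fun l => (hmM _).aestronglyMeasurable) (integrable_const _) (fun l => ?_) ?_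
    · refine Eventually.of_forall fun ω => ?_
      rw [Real.norm_eq_abs, abs_of_pos (Real.exp_pos _), Real.exp_le_one_iff, neg_nonpos]
      exact trace_mul_nonneg ((huPD l).inv.add Matrix.PosDef.one).inv.posSemidef (h.psdM ω)
    · refine Eventually.of_forall fun ω => ?_
      refine (Real.continuous_exp.tendsto _).comp ?_
      refine Tendsto.neg ?_
      have h2 : ∀ l, trace (((u l)⁻¹ + 1)⁻¹ * M ω)
          = trace (M ω) - (1 + ((l : ℝ) + 1))⁻¹ * trace ((1 + t • v)⁻¹ * M ω) := by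
        intro l
        have hpos : (0 : ℝ) < 1 + ((l : ℝ) + 1) := by positivity
        have h1 : ((1 + ((l : ℝ) + 1)) • (1 + t • v))⁻¹
            = (1 + ((l : ℝ) + 1))⁻¹ • (1 + t • v)⁻¹ := by
          refine Matrix.inv_eq_left_inv ?_
          rw [Matrix.smul_mul, Matrix.mul_smul, smul_smul, inv_mul_cancel₀ hpos.ne', one_smul,
            Matrix.nonsing_inv_mul _ (isUnit_iff_ne_zero.2 hPD1.det_pos.ne')]
        rw [inv_add_one_inv (huPD l), h1u l, h1, Matrix.sub_mul, Matrix.one_mul,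
          Matrix.smul_mul, Matrix.trace_sub, Matrix.trace_smul, smul_eq_mul]
      simp_rw [h2]
      have h3 : Tendsto (fun l : ℕ => (1 + ((l : ℝ) + 1))⁻¹) atTop (𝓝 0) := by
        refine tendsto_inv_atTop_zero.comp ?_
        refine tendsto_atTop_add_const_left _ _ (tendsto_atTop_add_const_right _ _ ?_)
        exact tendsto_natCast_atTop_atTop
      have h4 := (h3.mul_const (trace ((1 + t • v)⁻¹ * M ω))).const_sub (trace (M ω))
      rw [zero_mul, sub_zero] at h4
      exact h4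

end

end Pool.Agent.H5.W
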