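import Pool.Agent.H5.W.TestVec
import Pool.Agent.H5.W.Riccati
import Pool.Agent.H5.W.Path
import Pool.Agent.H5.W.WLaw

/-!
The weighted sums `∑ U_ab ⟨x g_a, g_b⟩` along the transported test vectors.
-/

open MeasureTheory Filter Topology
open scoped NNReal ENNReal RealInnerProductSpace

namespace Pool.Agent.H5.W

variable {H : Type*} [NormedAddCommGroup H] [InnerProductSpace ℝ H] {N : ℕ}

/-- weighted sum -/
noncomputable def FB (U : ℝ → Matrix (Fin N) (Fin N) ℝ) (g g' : ℝ → Fin N → H)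
    (x : ℝ → H →L[ℝ] H) (r s : ℝ) : ℝ :=
  ∑ a, ∑ b, U r a b * ⟪x s (g r a), g' r b⟫

lemma FB_continuousOn {U : ℝ → Matrix (Fin N) (Fin N) ℝ} {g g' : ℝ → Fin N → H}
    {x : ℝ → H →L[ℝ] H} (hU : ∀ a b, ContinuousOn (fun r => U r a b) (Set.Icc 0 1))
    (hg : ∀ a, Continuous fun r => g r a) (hg' : ∀ a, Continuous fun r => g' r a)
    (hx : Continuous x) :
    ContinuousOn (Function.uncurry (FB U g g' x)) (Set.Icc 0 1 ×ˢ Set.Icc 0 1) := by
  unfold FB Function.uncurry
  refine continuousOn_finsetSum _ fun a _ => continuousOn_finsetSum _ fun b _ => ?_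
  refine ContinuousOn.mul ?_ (Continuous.continuousOn ?_)
  · exact (hU a b).comp continuous_fst.continuousOn fun p hp => hp.1
  · exact ((hx.comp continuous_snd).clm_apply ((hg a).comp continuous_fst)).inner
      ((hg' b).comp continuous_fst)

lemma FB_continuous_right (U : ℝ → Matrix (Fin N) (Fin N) ℝ) (g g' : ℝ → Fin N → H)
    {x : ℝ → H →L[ℝ] H} (hx : Continuous x) (r : ℝ) : Continuous (FB U g g' x r) := by
  unfold FB
  refine continuous_finsetSum _ fun a _ => continuous_finsetSum _ fun b _ => ?_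
  exact (((hx.clm_apply continuous_const).inner continuous_const)).const_mul _

lemma FB_measurable (U : ℝ → Matrix (Fin N) (Fin N) ℝ) (g g' : ℝ → Fin N → H) {Ω : Type*}
    {m : MeasurableSpace Ω} {x : Ω → ℝ → H →L[ℝ] H} (r s : ℝ)
    (hx : Measurable[m] fun ω => x ω s) : Measurable[m] fun ω => FB U g g' (x ω) r s := by
  unfold FB
  refine Finset.measurable_fun_sum _ fun a _ => Finset.measurable_fun_sum _ fun b _ => ?_
  have hc : Continuous fun A : H →L[ℝ] H => ⟪A (g r a), g' r b⟫ := by fun_prop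
  exact (hc.measurable.comp hx).const_mul _

lemma FB_le (U : ℝ → Matrix (Fin N) (Fin N) ℝ) (g g' : ℝ → Fin N → H)
    (x : ℝ → H →L[ℝ] H) (r s : ℝ) :
    FB U g g' x r s ≤ (∑ a, ∑ b, |U r a b| * (‖g r a‖ * ‖g' r b‖)) * ‖x s‖ := by
  unfold FB
  rw [Finset.sum_mul]
  refine Finset.sum_le_sum fun a _ => ?_
  rw [Finset.sum_mul]
  refine Finset.sum_le_sum fun b _ => ?_
  calc U r a b * ⟪x s (g r a), g' r b⟫ ≤ |U r a b * ⟪x s (g r a), g' r b⟫| := le_abs_self _
    _ = |U r a b| * |⟪x s (g r a), g' r b⟫| := abs_mul _ _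
    _ ≤ |U r a b| * (‖x s‖ * ‖g r a‖ * ‖g' r b‖) := by
        gcongr
        refine (abs_real_inner_le_norm _ _).trans ?_
        gcongr
        exact (x s).le_opNorm _
    _ = _ := by ring

lemma FB_hasDerivAt {U U' : ℝ → Matrix (Fin N) (Fin N) ℝ} {g g' : ℝ → Fin N → H}
    (x : ℝ → H →L[ℝ] H) {r : ℝ} (s : ℝ) (hU : ∀ a b, HasDerivAt (fun r => U r a b) (U' r a b) r)
    (hg : ∀ a, HasDerivAt (fun r => g r a) (-g' r a) r) :
    HasDerivAt (fun r => FB U g g x r s)
      (FB U' g g x r s - (FB U g' g x r s + FB U g g' x r s)) r := by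
  unfold FB
  rw [← Finset.sum_add_distrib, ← Finset.sum_sub_distrib]
  refine HasDerivAt.fun_sum fun a _ => ?_
  rw [← Finset.sum_add_distrib, ← Finset.sum_sub_distrib]
  refine HasDerivAt.fun_sum fun b _ => ?_
  have h1 : HasDerivAt (fun r => x s (g r a)) (x s (-g' r a)) r :=
    (x s).hasFDerivAt.comp_hasDerivAt r (hg a)
  have h2 := h1.inner ℝ (hg b)
  refine ((hU a b).fun_mul h2).congr_deriv ?_
  rw [map_neg, inner_neg_left, inner_neg_right]
  ring

/-- the transported test vectors -/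
noncomputable def gv (T : C0Semigroup H) (h : Fin N → H) (r : ℝ) (i : Fin N) : H :=
  T.S (1 - r).toNNReal (h i)

lemma gv_continuous (T : C0Semigroup H) (h : Fin N → H) (i : Fin N) :
    Continuous fun r => gv T h r i :=
  (T.continuous_toNNReal (h i)).comp (continuous_const.sub continuous_id)

lemma gv_one (T : C0Semigroup H) (h : Fin N → H) (i : Fin N) : gv T h 1 i = h i := by
  simp [gv, T.S_zero_apply]

lemma gv_isGen {T : C0Semigroup H} {h a : Fin N → H} (hgen : ∀ i, T.IsGen (h i) (a i)) (r : ℝ)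
    (i : Fin N) : T.IsGen (gv T h r i) (gv T a r i) := (hgen i).apply _

lemma gv_hasDerivAt [CompleteSpace H] {T : C0Semigroup H} {h a : Fin N → H}
    (hgen : ∀ i, T.IsGen (h i) (a i)) {r : ℝ} (hr : r < 1) (i : Fin N) :
    HasDerivAt (fun r => gv T h r i) (-gv T a r i) r := by
  have h1 := (hgen i).hasDerivAt (t := 1 - r) (by linarith)
  have h2 : HasDerivAt (fun r : ℝ => 1 - r) (-1) r := by
    simpa using (hasDerivAt_id r).const_sub 1
  have h3 := h1.scomp r h2
  simpa [gv, Function.comp_def] using h3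

/-- the matrix `⟨Q g_a, g_b⟩` -/
noncomputable def qm (T : C0Semigroup H) (Q : H →L[ℝ] H) (h : Fin N → H) (r : ℝ) :
    Matrix (Fin N) (Fin N) ℝ := Matrix.of fun a b => ⟪Q (gv T h r a), gv T h r b⟫

lemma gram_psd {R : H →L[ℝ] H} (hR : R.IsPositive) (g : Fin N → H) :
    (Matrix.of fun a b => ⟪R (g a), g b⟫ : Matrix (Fin N) (Fin N) ℝ).PosSemidef := by
  refine Matrix.PosSemidef.of_dotProduct_mulVec_nonneg ?_ fun x => ?_
  · ext a b
    simp only [Matrix.conjTranspose_apply, Matrix.of_apply, star_trivial]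
    rw [hR.inner_left_eq_inner_right, real_inner_comm]
  · have h1 : star x ⬝ᵥ (Matrix.of fun a b => ⟪R (g a), g b⟫ : Matrix (Fin N) (Fin N) ℝ).mulVec x
        = ⟪R (∑ a, x a • g a), ∑ b, x b • g b⟫ := by
      simp only [map_sum, map_smul, sum_inner, inner_sum, real_inner_smul_left,
        real_inner_smul_right, dotProduct, Matrix.mulVec, Matrix.of_apply, star_trivial,
        Pi.star_apply]
      refine Finset.sum_congr rfl fun a _ => ?_
      rw [Finset.mul_sum]
      refine Finset.sum_congr rfl fun b _ => ?_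
      have hsymm : ⟪R (g b), g a⟫ = ⟪R (g a), g b⟫ := by
        rw [hR.inner_left_eq_inner_right, real_inner_comm]
      rw [hsymm]
      ring
    rw [h1]
    exact hR.inner_nonneg_left _

lemma qm_continuous (T : C0Semigroup H) (Q : H →L[ℝ] H) (h : Fin N → H) (a b : Fin N) :
    Continuous fun r => qm T Q h r a b :=
  (Q.continuous.comp (gv_continuous T h a)).inner (gv_continuous T h b)

lemma qm_psd (T : C0Semigroup H) {Q : H →L[ℝ] H} (hQ : Q.IsPositive) (h : Fin N → H) (r : ℝ) :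
    (qm T Q h r).PosSemidef := gram_psd hQ _

lemma FB_eq_trace {U : ℝ → Matrix (Fin N) (Fin N) ℝ} {g : ℝ → Fin N → H} {x : ℝ → H →L[ℝ] H}
    {r s : ℝ} (hx : (x s).IsPositive) : FB U g g x r s =
      Matrix.trace (U r * Matrix.of fun a b => ⟪x s (g r a), g r b⟫) := by
  simp only [FB, Matrix.trace, Matrix.diag_apply, Matrix.mul_apply, Matrix.of_apply]
  refine Finset.sum_congr rfl fun a _ => Finset.sum_congr rfl fun b _ => ?_
  rw [hx.inner_left_eq_inner_right, real_inner_comm]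

lemma FB_nonneg {U : ℝ → Matrix (Fin N) (Fin N) ℝ} {g : ℝ → Fin N → H} {x : ℝ → H →L[ℝ] H}
    {r s : ℝ} (hU : (U r).PosSemidef) (hx : (x s).IsPositive) : 0 ≤ FB U g g x r s := by
  rw [FB_eq_trace hx]
  exact trace_mul_nonneg hU (gram_psd hx (g r))

end Pool.Agent.H5.W
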