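import Mathlib

/-!
A positive semidefinite matrix which is nearly idempotent has nearly integral trace.
-/

open Matrix

namespace Pool.Agent.H5.W

variable {n : Type*} [Fintype n] [DecidableEq n]

lemma trace_pow_eq {B : Matrix n n ℝ} (hB : B.IsHermitian) (k : ℕ) :
    trace (B ^ k) = ∑ i, hB.eigenvalues i ^ k := by
  conv_lhs => rw [hB.spectral_theorem]
  rw [← map_pow, Unitary.conjStarAlgAut_apply, trace_mul_cycle, Unitary.coe_star_mul_self,
    one_mul, diagonal_pow, trace_diagonal]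
  simp

lemma sum_near_nat {x : n → ℝ} (hx : ∀ i, 0 ≤ x i) {M ε δ : ℝ} (hM : ∑ i, x i ≤ M)
    (hδ : 0 < δ) (h : ∑ i, x i * (1 - x i) ^ 2 ≤ ε) :
    ∃ N : ℕ, |∑ i, x i - N| ≤ 4 * ε + 2 * M * δ + ε / (2 * δ) := by
  classical
  set A := Finset.univ.filter fun i => 1 / 2 < x i with hA
  refine ⟨A.card, ?_⟩
  have hsplit : ∑ i, x i = ∑ i ∈ A, x i + ∑ i ∈ Aᶜ, x i := (Finset.sum_add_sum_compl A x).symm
  have hsplit2 : ∑ i, x i * (1 - x i) ^ 2
      = ∑ i ∈ A, x i * (1 - x i) ^ 2 + ∑ i ∈ Aᶜ, x i * (1 - x i) ^ 2 :=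
    (Finset.sum_add_sum_compl A fun i => x i * (1 - x i) ^ 2).symm
  have hnn : ∀ i, 0 ≤ x i * (1 - x i) ^ 2 := fun i => mul_nonneg (hx i) (sq_nonneg _)
  have hA' : ∑ i ∈ A, x i * (1 - x i) ^ 2 ≤ ε := by
    have : 0 ≤ ∑ i ∈ Aᶜ, x i * (1 - x i) ^ 2 := Finset.sum_nonneg fun i _ => hnn i
    linarith
  have hAc' : ∑ i ∈ Aᶜ, x i * (1 - x i) ^ 2 ≤ ε := by
    have : 0 ≤ ∑ i ∈ A, x i * (1 - x i) ^ 2 := Finset.sum_nonneg fun i _ => hnn i
    linarith
  have h1 : ∑ i ∈ Aᶜ, x i ≤ 4 * ε := by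
    calc ∑ i ∈ Aᶜ, x i ≤ ∑ i ∈ Aᶜ, 4 * (x i * (1 - x i) ^ 2) := by
          refine Finset.sum_le_sum fun i hi => ?_
          have hi' : x i ≤ 1 / 2 := by
            simpa [hA] using hi
          have h2 : (1 / 4 : ℝ) ≤ (1 - x i) ^ 2 := by nlinarith
          nlinarith [hx i]
      _ = 4 * ∑ i ∈ Aᶜ, x i * (1 - x i) ^ 2 := by rw [Finset.mul_sum]
      _ ≤ 4 * ε := by linarith
  have h1' : 0 ≤ ∑ i ∈ Aᶜ, x i := Finset.sum_nonneg fun i _ => hx i
  have hcard : (A.card : ℝ) ≤ 2 * M := by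
    have : (A.card : ℝ) * (1 / 2) ≤ ∑ i ∈ A, x i := by
      rw [← nsmul_eq_mul]
      refine Finset.card_nsmul_le_sum A x (1 / 2) fun i hi => ?_
      have : 1 / 2 < x i := by simpa [hA] using hi
      exact this.le
    linarith
  have h2 : |∑ i ∈ A, x i - A.card| ≤ 2 * M * δ + ε / (2 * δ) := by
    have e1 : ∑ i ∈ A, x i - A.card = ∑ i ∈ A, (x i - 1) := by
      rw [Finset.sum_sub_distrib]
      simp
    rw [e1]
    calc |∑ i ∈ A, (x i - 1)| ≤ ∑ i ∈ A, |x i - 1| := Finset.abs_sum_le_sum_abs _ _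
      _ ≤ ∑ i ∈ A, (δ + (x i * (1 - x i) ^ 2) / (2 * δ)) := by
          refine Finset.sum_le_sum fun i hi => ?_
          have hi' : 1 / 2 < x i := by simpa [hA] using hi
          have h3 : |x i - 1| ≤ δ + (x i - 1) ^ 2 / (4 * δ) := by
            rw [← sub_nonneg]
            have : δ + (x i - 1) ^ 2 / (4 * δ) - |x i - 1|
                = (2 * δ - |x i - 1|) ^ 2 / (4 * δ) := by
              rw [← sq_abs (x i - 1)]
              field_simp
              ring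
            rw [this]
            positivity
          have h4 : (x i - 1) ^ 2 / (4 * δ) ≤ (x i * (1 - x i) ^ 2) / (2 * δ) := by
            rw [div_le_div_iff₀ (by positivity) (by positivity)]
            have h5 : 0 ≤ (1 - x i) ^ 2 := sq_nonneg _
            have h6 : (x i - 1) ^ 2 = (1 - x i) ^ 2 := by ring
            rw [h6]
            nlinarith [mul_nonneg (mul_nonneg h5 hδ.le) (sub_nonneg.2 hi'.le)]
          linarith
      _ = A.card * δ + (∑ i ∈ A, x i * (1 - x i) ^ 2) / (2 * δ) := by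
          rw [Finset.sum_add_distrib, Finset.sum_div]
          simp
      _ ≤ 2 * M * δ + ε / (2 * δ) := by gcongr
  have e : ∑ i, x i - A.card = (∑ i ∈ A, x i - A.card) + ∑ i ∈ Aᶜ, x i := by
    rw [hsplit]; ring
  rw [e]
  refine (abs_add_le _ _).trans ?_
  rw [abs_of_nonneg h1']
  linarith

/-- The trace of a nearly idempotent positive semidefinite matrix is nearly an integer. -/
lemma near_nat {B : Matrix n n ℝ} (hB : B.PosSemidef) {α ε : ℝ} (hε : 0 < ε) (hε1 : ε ≤ 1)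
    (h : trace B - 2 * trace (B * B) + trace (B * B * B) + (trace B - α) ^ 2 ≤ ε ^ 2) :
    ∃ N : ℕ, |α - N| ≤ (2 * |α| + 8) * ε := by
  have t1 : trace B = ∑ i, hB.1.eigenvalues i := by
    have := trace_pow_eq hB.1 1
    simpa using this
  have t2 : trace (B * B) = ∑ i, hB.1.eigenvalues i ^ 2 := by
    rw [← trace_pow_eq hB.1 2, sq]
  have t3 : trace (B * B * B) = ∑ i, hB.1.eigenvalues i ^ 3 := by
    rw [← trace_pow_eq hB.1 3, pow_succ, sq]
  have hx : ∀ i, 0 ≤ hB.1.eigenvalues i := hB.eigenvalues_nonneg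
  have hs : ∑ i, hB.1.eigenvalues i * (1 - hB.1.eigenvalues i) ^ 2
      = trace B - 2 * trace (B * B) + trace (B * B * B) := by
    rw [t1, t2, t3, Finset.mul_sum, ← Finset.sum_sub_distrib, ← Finset.sum_add_distrib]
    exact Finset.sum_congr rfl fun i _ => by ring
  have hs0 : 0 ≤ ∑ i, hB.1.eigenvalues i * (1 - hB.1.eigenvalues i) ^ 2 :=
    Finset.sum_nonneg fun i _ => mul_nonneg (hx i) (sq_nonneg _)
  have h1 : ∑ i, hB.1.eigenvalues i * (1 - hB.1.eigenvalues i) ^ 2 ≤ ε ^ 2 := by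
    rw [hs]
    nlinarith [sq_nonneg (trace B - α)]
  have h2 : |trace B - α| ≤ ε := by
    apply abs_le_of_sq_le_sq _ hε.le
    rw [← hs] at h
    linarith
  have hM : ∑ i, hB.1.eigenvalues i ≤ |α| + 1 := by
    rw [← t1]
    have := le_abs_self α
    have := le_abs_self (trace B - α)
    linarith
  obtain ⟨N, hN⟩ := sum_near_nat hx hM hε h1
  refine ⟨N, ?_⟩
  rw [← t1] at hN
  have h3 : |α - N| ≤ |trace B - α| + |trace B - N| := by
    have : α - N = -(trace B - α) + (trace B - N) := by ring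
    rw [this]
    refine (abs_add_le _ _).trans ?_
    rw [abs_neg]
  have h4 : ε ^ 2 / (2 * ε) = ε / 2 := by field_simp
  rw [h4] at hN
  have h5 : 4 * ε ^ 2 ≤ 4 * ε := by nlinarith
  have : 0 ≤ |α| := abs_nonneg α
  nlinarith

/-- Limits of natural numbers are natural numbers. -/
lemma exists_nat_of_near {α : ℝ} (h : ∀ ε > 0, ∃ N : ℕ, |α - N| ≤ ε) : ∃ N : ℕ, α = N := by
  have hcl : IsClosed (Set.range ((↑) : ℕ → ℝ)) := Nat.isClosedEmbedding_coe_real.isClosed_range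
  have : α ∈ closure (Set.range ((↑) : ℕ → ℝ)) := by
    rw [Metric.mem_closure_iff]
    intro ε hε
    obtain ⟨N, hN⟩ := h (ε / 2) (half_pos hε)
    refine ⟨N, ⟨N, rfl⟩, ?_⟩
    rw [Real.dist_eq]
    linarith
  rw [hcl.closure_eq] at this
  obtain ⟨N, hN⟩ := this
  exact ⟨N, hN.symm⟩

end Pool.Agent.H5.W
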