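import Pool.Agent.H5.W.WLaw
import Pool.Agent.H5.W.Integr

/-!
If Wishart laws of shape `s` exist in all dimensions then `2 s` is a natural number.
-/

open MeasureTheory Filter Topology Matrix

namespace Pool.Agent.H5.W

section CT

variable {Ω : Type*} [MeasurableSpace Ω]

/-- weighted integrals converge -/
def CT (P : Measure Ω) (ρ f : ℕ → Ω → ℝ) (L : ℝ) : Prop :=
  (∀ l, Integrable (fun ω => ρ l ω * f l ω) P) ∧
    Tendsto (fun l => ∫ ω, ρ l ω * f l ω ∂P) atTop (𝓝 L)

variable {P : Measure Ω} {ρ : ℕ → Ω → ℝ}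

lemma CT.add {f g : ℕ → Ω → ℝ} {L M : ℝ} (hf : CT P ρ f L) (hg : CT P ρ g M) :
    CT P ρ (fun l ω => f l ω + g l ω) (L + M) := by
  refine ⟨fun l => ?_, ?_⟩
  · simp_rw [mul_add]
    exact (hf.1 l).add (hg.1 l)
  · refine (hf.2.add hg.2).congr fun l => ?_
    rw [← integral_add (hf.1 l) (hg.1 l)]
    simp_rw [mul_add]

lemma CT.const_mul {f : ℕ → Ω → ℝ} {L : ℝ} (c : ℝ) (hf : CT P ρ f L) :
    CT P ρ (fun l ω => c * f l ω) (c * L) := by
  have e : ∀ l ω, ρ l ω * (c * f l ω) = c * (ρ l ω * f l ω) := fun l ω => by ring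
  refine ⟨fun l => ?_, ?_⟩
  · simp_rw [e]
    exact (hf.1 l).const_mul c
  · refine (hf.2.const_mul c).congr fun l => ?_
    simp_rw [e]
    rw [integral_const_mul]

lemma CT.sub {f g : ℕ → Ω → ℝ} {L M : ℝ} (hf : CT P ρ f L) (hg : CT P ρ g M) :
    CT P ρ (fun l ω => f l ω - g l ω) (L - M) := by
  have := hf.add (hg.const_mul (-1))
  refine ⟨fun l => ?_, ?_⟩
  · refine (this.1 l).congr (Eventually.of_forall fun ω => ?_)
    simp only; ring
  · have h2 := this.2
    rw [show L + -1 * M = L - M by ring] at h2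
    refine h2.congr fun l => integral_congr_ae (Eventually.of_forall fun ω => ?_)
    simp only; ring

lemma CT.sum {ι : Type*} (A : Finset ι) {f : ι → ℕ → Ω → ℝ} {L : ι → ℝ}
    (hf : ∀ i ∈ A, CT P ρ (f i) (L i)) :
    CT P ρ (fun l ω => ∑ i ∈ A, f i l ω) (∑ i ∈ A, L i) := by
  classical
  induction A using Finset.induction_on with
  | empty =>
    refine ⟨fun l => ?_, ?_⟩
    · simp
    · simp
  | insert a A ha ih =>
    have h1 := ih fun i hi => hf i (Finset.mem_insert_of_mem hi)
    have h2 := (hf a (Finset.mem_insert_self a A)).add h1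
    simp only [Finset.sum_insert ha]
    exact h2

lemma CT.congr {f g : ℕ → Ω → ℝ} {L M : ℝ} (hf : CT P ρ f L) (h : ∀ l ω, f l ω = g l ω)
    (hLM : L = M) : CT P ρ g M := by
  have : f = g := by funext l ω; exact h l ω
  rw [← this, ← hLM]
  exact hf

end CT

/-- selection matrix -/
def sel {k n : Type*} [DecidableEq n] (f : k → n) : Matrix k n ℝ :=
  Matrix.of fun p j => if f p = j then 1 else 0

section Sel

variable {k n : Type*} [Fintype k] [DecidableEq k] [Fintype n] [DecidableEq n] {f : k → n}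

lemma sel_mul_transpose (hf : Function.Injective f) : sel f * (sel f)ᵀ = 1 := by
  ext p q
  simp only [sel, mul_apply, of_apply, transpose_apply, ite_mul, one_mul, zero_mul,
    Finset.sum_ite_eq, Finset.mem_univ, if_true, one_apply]
  by_cases h : p = q
  · simp [h]
  · rw [if_neg h, if_neg fun h' => h (hf h').symm]

lemma det_sel (hf : Function.Injective f) (w : Matrix k k ℝ) (t : ℝ) :
    (1 + t • ((sel f)ᵀ * w * sel f)).det = (1 + t • w).det := by
  have e : t • ((sel f)ᵀ * w * sel f) = (t • ((sel f)ᵀ * w)) * sel f := by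
    rw [Matrix.smul_mul]
  rw [e, Matrix.det_one_add_mul_comm, Matrix.mul_smul, ← Matrix.mul_assoc,
    sel_mul_transpose hf, Matrix.one_mul]

lemma trace_sel (w : Matrix k k ℝ) (X : Matrix n n ℝ) :
    trace ((sel f)ᵀ * w * sel f * X) = trace (w * X.submatrix f f) := by
  rw [Matrix.mul_assoc, Matrix.mul_assoc, Matrix.trace_mul_comm, Matrix.mul_assoc]
  congr 2
  ext p q
  simp [sel, mul_apply]

lemma posDef_sel (hf : Function.Injective f) {w : Matrix k k ℝ} (hw : w.IsHermitian)
    (hw1 : ∀ p q, |w p q| ≤ 1) {c : ℝ} (hc : |c| * Fintype.card k < 1) :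
    (1 + c • ((sel f)ᵀ * w * sel f)).PosDef := by
  refine Matrix.PosDef.of_dotProduct_mulVec_pos ?_ fun x hx => ?_
  · refine Matrix.isHermitian_one.add ?_
    have h1 : ((sel f)ᵀ * w * sel f).IsHermitian := by
      unfold Matrix.IsHermitian
      rw [Matrix.conjTranspose_mul, Matrix.conjTranspose_mul, hw.eq]
      simp only [Matrix.conjTranspose_eq_transpose_of_trivial, Matrix.transpose_transpose,
        Matrix.mul_assoc]
    unfold Matrix.IsHermitian at *
    rw [Matrix.conjTranspose_smul, h1, star_trivial]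
  · set y : k → ℝ := fun p => x (f p) with hy
    have e1 : star x ⬝ᵥ ((1 + c • ((sel f)ᵀ * w * sel f)) *ᵥ x)
        = ∑ j, x j ^ 2 + c * ∑ p, ∑ q, w p q * (y p * y q) := by
      have e2 : sel f *ᵥ x = y := by
        funext p
        simp [sel, mulVec, dotProduct, hy]
      rw [Matrix.add_mulVec, Matrix.one_mulVec, Matrix.smul_mulVec, dotProduct_add,
        dotProduct_smul, ← Matrix.mulVec_mulVec, e2, ← Matrix.mulVec_mulVec,
        Matrix.dotProduct_mulVec, Matrix.vecMul_transpose]
      rw [star_trivial, e2]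
      simp only [dotProduct, mulVec, smul_eq_mul, Finset.mul_sum]
      congr 1
      · exact Finset.sum_congr rfl fun j _ => by ring
      · refine Finset.sum_congr rfl fun p _ => Finset.sum_congr rfl fun q _ => by ring
    rw [e1]
    have h1 : |∑ p, ∑ q, w p q * (y p * y q)| ≤ (∑ p, |y p|) ^ 2 := by
      calc |∑ p, ∑ q, w p q * (y p * y q)| ≤ ∑ p, ∑ q, |w p q * (y p * y q)| :=
            (Finset.abs_sum_le_sum_abs _ _).trans
              (Finset.sum_le_sum fun p _ => Finset.abs_sum_le_sum_abs _ _)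
        _ ≤ ∑ p, ∑ q, |y p| * |y q| := by
            refine Finset.sum_le_sum fun p _ => Finset.sum_le_sum fun q _ => ?_
            rw [abs_mul, abs_mul]
            exact mul_le_of_le_one_left (by positivity) (hw1 p q)
        _ = (∑ p, |y p|) ^ 2 := by
            rw [sq, Finset.sum_mul_sum]
    have h2 : (∑ p, |y p|) ^ 2 ≤ Fintype.card k * ∑ p, y p ^ 2 := by
      have := sq_sum_le_card_mul_sum_sq (s := (Finset.univ : Finset k)) (f := fun p => |y p|)
      simpa using this
    have h3 : ∑ p, y p ^ 2 ≤ ∑ j, x j ^ 2 := by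
      have : ∑ p, y p ^ 2 = ∑ j ∈ Finset.univ.image f, x j ^ 2 := by
        rw [Finset.sum_image fun p _ q _ h => hf h]
      rw [this]
      exact Finset.sum_le_sum_of_subset_of_nonneg (Finset.subset_univ _) fun _ _ _ => sq_nonneg _
    have h4 : 0 < ∑ j, x j ^ 2 := by
      obtain ⟨j, hj⟩ := Function.ne_iff.1 hx
      have hj' : 0 < x j ^ 2 := by
        have : x j ≠ 0 := hj
        positivity
      exact lt_of_lt_of_le hj' (Finset.single_le_sum (f := fun j => x j ^ 2)
        (fun _ _ => sq_nonneg _) (Finset.mem_univ j))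
    have h5 : |c * ∑ p, ∑ q, w p q * (y p * y q)| ≤ |c| * (Fintype.card k * ∑ j, x j ^ 2) := by
      rw [abs_mul]
      refine mul_le_mul_of_nonneg_left ?_ (abs_nonneg c)
      refine h1.trans (h2.trans ?_)
      exact mul_le_mul_of_nonneg_left h3 (Nat.cast_nonneg _)
    have h6 := neg_abs_le (c * ∑ p, ∑ q, w p q * (y p * y q))
    have h7 : |c| * (Fintype.card k * ∑ j, x j ^ 2) < ∑ j, x j ^ 2 := by
      rw [← mul_assoc]
      exact mul_lt_of_lt_one_left h4 hc
    linarith

end Sel

end Pool.Agent.H5.W
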