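import Pool.Agent.H5.W.FD

/-!
Moments up to order three of the tilted laws.
-/

open MeasureTheory Filter Topology Matrix

namespace Pool.Agent.H5.W

variable {n : Type*} [Fintype n] [DecidableEq n] {Ω : Type*} [MeasurableSpace Ω]
  {P : Measure Ω} [IsProbabilityMeasure P] {s : ℝ} {X M : Ω → Matrix n n ℝ}

/-- limit of the total masses -/
noncomputable def mass (P : Measure Ω) (M : Ω → Matrix n n ℝ) : ℝ :=
  ∫ ω, Real.exp (-trace (M ω)) ∂P

/-- the rescaled matrix -/
noncomputable def resc (X : Ω → Matrix n n ℝ) (l : ℕ) (ω : Ω) : Matrix n n ℝ :=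
  (1 + ((l : ℝ) + 1)) • X ω

lemma WishLaw.mass_pos (h : WishLaw P s X M) : 0 < mass P M := by
  unfold mass
  have hm : Measurable fun ω => Real.exp (-trace (M ω)) := by
    have := (measurable_trace_mul h.measM 1).neg.exp
    simpa using this
  have hle : ∀ ω, Real.exp (-trace (M ω)) ≤ 1 := fun ω => by
    rw [Real.exp_le_one_iff, neg_nonpos]
    have := trace_mul_nonneg Matrix.PosSemidef.one (h.psdM ω)
    simpa using this
  have hint : Integrable (fun ω => Real.exp (-trace (M ω))) P :=
    Integrable.of_bound (C := 1) hm.aestronglyMeasurable (Eventually.of_forall fun ω => by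
      rw [Real.norm_eq_abs, abs_of_pos (Real.exp_pos _)]
      exact hle ω)
  rw [integral_pos_iff_support_of_nonneg (fun ω => (Real.exp_pos _).le) hint]
  have : Function.support (fun ω => Real.exp (-trace (M ω))) = Set.univ := by
    ext ω
    simp [Real.exp_ne_zero]
  rw [this, measure_univ]
  exact one_pos

lemma WishLaw.lap_sel (h : WishLaw P s X M) {k : ℕ} (hk : k ≤ 3) {f : Fin k → n}
    (hf : Function.Injective f) {w : Matrix (Fin k) (Fin k) ℝ} (hw : w.IsHermitian)
    (hw1 : ∀ p q, |w p q| ≤ 1) :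
    LaplaceLim P (wgt s X) (fun l ω => trace (w * (resc X l ω).submatrix f f)) (1 / 8)
      (fun t => (1 + t • w).det ^ (-s) * mass P M) := by
  have h1 := h.laplaceLim (v := (sel f)ᵀ * w * sel f) (t0 := 1 / 8) (by norm_num) ?_
  · have e1 : (fun t : ℝ => (1 + t • ((sel f)ᵀ * w * sel f)).det ^ (-s) *
        ∫ ω, Real.exp (-trace (M ω)) ∂P) = fun t => (1 + t • w).det ^ (-s) * mass P M := by
      funext t
      rw [det_sel hf]
      rfl
    have e2 : (lin ((sel f)ᵀ * w * sel f) X : ℕ → Ω → ℝ)
        = fun l ω => trace (w * (resc X l ω).submatrix f f) := by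
      funext l ω
      unfold lin resc
      rw [trace_sel, ← smul_eq_mul, ← Matrix.trace_smul, ← Matrix.mul_smul]
      rfl
    rw [e1, e2] at h1
    exact h1
  · intro t ht
    apply posDef_sel hf hw hw1
    rw [abs_mul, abs_two, Fintype.card_fin]
    have : (k : ℝ) ≤ 3 := by exact_mod_cast hk
    have h0 : 0 ≤ |t| := abs_nonneg t
    nlinarith

lemma WishLaw.lap_one (h : WishLaw P s X M) :
    LaplaceLim P (wgt s X) (fun l ω => trace (resc X l ω)) (1 / 8)
      (fun t => ((1 + t) ^ Fintype.card n) ^ (-s) * mass P M) := by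
  have h1 := h.laplaceLim (v := 1) (t0 := 1 / 8) (by norm_num) ?_
  · have e1 : (fun t : ℝ => (1 + t • (1 : Matrix n n ℝ)).det ^ (-s) *
        ∫ ω, Real.exp (-trace (M ω)) ∂P)
        = fun t => ((1 + t) ^ Fintype.card n) ^ (-s) * mass P M := by
      funext t
      have : (1 + t • (1 : Matrix n n ℝ)) = (1 + t) • (1 : Matrix n n ℝ) := by
        rw [add_smul, one_smul]
      rw [this, Matrix.det_smul, Matrix.det_one, mul_one]
      rfl
    have e2 : (lin 1 X : ℕ → Ω → ℝ) = fun l ω => trace (resc X l ω) := by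
      funext l ω
      unfold lin resc
      rw [Matrix.one_mul, Matrix.trace_smul, smul_eq_mul]
    rw [e1, e2] at h1
    exact h1
  · intro t ht
    have : (1 + (2 * t) • (1 : Matrix n n ℝ)) = (1 + 2 * t) • (1 : Matrix n n ℝ) := by
      rw [add_smul, one_smul]
    rw [this]
    refine Matrix.PosDef.one.smul ?_
    have := neg_abs_le t
    linarith

lemma WishLaw.ct_mass (h : WishLaw P s X M) :
    CT P (wgt s X) (fun _ _ => 1) (mass P M) := by
  have h1 := h.lap_one
  refine ⟨fun l => ?_, ?_⟩
  · have := h1.int l 0 (by norm_num)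
    simpa using this
  · have := h1.lim 0 (by norm_num)
    simpa using this

lemma WishLaw.ct_trace (h : WishLaw P s X M) :
    CT P (wgt s X) (fun l ω => trace (resc X l ω)) (Fintype.card n * s * mass P M) := by
  have h1 := h.lap_one.moment_one ((exp3_one (Fintype.card n) s).const_mul (mass P M))
  rw [show -(-(Fintype.card n * s) * mass P M) = Fintype.card n * s * mass P M by ring] at h1
  exact h1

lemma WishLaw.ct_trace_sq (h : WishLaw P s X M) :
    CT P (wgt s X) (fun l ω => trace (resc X l ω) ^ 2)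
      (Fintype.card n * s * (Fintype.card n * s + 1) * mass P M) := by
  have h1 := h.lap_one.moment_two ((exp3_one (Fintype.card n) s).const_mul (mass P M))
  rw [show 2 * (Fintype.card n * s * (Fintype.card n * s + 1) / 2 * mass P M)
    = Fintype.card n * s * (Fintype.card n * s + 1) * mass P M by ring] at h1
  exact h1

lemma WishLaw.ct_diag_cube (h : WishLaw P s X M) (a : n) :
    CT P (wgt s X) (fun l ω => (resc X l ω a a) ^ 3) (s * (s + 1) * (s + 2) * mass P M) := by
  have h1 := h.lap_sel (k := 1) (by norm_num) (f := fun _ => a)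
    (fun i j _ => Subsingleton.elim i j) (w := 1) Matrix.isHermitian_one (fun p q => by
      fin_cases p; fin_cases q; simp)
  have e1 : (fun t : ℝ => (1 + t • (1 : Matrix (Fin 1) (Fin 1) ℝ)).det ^ (-s) * mass P M)
      = fun t => ((1 + t) ^ 1) ^ (-s) * mass P M := by
    funext t
    simp
  rw [e1] at h1
  have h2 := h1.moment_three ((exp3_one 1 s).const_mul (mass P M))
  refine CT.congr (f := fun l ω => trace ((1 : Matrix (Fin 1) (Fin 1) ℝ) *
    (resc X l ω).submatrix (fun _ => a) fun _ => a) ^ 3) h2 (fun l ω => ?_) ?_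
  · simp [Matrix.trace]
  · push_cast; ring

lemma WishLaw.ct_offdiag_sq (h : WishLaw P s X M) {a b : n} (hab : a ≠ b) :
    CT P (wgt s X) (fun l ω => (resc X l ω a b) ^ 2) (s / 2 * mass P M) := by
  have hinj : Function.Injective ![a, b] := by
    intro i j hij
    fin_cases i <;> fin_cases j <;> simp_all
  have h1 := h.lap_sel (k := 2) (by norm_num) (f := ![a, b]) hinj
    (w := !![0, 1; 1, 0]) (by ext i j; fin_cases i <;> fin_cases j <;> simp) (fun p q => by
      fin_cases p <;> fin_cases q <;> simp)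
  have e1 : (fun t : ℝ => (1 + t • (!![0, 1; 1, 0] : Matrix (Fin 2) (Fin 2) ℝ)).det ^ (-s) *
      mass P M) = fun t => (1 - t ^ 2) ^ (-s) * mass P M := by
    funext t
    rw [Matrix.det_fin_two]
    simp [sq]
  rw [e1] at h1
  have h2 := h1.moment_two ((exp3_pair s).const_mul (mass P M))
  have h3 : CT P (wgt s X) (fun l ω => trace ((!![0, 1; 1, 0] : Matrix (Fin 2) (Fin 2) ℝ) *
    (resc X l ω).submatrix ![a, b] ![a, b]) ^ 2) (2 * (s * mass P M)) := h2
  have h4 := h3.const_mul (1 / 4)
  refine h4.congr (fun l ω => ?_) (by ring)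
  have hsymm : resc X l ω b a = resc X l ω a b := by
    have := congrFun (congrFun (h.psdX ω).1 a) b
    simp only [Matrix.conjTranspose_apply, star_trivial] at this
    simp [resc, this]
  have : trace ((!![0, 1; 1, 0] : Matrix (Fin 2) (Fin 2) ℝ) *
    (resc X l ω).submatrix ![a, b] ![a, b]) = 2 * resc X l ω a b := by
    simp only [Matrix.trace, Matrix.diag_apply, Matrix.mul_apply, Matrix.submatrix_apply,
      Fin.sum_univ_two]
    simp [hsymm]
    ring
  rw [this]
  ring

lemma WishLaw.ct_signed (h : WishLaw P s X M) {a b c : n} (hab : a ≠ b) (hbc : b ≠ c)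
    (hca : c ≠ a) {e1 e2 e3 : ℝ} (he1 : e1 = 1 ∨ e1 = -1) (he2 : e2 = 1 ∨ e2 = -1)
    (he3 : e3 = e1 * e2) :
    CT P (wgt s X) (fun l ω => (e1 * resc X l ω a b + e2 * resc X l ω b c +
      e3 * resc X l ω c a) ^ 3) (3 / 2 * s * mass P M) := by
  have hinj : Function.Injective ![a, b, c] := by
    intro i j hij
    fin_cases i <;> fin_cases j <;> simp_all
  have he1' : |e1| = 1 := by rcases he1 with h | h <;> simp [h]
  have he2' : |e2| = 1 := by rcases he2 with h | h <;> simp [h]
  have he3' : |e3| = 1 := by rw [he3, abs_mul, he1', he2', one_mul]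
  have s1 : e1 ^ 2 = 1 := by rcases he1 with h | h <;> simp [h]
  have s2 : e2 ^ 2 = 1 := by rcases he2 with h | h <;> simp [h]
  have h1 := h.lap_sel (k := 3) (by norm_num) (f := ![a, b, c]) hinj
    (w := !![0, e1, e3; e1, 0, e2; e3, e2, 0])
    (by ext i j; fin_cases i <;> fin_cases j <;> simp) (fun p q => by
      fin_cases p <;> fin_cases q <;> simp [he1', he2', he3'])
  have e1' : (fun t : ℝ => (1 + t • (!![0, e1, e3; e1, 0, e2; e3, e2, 0] :
      Matrix (Fin 3) (Fin 3) ℝ)).det ^ (-s) * mass P M)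
      = fun t => (1 - 3 * t ^ 2 + 2 * t ^ 3) ^ (-s) * mass P M := by
    funext t
    rw [Matrix.det_fin_three]
    congr 2
    simp
    rw [he3]
    linear_combination (-t ^ 2 - t ^ 2 * e2 ^ 2 + 2 * t ^ 3 * e2 ^ 2) * s1 +
      (-2 * t ^ 2 + 2 * t ^ 3) * s2
  rw [e1'] at h1
  have h2 := h1.moment_three ((exp3_triple s).const_mul (mass P M))
  have h3 : CT P (wgt s X) (fun l ω => trace ((!![0, e1, e3; e1, 0, e2; e3, e2, 0] :
      Matrix (Fin 3) (Fin 3) ℝ) * (resc X l ω).submatrix ![a, b, c] ![a, b, c]) ^ 3)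
      (-6 * (-2 * s * mass P M)) := h2
  have h4 := h3.const_mul (1 / 8)
  refine h4.congr (fun l ω => ?_) (by ring)
  have hsymm : ∀ i j, resc X l ω i j = resc X l ω j i := by
    intro i j
    have := congrFun (congrFun (h.psdX ω).1 i) j
    simp only [Matrix.conjTranspose_apply, star_trivial] at this
    simp [resc, this]
  have : trace ((!![0, e1, e3; e1, 0, e2; e3, e2, 0] :
      Matrix (Fin 3) (Fin 3) ℝ) * (resc X l ω).submatrix ![a, b, c] ![a, b, c])
      = 2 * (e1 * resc X l ω a b + e2 * resc X l ω b c + e3 * resc X l ω c a) := by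
    simp only [Matrix.trace, Matrix.diag_apply, Matrix.mul_apply, Matrix.submatrix_apply,
      Fin.sum_univ_three]
    simp [hsymm b a, hsymm c b, hsymm a c]
    ring
  rw [this]
  ring

lemma WishLaw.ct_triple (h : WishLaw P s X M) {a b c : n} (hab : a ≠ b) (hbc : b ≠ c)
    (hca : c ≠ a) :
    CT P (wgt s X) (fun l ω => resc X l ω a b * resc X l ω b c * resc X l ω c a)
      (s / 4 * mass P M) := by
  have h1 := h.ct_signed hab hbc hca (e1 := 1) (e2 := 1) (e3 := 1) (Or.inl rfl) (Or.inl rfl)
    (by norm_num)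
  have h2 := h.ct_signed hab hbc hca (e1 := 1) (e2 := -1) (e3 := -1) (Or.inl rfl) (Or.inr rfl)
    (by norm_num)
  have h3 := h.ct_signed hab hbc hca (e1 := -1) (e2 := 1) (e3 := -1) (Or.inr rfl) (Or.inl rfl)
    (by norm_num)
  have h4 := h.ct_signed hab hbc hca (e1 := -1) (e2 := -1) (e3 := 1) (Or.inr rfl) (Or.inr rfl)
    (by norm_num)
  have h5 := (((h1.add h2).add h3).add h4).const_mul (1 / 24)
  exact h5.congr (fun l ω => by ring) (by ring)

end Pool.Agent.H5.W
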