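import Pool.Agent.H5.W.Assemble

/-!
The Wishart parameter of a solution on an infinite-dimensional space is an integer.
-/

open MeasureTheory ProbabilityTheory Filter Topology
open scoped NNReal ENNReal RealInnerProductSpace

namespace Pool.Agent.H5.W

variable {H : Type*} [NormedAddCommGroup H] [InnerProductSpace ℝ H] {Ω : Type*}
  {mΩ : MeasurableSpace Ω} {P : Measure Ω}

lemma integral_exp_of_lintegral {f f' : Ω → ℝ} (hf : Measurable f) (hf' : Measurable f')
    (h : ∫⁻ ω, ENNReal.ofReal (Real.exp (-f ω)) ∂P = ∫⁻ ω, ENNReal.ofReal (Real.exp (-f' ω)) ∂P) :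
    ∫ ω, Real.exp (-f ω) ∂P = ∫ ω, Real.exp (-f' ω) ∂P := by
  have h1 : AEStronglyMeasurable (fun ω => Real.exp (-f ω)) P :=
    (Real.measurable_exp.comp hf.neg).aestronglyMeasurable
  have h2 : AEStronglyMeasurable (fun ω => Real.exp (-f' ω)) P :=
    (Real.measurable_exp.comp hf'.neg).aestronglyMeasurable
  rw [integral_eq_lintegral_of_nonneg_ae (Eventually.of_forall fun _ => (Real.exp_pos _).le) h1,
    integral_eq_lintegral_of_nonneg_ae (Eventually.of_forall fun _ => (Real.exp_pos _).le) h2, h]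

theorem wish_of_solution [CompleteSpace H] [IsProbabilityMeasure P] {T : C0Semigroup H}
    {Q : H →L[ℝ] H} {α : ℝ} {e : HilbertBasis ℕ ℝ H} {F : Filtration ℝ≥0 mΩ}
    {β : ℕ × ℕ → ℝ≥0 → Ω → ℝ} {X : ℝ≥0 → Ω → H →L[ℝ] H} (hinj : Function.Injective Q)
    (hH : ¬ FiniteDimensional ℝ H) (hsol : IsWishartSolution T Q α e P F β X) (N : ℕ) :
    ∃ X' M : Ω → Matrix (Fin N) (Fin N) ℝ, WishLaw P (α / 2) X' M := by
  classical
  obtain ⟨sQ, sX, hsQ, hsX, -⟩ := hsol.equation
  have hQ : Q.IsPositive := hsQ.isPositive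
  have hXpos : ∀ t ω, (X t ω).IsPositive := fun t ω => (hsX t ω).isPositive
  obtain ⟨h, a, hgen, hbil⟩ := exists_test_vectors T hsQ hQ hinj hH N
  have hXm : ∀ t, Measurable (X t) := fun t => (hsol.adapted t).mono (F.le t) le_rfl
  have hm : ∀ (t : ℝ≥0) (u v : H), Measurable fun ω => ⟪X t ω u, v⟫ := by
    intro t u v
    have hc : Continuous fun A : H →L[ℝ] H => ⟪A u, v⟫ := by fun_prop
    exact hc.measurable.comp (hXm t)
  refine ⟨fun ω => Matrix.of fun i j => ⟪X 1 ω (h i), h j⟫,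
    fun ω => Matrix.of fun i j => ⟪X 0 ω (gv T h 0 i), gv T h 0 j⟫, ?_⟩
  refine ⟨fun i j => hm _ _ _, fun i j => hm _ _ _, fun ω => gram_psd (hXpos _ _) _,
    fun ω => gram_psd (hXpos _ _) _, fun u hu => ?_⟩
  have hK : (u⁻¹).PosDef := hu.inv
  have hq := qm_continuous T Q h
  have hqp := qm_psd T hQ h
  have hud : u.det ≠ 0 := hu.det_pos.ne'
  have hudu : IsUnit u.det := isUnit_iff_ne_zero.2 hud
  have hmain := laplace_identity (P := P) hQ hsol hgen hK
  set θi : ℝ := ∫ σ in (0 : ℝ)..1,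
    α * (∑ a, ∑ b, Ui T Q h u⁻¹ σ a b * ⟪Q (gv T h σ a), gv T h σ b⟫) with hθi
  -- the value of the Riccati matrix at the two ends
  have hU1 : Ui T Q h u⁻¹ 1 = u := by
    unfold Ui
    rw [sig_one, Matrix.nonsing_inv_nonsing_inv _ hudu]
  have hsig0 : sig u⁻¹ (qm T Q h) 0 = u⁻¹ + 1 := by
    ext i j
    have := hbil i j
    rw [bil_apply] at this
    simp only [sig, Matrix.of_apply, Matrix.add_apply]
    change u⁻¹ i j + 2 * ∫ r in (0 : ℝ)..1,
      ⟪Q (T.S (1 - r).toNNReal (h i)), T.S (1 - r).toNNReal (h j)⟫ = _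
    rw [this, Matrix.one_apply]
  have hU0 : Ui T Q h u⁻¹ 0 = (u⁻¹ + 1)⁻¹ := by
    unfold Ui
    rw [hsig0]
  -- the two quadratic forms
  have hF1 : ∀ ω, FB (Ui T Q h u⁻¹) (gv T h) (gv T h) (fun s => X s.toNNReal ω) 1 1 =
      Matrix.trace (u * Matrix.of fun i j => ⟪X 1 ω (h i), h j⟫) := by
    intro ω
    rw [FB_eq_trace (hXpos _ _), hU1, Real.toNNReal_one]
    simp only [gv_one]
  have hF0 : ∀ ω, FB (Ui T Q h u⁻¹) (gv T h) (gv T h) (fun s => X s.toNNReal ω) 0 0 =
      Matrix.trace ((u⁻¹ + 1)⁻¹ * Matrix.of fun i j => ⟪X 0 ω (gv T h 0 i), gv T h 0 j⟫) := by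
    intro ω
    rw [FB_eq_trace (hXpos _ _), hU0, Real.toNNReal_zero]
  -- the constant
  have hθ2 : θi = α * ((Real.log (u⁻¹ + 1).det - Real.log (u⁻¹).det) / 2) := by
    rw [hθi, intervalIntegral.integral_const_mul, ← hsig0,
      ← integral_trace_sig hq hqp hK (by norm_num : (0 : ℝ) ≤ 1)]
    congr 1
    refine intervalIntegral.integral_congr fun σ _ => ?_
    simp only [Matrix.trace, Matrix.diag_apply, Matrix.mul_apply]
    refine Finset.sum_congr rfl fun i _ => Finset.sum_congr rfl fun j _ => ?_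
    have : qm T Q h σ j i = ⟪Q (gv T h σ i), gv T h σ j⟫ := by
      change ⟪Q (gv T h σ j), gv T h σ i⟫ = _
      rw [hQ.inner_left_eq_inner_right, real_inner_comm]
    rw [this]
    rfl
  have hdet : (1 + u).det = (u⁻¹ + 1).det / (u⁻¹).det := by
    have h1 : (u⁻¹ + 1) * u = 1 + u := by
      rw [add_mul, Matrix.nonsing_inv_mul _ hudu, one_mul]
    rw [← h1, Matrix.det_mul, Matrix.det_nonsing_inv, Ring.inverse_eq_inv']
    field_simp
  have h1u : 0 < (1 + u).det := (Matrix.PosDef.one.add hu).det_pos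
  have hd1 : 0 < (u⁻¹ + 1).det := (hK.add Matrix.PosDef.one).det_pos
  have hd2 : 0 < (u⁻¹).det := hK.det_pos
  have hexpθ : Real.exp θi = (1 + u).det ^ (α / 2) := by
    rw [Real.rpow_def_of_pos h1u, hdet, Real.log_div hd1.ne' hd2.ne', hθ2]
    congr 1
    ring
  simp_rw [hF1, hF0] at hmain
  have hmt : ∀ (t : ℝ≥0) (v : Matrix (Fin N) (Fin N) ℝ) (g : Fin N → H), Measurable fun ω =>
      Matrix.trace (v * Matrix.of fun i j => ⟪X t ω (g i), g j⟫) := fun t v g =>
    measurable_trace_mul (fun i j => hm t (g i) (g j)) v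
  have hB := integral_exp_of_lintegral (P := P)
    ((hmt 1 u h).sub_const θi) (hmt 0 (u⁻¹ + 1)⁻¹ (gv T h 0)) hmain
  have e1 : ∀ ω, Real.exp (-(Matrix.trace (u * Matrix.of fun i j => ⟪X 1 ω (h i), h j⟫) - θi)) =
      Real.exp θi * Real.exp (-Matrix.trace (u * Matrix.of fun i j => ⟪X 1 ω (h i), h j⟫)) := by
    intro ω
    rw [← Real.exp_add]
    congr 1
    ring
  simp_rw [e1] at hB
  rw [integral_const_mul, hexpθ] at hB
  rw [← hB, ← mul_assoc, ← Real.rpow_add h1u, neg_add_cancel, Real.rpow_zero, one_mul]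

/-- In infinite dimensions the Wishart parameter of a solution is a nonnegative integer. -/
theorem exists_nat_of_solution [CompleteSpace H] [IsProbabilityMeasure P] {T : C0Semigroup H}
    {Q : H →L[ℝ] H} {α : ℝ} {e : HilbertBasis ℕ ℝ H} {F : Filtration ℝ≥0 mΩ}
    {β : ℕ × ℕ → ℝ≥0 → Ω → ℝ} {X : ℝ≥0 → Ω → H →L[ℝ] H} (hinj : Function.Injective Q)
    (hsol : IsWishartSolution T Q α e P F β X) : ∃ k : ℕ, α = k := by
  have hH : ¬ FiniteDimensional ℝ H := by
    intro hfin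
    have h1 : LinearIndependent ℝ (e : ℕ → H) := e.orthonormal.linearIndependent
    have h2 : IsNoetherian ℝ H := inferInstance
    have h3 : Finite ℕ := h1.finite_of_isNoetherian
    exact not_finite ℕ
  obtain ⟨k, hk⟩ := exists_nat_of_wishLaw (P := P) (s := α / 2)
    (fun N => wish_of_solution hinj hH hsol N)
  exact ⟨k, by linarith⟩

end Pool.Agent.H5.W
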