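import Pool.Agent.H5.W.Taylor

/-!
Convergence of moments from convergence of Laplace transforms near zero.
-/

open MeasureTheory Filter Topology Asymptotics

namespace Pool.Agent.H5.W

lemma abs_sinh_sub_le (y : ℝ) : |Real.sinh y - y| ≤ |y| ^ 3 * Real.exp |y| := by
  have h := fun x : ℝ => Complex.norm_exp_sub_sum_le_norm_mul_exp (x : ℂ) 3
  have h' : ∀ x : ℝ, |Real.exp x - (1 + x + x ^ 2 / 2)| ≤ |x| ^ 3 * Real.exp |x| := by
    intro x
    have := h x
    simp only [Finset.sum_range_succ, Finset.sum_range_zero] at this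
    have h2 : Complex.exp x - (0 + (x : ℂ) ^ 0 / (Nat.factorial 0 : ℂ) + (x : ℂ) ^ 1 / (Nat.factorial 1 : ℂ)
        + (x : ℂ) ^ 2 / (Nat.factorial 2 : ℂ)) = ((Real.exp x - (1 + x + x ^ 2 / 2) : ℝ) : ℂ) := by
      push_cast
      simp [Nat.factorial]
    rw [h2, Complex.norm_real, Complex.norm_real, Real.norm_eq_abs, Real.norm_eq_abs] at this
    exact this
  have h1 := h' y
  have h2 := h' (-y)
  rw [abs_neg] at h2
  have h3 : Real.sinh y - y = ((Real.exp y - (1 + y + y ^ 2 / 2)) -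
      (Real.exp (-y) - (1 + -y + (-y) ^ 2 / 2))) / 2 := by
    rw [Real.sinh_eq]
    ring
  rw [h3, abs_div, abs_two]
  have h4 := abs_sub (Real.exp y - (1 + y + y ^ 2 / 2)) (Real.exp (-y) - (1 + -y + (-y) ^ 2 / 2))
  linarith

lemma abs_sinh_le (y : ℝ) : |Real.sinh y| ≤ |y| * Real.exp |y| := by
  have h := fun x : ℝ => Complex.norm_exp_sub_sum_le_norm_mul_exp (x : ℂ) 1
  have h' : ∀ x : ℝ, |Real.exp x - 1| ≤ |x| * Real.exp |x| := by
    intro x
    have := h x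
    simp only [Finset.sum_range_succ, Finset.sum_range_zero] at this
    have h2 : Complex.exp x - (0 + (x : ℂ) ^ 0 / (Nat.factorial 0 : ℂ))
        = ((Real.exp x - 1 : ℝ) : ℂ) := by
      push_cast
      simp [Nat.factorial]
    rw [h2, Complex.norm_real, Complex.norm_real, Real.norm_eq_abs, Real.norm_eq_abs, pow_one] at this
    exact this
  have h1 := h' y
  have h2 := h' (-y)
  rw [abs_neg] at h2
  have h3 : Real.sinh y = ((Real.exp y - 1) - (Real.exp (-y) - 1)) / 2 := by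
    rw [Real.sinh_eq]
    ring
  rw [h3, abs_div, abs_two]
  have h4 := abs_sub (Real.exp y - 1) (Real.exp (-y) - 1)
  linarith

lemma abs_sinh_pow_sub_le (y : ℝ) (k : ℕ) (hk : 1 ≤ k) :
    |Real.sinh y ^ k - y ^ k| ≤ k * |y| ^ (k + 2) * Real.exp (k * |y|) := by
  have h1 := abs_pow_sub_pow_le (Real.sinh y) y k
  have h2 : max |Real.sinh y| |y| ≤ |y| * Real.exp |y| := by
    refine max_le (abs_sinh_le y) ?_
    have : 1 ≤ Real.exp |y| := Real.one_le_exp (abs_nonneg y)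
    nlinarith [abs_nonneg y]
  calc |Real.sinh y ^ k - y ^ k| ≤ |Real.sinh y - y| * k * max |Real.sinh y| |y| ^ (k - 1) := h1
    _ ≤ (|y| ^ 3 * Real.exp |y|) * k * (|y| * Real.exp |y|) ^ (k - 1) := by
        gcongr
        exact abs_sinh_sub_le y
    _ = k * |y| ^ (k + 2) * Real.exp (k * |y|) := by
        obtain ⟨j, rfl⟩ : ∃ j, k = j + 1 := ⟨k - 1, by omega⟩
        simp only [Nat.add_sub_cancel, mul_pow]
        rw [← Real.exp_nat_mul]
        have : Real.exp (((j + 1 : ℕ) : ℝ) * |y|) = Real.exp |y| * Real.exp (j * |y|) := by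
          rw [← Real.exp_add]
          congr 1
          push_cast
          ring
        rw [this]
        ring

lemma pow_le_const_mul_exp {t0 : ℝ} (ht0 : 0 < t0) (k : ℕ) (z : ℝ) :
    |z| ^ k ≤ (k.factorial * (2 / t0) ^ k) * Real.exp (t0 * |z| / 2) := by
  have h := Real.pow_div_factorial_le_exp (t0 * |z| / 2) (by positivity) k
  have hf : (0 : ℝ) < k.factorial := by positivity
  rw [div_le_iff₀ hf] at h
  have h2 : |z| ^ k = (2 / t0) ^ k * (t0 * |z| / 2) ^ k := by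
    rw [← mul_pow]
    congr 1
    field_simp
  rw [h2]
  calc (2 / t0) ^ k * (t0 * |z| / 2) ^ k
      ≤ (2 / t0) ^ k * (Real.exp (t0 * |z| / 2) * k.factorial) := by gcongr
    _ = _ := by ring

lemma exp_abs_le (x : ℝ) : Real.exp |x| ≤ Real.exp x + Real.exp (-x) := by
  rcases abs_cases x with ⟨h, _⟩ | ⟨h, _⟩
  · rw [h]; linarith [Real.exp_pos (-x)]
  · rw [h]; linarith [Real.exp_pos x]

/-- Approximation of powers by exponentials. -/
lemma sinh_pow_approx {t0 : ℝ} (ht0 : 0 < t0) (k : ℕ) (hk : 1 ≤ k) :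
    ∃ C : ℝ, 0 ≤ C ∧ ∀ τ : ℝ, 0 < τ → k * τ ≤ t0 / 2 → ∀ z : ℝ,
      |(Real.sinh (τ * z) / τ) ^ k - z ^ k| ≤
        C * τ ^ 2 * (Real.exp (t0 * z) + Real.exp (-(t0 * z))) := by
  refine ⟨k * ((k + 2).factorial * (2 / t0) ^ (k + 2)), by positivity, ?_⟩
  intro τ hτ hkτ z
  have h1 := abs_sinh_pow_sub_le (τ * z) k hk
  have h2 : (Real.sinh (τ * z) / τ) ^ k - z ^ k
      = (Real.sinh (τ * z) ^ k - (τ * z) ^ k) / τ ^ k := by
    rw [div_pow, mul_pow]
    field_simp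
  rw [h2, abs_div, abs_of_pos (pow_pos hτ k), div_le_iff₀ (pow_pos hτ k)]
  refine h1.trans ?_
  rw [abs_mul, abs_of_pos hτ]
  have h3 : Real.exp (k * (τ * |z|)) ≤ Real.exp (t0 * |z| / 2) := by
    apply Real.exp_le_exp.2
    have := abs_nonneg z
    nlinarith
  have h4 := pow_le_const_mul_exp ht0 (k + 2) z
  have h5 : Real.exp (t0 * |z| / 2) * Real.exp (t0 * |z| / 2) ≤
      Real.exp (t0 * z) + Real.exp (-(t0 * z)) := by
    rw [← Real.exp_add, add_halves]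
    have := exp_abs_le (t0 * z)
    rwa [abs_mul, abs_of_pos ht0] at this
  calc k * (τ * |z|) ^ (k + 2) * Real.exp (k * (τ * |z|))
      = (k * τ ^ (k + 2)) * (|z| ^ (k + 2) * Real.exp (k * (τ * |z|))) := by
        rw [mul_pow]; ring
    _ ≤ (k * τ ^ (k + 2)) * ((((k + 2).factorial * (2 / t0) ^ (k + 2)) *
          Real.exp (t0 * |z| / 2)) * Real.exp (t0 * |z| / 2)) := by gcongr
    _ = (k * τ ^ (k + 2)) * ((k + 2).factorial * (2 / t0) ^ (k + 2)) *
          (Real.exp (t0 * |z| / 2) * Real.exp (t0 * |z| / 2)) := by ring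
    _ ≤ (k * τ ^ (k + 2)) * ((k + 2).factorial * (2 / t0) ^ (k + 2)) *
          (Real.exp (t0 * z) + Real.exp (-(t0 * z))) := by gcongr
    _ = _ := by ring

/-- Convergence of integrals of functions approximable by exponentials. -/
lemma integral_limit {Ω : Type*} [MeasurableSpace Ω] {P : Measure Ω} {ρ Z : ℕ → Ω → ℝ}
    {t0 : ℝ} (ht0 : 0 < t0) {φ : ℝ → ℝ} (hρ : ∀ l ω, 0 ≤ ρ l ω)
    (hρm : ∀ l, Measurable (ρ l)) (hZm : ∀ l, Measurable (Z l))
    (hint : ∀ l t, |t| ≤ t0 → Integrable (fun ω => ρ l ω * Real.exp (-(t * Z l ω))) P)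
    (hlim : ∀ t, |t| ≤ t0 →
      Tendsto (fun l => ∫ ω, ρ l ω * Real.exp (-(t * Z l ω)) ∂P) atTop (𝓝 (φ t)))
    {w : ℝ → ℝ} (hw : Measurable w) {m : ℝ} {ι : Type*} [Fintype ι]
    (happ : ∀ ε > 0, ∃ c t : ι → ℝ, (∀ j, |t j| ≤ t0) ∧
      (∀ z, |∑ j, c j * Real.exp (-(t j * z)) - w z| ≤
        ε * (Real.exp (t0 * z) + Real.exp (-(t0 * z)))) ∧ |∑ j, c j * φ (t j) - m| ≤ ε) :
    (∀ l, Integrable (fun ω => ρ l ω * w (Z l ω)) P) ∧
      Tendsto (fun l => ∫ ω, ρ l ω * w (Z l ω) ∂P) atTop (𝓝 m) := by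
  have hp : |t0| ≤ t0 := by rw [abs_of_pos ht0]
  have hn : |-t0| ≤ t0 := by rw [abs_neg, abs_of_pos ht0]
  have hI : ∀ l, Integrable (fun ω => ρ l ω * (Real.exp (t0 * Z l ω) +
      Real.exp (-(t0 * Z l ω)))) P := by
    intro l
    have h1 := (hint l (-t0) hn).add (hint l t0 hp)
    refine h1.congr (Eventually.of_forall fun ω => ?_)
    simp only [Pi.add_apply, neg_mul, neg_neg]
    ring
  have hS : ∀ (c t : ι → ℝ), (∀ j, |t j| ≤ t0) → ∀ l,
      Integrable (fun ω => ρ l ω * ∑ j, c j * Real.exp (-(t j * Z l ω))) P := by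
    intro c t ht l
    have : (fun ω => ρ l ω * ∑ j, c j * Real.exp (-(t j * Z l ω)))
        = fun ω => ∑ j, c j * (ρ l ω * Real.exp (-(t j * Z l ω))) := by
      funext ω
      rw [Finset.mul_sum]
      exact Finset.sum_congr rfl fun j _ => by ring
    rw [this]
    exact integrable_finsetSum _ fun j _ => (hint l (t j) (ht j)).const_mul _
  have hwI : ∀ l, Integrable (fun ω => ρ l ω * w (Z l ω)) P := by
    intro l
    obtain ⟨c, t, ht, hc, _⟩ := happ 1 one_pos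
    refine Integrable.mono' ((hS c t ht l).abs.add (hI l))
      ((hρm l).mul (hw.comp (hZm l))).aestronglyMeasurable (Eventually.of_forall fun ω => ?_)
    have h1 := hc (Z l ω)
    rw [one_mul] at h1
    simp only [Pi.add_apply, Real.norm_eq_abs, abs_mul, abs_of_nonneg (hρ l ω)]
    rw [← mul_add]
    refine mul_le_mul_of_nonneg_left ?_ (hρ l ω)
    have h2 := abs_sub_abs_le_abs_sub (w (Z l ω)) (∑ j, c j * Real.exp (-(t j * Z l ω)))
    rw [abs_sub_comm] at h2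
    linarith
  refine ⟨hwI, ?_⟩
  -- bound for L(t0) + L(-t0)
  obtain ⟨K, hK⟩ : ∃ K : ℝ, ∀ l, ∫ ω, ρ l ω * (Real.exp (t0 * Z l ω) +
      Real.exp (-(t0 * Z l ω))) ∂P ≤ K := by
    have h1 : Tendsto (fun l => ∫ ω, ρ l ω * (Real.exp (t0 * Z l ω) +
      Real.exp (-(t0 * Z l ω))) ∂P) atTop (𝓝 (φ (-t0) + φ t0)) := by
      refine ((hlim _ hn).add (hlim _ hp)).congr fun l => ?_
      rw [← integral_add (hint l _ hn) (hint l _ hp)]
      refine integral_congr_ae (Eventually.of_forall fun ω => ?_)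
      simp only [neg_mul, neg_neg]
      ring
    obtain ⟨K, hK⟩ := h1.bddAbove_range
    exact ⟨K, fun l => hK ⟨l, rfl⟩⟩
  have hK0 : 0 ≤ K := by
    refine le_trans (integral_nonneg fun ω => ?_) (hK 0)
    exact mul_nonneg (hρ 0 ω) (by positivity)
  rw [Metric.tendsto_atTop]
  intro ε hε
  obtain ⟨c, t, ht, hc, hm⟩ := happ (ε / (3 * (K + 1))) (by positivity)
  have hlimS : Tendsto (fun l => ∫ ω, ρ l ω * ∑ j, c j * Real.exp (-(t j * Z l ω)) ∂P) atTop
      (𝓝 (∑ j, c j * φ (t j))) := by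
    have h1 : Tendsto (fun l => ∑ j, c j * ∫ ω, ρ l ω * Real.exp (-(t j * Z l ω)) ∂P) atTop
      (𝓝 (∑ j, c j * φ (t j))) :=
      tendsto_finsetSum _ fun j _ => (hlim (t j) (ht j)).const_mul _
    refine h1.congr fun l => ?_
    simp_rw [← integral_const_mul]
    rw [← integral_finsetSum _ fun j _ => (hint l (t j) (ht j)).const_mul _]
    refine integral_congr_ae (Eventually.of_forall fun ω => ?_)
    simp only
    rw [Finset.mul_sum]
    exact Finset.sum_congr rfl fun j _ => by ring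
  obtain ⟨N, hN⟩ := Metric.tendsto_atTop.1 hlimS (ε / 3) (by positivity)
  refine ⟨N, fun l hl => ?_⟩
  have h1 := hN l hl
  rw [Real.dist_eq] at h1 ⊢
  have h2 : |(∫ ω, ρ l ω * ∑ j, c j * Real.exp (-(t j * Z l ω)) ∂P) - ∫ ω, ρ l ω * w (Z l ω) ∂P|
      ≤ ε / (3 * (K + 1)) * K := by
    rw [← integral_sub (hS c t ht l) (hwI l)]
    refine (abs_integral_le_integral_abs).trans ?_
    refine le_trans (integral_mono ((hS c t ht l).sub (hwI l)).abs
      ((hI l).const_mul (ε / (3 * (K + 1)))) fun ω => ?_) ?_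
    · simp only
      rw [← mul_sub, abs_mul, abs_of_nonneg (hρ l ω)]
      have := mul_le_mul_of_nonneg_left (hc (Z l ω)) (hρ l ω)
      linarith
    · rw [integral_const_mul]
      exact mul_le_mul_of_nonneg_left (hK l) (by positivity)
  have h3 : ε / (3 * (K + 1)) * K < ε / 3 := by
    rw [div_mul_eq_mul_div, div_lt_div_iff₀ (by positivity) (by norm_num)]
    nlinarith
  have h4 : ε / (3 * (K + 1)) ≤ ε / 3 := by
    apply div_le_div_of_nonneg_left hε.le (by norm_num)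
    linarith
  have h5 : |(∫ ω, ρ l ω * w (Z l ω) ∂P) - m| ≤
      |(∫ ω, ρ l ω * ∑ j, c j * Real.exp (-(t j * Z l ω)) ∂P) - ∫ ω, ρ l ω * w (Z l ω) ∂P| +
      |(∫ ω, ρ l ω * ∑ j, c j * Real.exp (-(t j * Z l ω)) ∂P) - ∑ j, c j * φ (t j)| +
      |∑ j, c j * φ (t j) - m| := by
    have e : (∫ ω, ρ l ω * w (Z l ω) ∂P) - m =
      -((∫ ω, ρ l ω * ∑ j, c j * Real.exp (-(t j * Z l ω)) ∂P) - ∫ ω, ρ l ω * w (Z l ω) ∂P) +
      ((∫ ω, ρ l ω * ∑ j, c j * Real.exp (-(t j * Z l ω)) ∂P) - ∑ j, c j * φ (t j)) +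
      (∑ j, c j * φ (t j) - m) := by ring
    rw [e]
    refine (abs_add_le _ _).trans ?_
    refine add_le_add_left ((abs_add_le _ _).trans ?_) _
    rw [abs_neg]
  linarith

/-- Third order expansion at `0`. -/
def HasExp3 (φ : ℝ → ℝ) (a0 a1 a2 a3 : ℝ) : Prop :=
  (fun t => φ t - (a0 + a1 * t + a2 * t ^ 2 + a3 * t ^ 3)) =O[𝓝 0] fun t => t ^ 4

lemma rem_tendsto {R : ℝ → ℝ} (hR : R =O[𝓝 0] fun t => t ^ 4) (c : ℝ) {k : ℕ} (hk : k ≤ 3) :
    Tendsto (fun τ => R (c * τ) / τ ^ k) (𝓝[>] 0) (𝓝 0) := by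
  have h1 : Tendsto (fun τ : ℝ => c * τ) (𝓝[>] 0) (𝓝 0) := by
    have : Tendsto (fun τ : ℝ => c * τ) (𝓝 0) (𝓝 (c * 0)) :=
      (continuous_const.mul continuous_id).tendsto 0
    rw [mul_zero] at this
    exact this.mono_left nhdsWithin_le_nhds
  have h2 : (fun τ => R (c * τ)) =O[𝓝[>] 0] fun τ => τ ^ 4 := by
    refine (hR.comp_tendsto h1).trans ?_
    have : ((fun t : ℝ => t ^ 4) ∘ fun τ => c * τ) = fun τ => c ^ 4 * τ ^ 4 := by
      funext τ
      simp only [Function.comp_apply]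
      ring
    rw [this]
    exact isBigO_const_mul_self _ _ _
  have h3 : (fun τ => R (c * τ) / τ ^ k) =O[𝓝[>] 0] fun τ => τ ^ 4 / τ ^ k :=
    h2.mul (isBigO_refl (fun τ : ℝ => (τ ^ k)⁻¹) _)
  refine h3.trans_tendsto ?_
  have h4 : Tendsto (fun τ : ℝ => τ ^ (4 - k)) (𝓝[>] 0) (𝓝 0) := by
    have : Tendsto (fun τ : ℝ => τ ^ (4 - k)) (𝓝 0) (𝓝 (0 ^ (4 - k))) :=
      (continuous_pow (4 - k)).tendsto 0
    rw [zero_pow (by omega)] at this
    exact this.mono_left nhdsWithin_le_nhds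
  refine h4.congr' ?_
  filter_upwards [self_mem_nhdsWithin] with τ hτ
  have hτ' : τ ≠ 0 := ne_of_gt hτ
  rw [eq_div_iff (pow_ne_zero _ hτ'), ← pow_add]
  congr 1
  omega

section

variable {Ω : Type*} [MeasurableSpace Ω] {P : Measure Ω} {ρ Z : ℕ → Ω → ℝ}
    {t0 : ℝ} {φ : ℝ → ℝ}

/-- The Laplace transforms of `Z l` under the weights `ρ l` converge to `φ` on `[-t0, t0]`. -/
structure LaplaceLim (P : Measure Ω) (ρ Z : ℕ → Ω → ℝ) (t0 : ℝ) (φ : ℝ → ℝ) : Prop where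
  pos : 0 < t0
  nonneg : ∀ l ω, 0 ≤ ρ l ω
  meas : ∀ l, Measurable (ρ l)
  measZ : ∀ l, Measurable (Z l)
  int : ∀ l t, |t| ≤ t0 → Integrable (fun ω => ρ l ω * Real.exp (-(t * Z l ω))) P
  lim : ∀ t, |t| ≤ t0 →
      Tendsto (fun l => ∫ ω, ρ l ω * Real.exp (-(t * Z l ω)) ∂P) atTop (𝓝 (φ t))

/-- The key reduction: approximate `z ^ k` by `(sinh (τ z) / τ) ^ k`. -/
lemma LaplaceLim.pow_limit (h : LaplaceLim P ρ Z t0 φ) {k : ℕ} (hk : 1 ≤ k) {m : ℝ}
    {ι : Type*} [Fintype ι] (c r : ι → ℝ) (hr : ∀ j, |r j| ≤ k)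
    (hc : ∀ y, ∑ j, c j * Real.exp (-(r j * y)) = Real.sinh y ^ k)
    (hm : Tendsto (fun τ => (∑ j, c j * φ (r j * τ)) / τ ^ k) (𝓝[>] 0) (𝓝 m)) :
    (∀ l, Integrable (fun ω => ρ l ω * Z l ω ^ k) P) ∧
      Tendsto (fun l => ∫ ω, ρ l ω * Z l ω ^ k ∂P) atTop (𝓝 m) := by
  refine integral_limit h.pos h.nonneg h.meas h.measZ h.int h.lim
    (w := fun z => z ^ k) (measurable_id.pow_const k) (ι := ι) ?_
  intro ε hε
  obtain ⟨C, hC0, hC⟩ := sinh_pow_approx h.pos k hk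
  have hk0 : (0 : ℝ) < k := by exact_mod_cast hk
  have e1 : ∀ᶠ τ : ℝ in 𝓝[>] 0, (k : ℝ) * τ ≤ t0 / 2 := by
    have : Tendsto (fun τ : ℝ => (k : ℝ) * τ) (𝓝 0) (𝓝 (k * 0)) :=
      (continuous_const.mul continuous_id).tendsto 0
    rw [mul_zero] at this
    exact (this.mono_left nhdsWithin_le_nhds).eventually_le_const (half_pos h.pos)
  have e2 : ∀ᶠ τ : ℝ in 𝓝[>] 0, C * τ ^ 2 ≤ ε := by
    have : Tendsto (fun τ : ℝ => C * τ ^ 2) (𝓝 0) (𝓝 (C * 0 ^ 2)) :=
      (continuous_const.mul (continuous_pow 2)).tendsto 0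
    rw [zero_pow two_ne_zero, mul_zero] at this
    exact (this.mono_left nhdsWithin_le_nhds).eventually_le_const hε
  have e3 : ∀ᶠ τ : ℝ in 𝓝[>] 0, |(∑ j, c j * φ (r j * τ)) / τ ^ k - m| ≤ ε := by
    have := (Metric.tendsto_nhds.1 hm) ε hε
    filter_upwards [this] with τ hτ
    rw [Real.dist_eq] at hτ
    exact hτ.le
  have e4 : ∀ᶠ τ : ℝ in 𝓝[>] 0, 0 < τ := self_mem_nhdsWithin
  obtain ⟨τ, h1, h2, h3, hτ⟩ := (e1.and (e2.and (e3.and e4))).exists
  refine ⟨fun j => c j / τ ^ k, fun j => r j * τ, fun j => ?_, fun z => ?_, ?_⟩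
  · rw [abs_mul, abs_of_pos hτ]
    have := h.pos
    nlinarith [hr j]
  · have h4 := hC τ hτ h1 z
    have h5 : ∑ j, c j / τ ^ k * Real.exp (-(r j * τ * z)) = (Real.sinh (τ * z) / τ) ^ k := by
      rw [div_pow, ← hc (τ * z), Finset.sum_div]
      refine Finset.sum_congr rfl fun j _ => ?_
      rw [mul_assoc (r j)]
      ring
    rw [h5]
    exact h4.trans (mul_le_mul_of_nonneg_right h2 (by positivity))
  · have h5 : ∑ j, c j / τ ^ k * φ (r j * τ) = (∑ j, c j * φ (r j * τ)) / τ ^ k := by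
      rw [Finset.sum_div]
      exact Finset.sum_congr rfl fun j _ => by ring
    rw [h5]
    exact h3

lemma LaplaceLim.moment_one (h : LaplaceLim P ρ Z t0 φ) {a0 a1 a2 a3 : ℝ}
    (hφ : HasExp3 φ a0 a1 a2 a3) :
    (∀ l, Integrable (fun ω => ρ l ω * Z l ω) P) ∧
      Tendsto (fun l => ∫ ω, ρ l ω * Z l ω ∂P) atTop (𝓝 (-a1)) := by
  have := h.pow_limit (k := 1) le_rfl (m := -a1) (ι := Fin 2) ![1 / 2, -1 / 2] ![-1, 1] ?_ ?_ ?_
  · simpa using this
  · intro j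
    fin_cases j <;> simp
  · intro y
    simp [Fin.sum_univ_two, Real.sinh_eq]
    ring
  · set R : ℝ → ℝ := fun t => φ t - (a0 + a1 * t + a2 * t ^ 2 + a3 * t ^ 3) with hR
    have h1 := rem_tendsto hφ (-1) (k := 1) (by norm_num)
    have h2 := rem_tendsto hφ 1 (k := 1) (by norm_num)
    have h3 : Tendsto (fun τ : ℝ => -a1 - a3 * τ ^ 2) (𝓝[>] 0) (𝓝 (-a1)) := by
      have : Tendsto (fun τ : ℝ => -a1 - a3 * τ ^ 2) (𝓝 0) (𝓝 (-a1 - a3 * 0 ^ 2)) :=
        (Continuous.tendsto (by fun_prop) 0)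
      simp only [ne_eq, OfNat.ofNat_ne_zero, not_false_eq_true, zero_pow, mul_zero,
        sub_zero] at this
      exact this.mono_left nhdsWithin_le_nhds
    have h4 := h3.add ((h1.sub h2).div_const 2)
    rw [sub_zero, zero_div, add_zero] at h4
    refine h4.congr' ?_
    filter_upwards [self_mem_nhdsWithin] with τ hτ
    have hτ' : τ ≠ 0 := ne_of_gt hτ
    simp only [Fin.sum_univ_two, Matrix.cons_val_zero, Matrix.cons_val_one]
    field_simp
    ring

lemma LaplaceLim.moment_two (h : LaplaceLim P ρ Z t0 φ) {a0 a1 a2 a3 : ℝ}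
    (hφ : HasExp3 φ a0 a1 a2 a3) :
    (∀ l, Integrable (fun ω => ρ l ω * Z l ω ^ 2) P) ∧
      Tendsto (fun l => ∫ ω, ρ l ω * Z l ω ^ 2 ∂P) atTop (𝓝 (2 * a2)) := by
  refine h.pow_limit (k := 2) (by norm_num) (m := 2 * a2) (ι := Fin 3) ![1 / 4, -1 / 2, 1 / 4]
    ![-2, 0, 2] ?_ ?_ ?_
  · intro j
    fin_cases j <;> simp
  · intro y
    simp [Fin.sum_univ_three, Real.sinh_eq]
    have e1 : Real.exp (2 * y) = Real.exp y ^ 2 := by rw [← Real.exp_nat_mul]; norm_num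
    have e2 : Real.exp (-(2 * y)) = Real.exp (-y) ^ 2 := by
      rw [← Real.exp_nat_mul]; congr 1; push_cast; ring
    have e3 : Real.exp y * Real.exp (-y) = 1 := by rw [← Real.exp_add]; simp
    rw [e1, e2]
    linear_combination (1/2 : ℝ) * e3
  · have h1 := rem_tendsto hφ (-2) (k := 2) (by norm_num)
    have h2 := rem_tendsto hφ 2 (k := 2) (by norm_num)
    have h0 := rem_tendsto hφ 0 (k := 2) (by norm_num)
    have h4 := ((h1.div_const 4).sub (h0.div_const 2)).add (h2.div_const 4)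
    have h5 := h4.add_const (2 * a2)
    simp only [zero_div, sub_zero, zero_add] at h5
    refine h5.congr' ?_
    filter_upwards [self_mem_nhdsWithin] with τ hτ
    have hτ' : τ ≠ 0 := ne_of_gt hτ
    simp [Fin.sum_univ_three]
    field_simp
    ring

lemma LaplaceLim.moment_three (h : LaplaceLim P ρ Z t0 φ) {a0 a1 a2 a3 : ℝ}
    (hφ : HasExp3 φ a0 a1 a2 a3) :
    (∀ l, Integrable (fun ω => ρ l ω * Z l ω ^ 3) P) ∧
      Tendsto (fun l => ∫ ω, ρ l ω * Z l ω ^ 3 ∂P) atTop (𝓝 (-6 * a3)) := by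
  refine h.pow_limit (k := 3) (by norm_num) (m := -6 * a3) (ι := Fin 4)
    ![1 / 8, -3 / 8, 3 / 8, -1 / 8] ![-3, -1, 1, 3] ?_ ?_ ?_
  · intro j
    fin_cases j <;> simp
  · intro y
    simp [Fin.sum_univ_four, Real.sinh_eq]
    have e1 : Real.exp (3 * y) = Real.exp y ^ 3 := by rw [← Real.exp_nat_mul]; norm_num
    have e2 : Real.exp (-(3 * y)) = Real.exp (-y) ^ 3 := by
      rw [← Real.exp_nat_mul]; congr 1; push_cast; ring
    have e3 : Real.exp y * Real.exp (-y) = 1 := by rw [← Real.exp_add]; simp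
    rw [e1, e2]
    linear_combination (3/8 : ℝ) * (Real.exp y - Real.exp (-y)) * e3
  · have h1 := rem_tendsto hφ (-3) (k := 3) (by norm_num)
    have h2 := rem_tendsto hφ (-1) (k := 3) (by norm_num)
    have h3 := rem_tendsto hφ 1 (k := 3) (by norm_num)
    have h4 := rem_tendsto hφ 3 (k := 3) (by norm_num)
    have h5 := (((h1.div_const 8).sub ((h2.const_mul 3).div_const 8)).add
      ((h3.const_mul 3).div_const 8)).sub (h4.div_const 8)
    have h6 := h5.add_const (-6 * a3)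
    simp only [mul_zero, zero_div, sub_zero, zero_add, add_zero] at h6
    refine h6.congr' ?_
    filter_upwards [self_mem_nhdsWithin] with τ hτ
    have hτ' : τ ≠ 0 := ne_of_gt hτ
    simp [Fin.sum_univ_four]
    field_simp
    ring

end

end Pool.Agent.H5.W
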