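import Pool.Agent.H5.W.Sqrt

/-!
The bracket density, by Parseval.
-/

open MeasureTheory Filter Topology Matrix
open scoped RealInnerProductSpace

namespace Pool.Agent.H5.W

variable {H : Type*} [NormedAddCommGroup H] [InnerProductSpace ℝ H] {N : ℕ}

/-- the integrand of the `(j, k)`-th Brownian motion for the weighted sum of test functions -/
noncomputable def phi (e : HilbertBasis ℕ ℝ H) (U : Matrix (Fin N) (Fin N) ℝ) (R S : H →L[ℝ] H)
    (g : Fin N → H) (p : ℕ × ℕ) : ℝ :=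
  ∑ a, ∑ b, U a b * (⟪R (e p.1), g b⟫ * ⟪S (g a), e p.2⟫ + ⟪R (g a), e p.1⟫ * ⟪S (e p.2), g b⟫)

lemma phi_eq (e : HilbertBasis ℕ ℝ H) {U : Matrix (Fin N) (Fin N) ℝ} (hU : ∀ a b, U a b = U b a)
    {R S : H →L[ℝ] H} (hR : R.IsPositive) (hS : S.IsPositive) (g : Fin N → H) (p : ℕ × ℕ) :
    phi e U R S g p = ∑ a, ∑ b, 2 * U a b * (⟪R (g b), e p.1⟫ * ⟪S (g a), e p.2⟫) := by
  unfold phi
  have h1 : ∀ b, ⟪R (e p.1), g b⟫ = ⟪R (g b), e p.1⟫ := fun b => by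
    rw [hR.inner_left_eq_inner_right, real_inner_comm]
  have h2 : ∀ b, ⟪S (e p.2), g b⟫ = ⟪S (g b), e p.2⟫ := fun b => by
    rw [hS.inner_left_eq_inner_right, real_inner_comm]
  simp_rw [mul_add, Finset.sum_add_distrib]
  have h3 : ∑ a, ∑ b, U a b * (⟪R (g a), e p.1⟫ * ⟪S (e p.2), g b⟫) =
      ∑ a, ∑ b, U a b * (⟪R (g b), e p.1⟫ * ⟪S (g a), e p.2⟫) := by
    rw [Finset.sum_comm]
    refine Finset.sum_congr rfl fun a _ => Finset.sum_congr rfl fun b _ => ?_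
    rw [h2, hU]
  rw [h3, ← Finset.sum_add_distrib]
  refine Finset.sum_congr rfl fun a _ => ?_
  rw [← Finset.sum_add_distrib]
  refine Finset.sum_congr rfl fun b _ => ?_
  rw [h1 b]
  ring

lemma tendsto_parseval (e : HilbertBasis ℕ ℝ H) (x y : H) :
    Tendsto (fun J => ∑ j ∈ Finset.range J, ⟪x, e j⟫ * ⟪y, e j⟫) atTop (𝓝 ⟪x, y⟫) := by
  have h := (e.hasSum_inner_mul_inner x y).tendsto_sum_nat
  refine h.congr fun J => ?_
  refine Finset.sum_congr rfl fun j _ => ?_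
  rw [real_inner_comm y (e j)]

lemma phi_tendsto (e : HilbertBasis ℕ ℝ H) {U : Matrix (Fin N) (Fin N) ℝ}
    (hU : ∀ a b, U a b = U b a) {R S X Q : H →L[ℝ] H} (hR : IsPosSqrt R X) (hS : IsPosSqrt S Q)
    (g : Fin N → H) :
    Tendsto (fun J => (∑ p ∈ Finset.range J ×ˢ Finset.range J, phi e U R S g p ^ 2) / 2) atTop
      (𝓝 (∑ a, ∑ b, ((2 : ℝ) • (U * Matrix.of (fun a b => ⟪Q (g a), g b⟫) * U)) a b *
        ⟪X (g a), g b⟫)) := by
  have hX : ∀ x y, ⟪R x, R y⟫ = ⟪X x, y⟫ := by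
    intro x y
    rw [← hR.2, ContinuousLinearMap.comp_apply, hR.1.inner_left_eq_inner_right (R x) y]
  have hQ : ∀ x y, ⟪S x, S y⟫ = ⟪Q x, y⟫ := by
    intro x y
    rw [← hS.2, ContinuousLinearMap.comp_apply, hS.1.inner_left_eq_inner_right (S x) y]
  have h1 : ∀ J, (∑ p ∈ Finset.range J ×ˢ Finset.range J, phi e U R S g p ^ 2) / 2 =
      ∑ a, ∑ b, ∑ a', ∑ b', 2 * U a b * U a' b' *
        ((∑ j ∈ Finset.range J, ⟪R (g b), e j⟫ * ⟪R (g b'), e j⟫) *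
          (∑ k ∈ Finset.range J, ⟪S (g a), e k⟫ * ⟪S (g a'), e k⟫)) := by
    intro J
    have h2 : ∀ p, phi e U R S g p ^ 2 = ∑ a, ∑ b, ∑ a', ∑ b', 4 * U a b * U a' b' *
        ((⟪R (g b), e p.1⟫ * ⟪R (g b'), e p.1⟫) * (⟪S (g a), e p.2⟫ * ⟪S (g a'), e p.2⟫)) := by
      intro p
      rw [phi_eq e hU hR.1 hS.1, sq, Finset.sum_mul]
      refine Finset.sum_congr rfl fun a _ => ?_
      rw [Finset.sum_mul]
      refine Finset.sum_congr rfl fun b _ => ?_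
      rw [Finset.mul_sum]
      refine Finset.sum_congr rfl fun a' _ => ?_
      rw [Finset.mul_sum]
      refine Finset.sum_congr rfl fun b' _ => ?_
      ring
    simp_rw [h2]
    rw [Finset.sum_comm, Finset.sum_div]
    refine Finset.sum_congr rfl fun a _ => ?_
    rw [Finset.sum_comm, Finset.sum_div]
    refine Finset.sum_congr rfl fun b _ => ?_
    rw [Finset.sum_comm, Finset.sum_div]
    refine Finset.sum_congr rfl fun a' _ => ?_
    rw [Finset.sum_comm, Finset.sum_div]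
    refine Finset.sum_congr rfl fun b' _ => ?_
    rw [← Finset.mul_sum, Finset.sum_product, Finset.sum_mul_sum]
    ring
  simp_rw [h1]
  have h3 : ∑ a, ∑ b, ((2 : ℝ) • (U * Matrix.of (fun a b => ⟪Q (g a), g b⟫) * U)) a b *
        ⟪X (g a), g b⟫ = ∑ a, ∑ b, ∑ a', ∑ b', 2 * U a b * U a' b' *
        (⟪R (g b), R (g b')⟫ * ⟪S (g a), S (g a')⟫) := by
    simp only [Matrix.smul_apply, smul_eq_mul, Matrix.mul_apply, Matrix.of_apply, hX, hQ]
    -- both sides are sums over four indices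
    have e1 : ∀ b b', (2 * ∑ a', (∑ a, U b a * ⟪Q (g a), g a'⟫) * U a' b') * ⟪X (g b), g b'⟫ =
        ∑ a, ∑ a', 2 * U a b * U a' b' * (⟪X (g b), g b'⟫ * ⟪Q (g a), g a'⟫) := by
      intro b b'
      rw [Finset.mul_sum, Finset.sum_mul, Finset.sum_comm]
      refine Finset.sum_congr rfl fun a' _ => ?_
      rw [Finset.sum_mul, Finset.mul_sum, Finset.sum_mul]
      refine Finset.sum_congr rfl fun a _ => ?_
      rw [hU b a]
      ring
    simp_rw [e1]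
    rw [Finset.sum_comm]
    calc ∑ b', ∑ b, ∑ a, ∑ a', 2 * U a b * U a' b' * (⟪X (g b), g b'⟫ * ⟪Q (g a), g a'⟫)
        = ∑ b, ∑ b', ∑ a, ∑ a', 2 * U a b * U a' b' * (⟪X (g b), g b'⟫ * ⟪Q (g a), g a'⟫) :=
          Finset.sum_comm
      _ = ∑ b, ∑ a, ∑ b', ∑ a', 2 * U a b * U a' b' * (⟪X (g b), g b'⟫ * ⟪Q (g a), g a'⟫) :=
          Finset.sum_congr rfl fun b _ => Finset.sum_comm
      _ = ∑ a, ∑ b, ∑ b', ∑ a', 2 * U a b * U a' b' * (⟪X (g b), g b'⟫ * ⟪Q (g a), g a'⟫) :=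
          Finset.sum_comm
      _ = _ := Finset.sum_congr rfl fun a _ => Finset.sum_congr rfl fun b _ => Finset.sum_comm
  rw [h3]
  refine tendsto_finsetSum _ fun a _ => tendsto_finsetSum _ fun b _ =>
    tendsto_finsetSum _ fun a' _ => tendsto_finsetSum _ fun b' _ => ?_
  exact ((tendsto_parseval e _ _).mul (tendsto_parseval e _ _)).const_mul _

end Pool.Agent.H5.W
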