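import Pool.Agent.H5.W.FB
import Pool.Agent.H5.W.Parseval
import Pool.Agent.H5.W.ExpLim

/-!
The martingale part of the weighted sum.
-/

open MeasureTheory ProbabilityTheory Filter Topology
open scoped NNReal ENNReal RealInnerProductSpace

namespace Pool.Agent.H5.W

variable {H : Type*} [NormedAddCommGroup H] [InnerProductSpace ℝ H] {N : ℕ} {Ω : Type*}
  {mΩ : MeasurableSpace Ω} {P : Measure Ω}

/-- martingale part of the weighted sum -/
noncomputable def NN (Q : H →L[ℝ] H) (α : ℝ) (U : ℝ → Matrix (Fin N) (Fin N) ℝ)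
    (g g' : ℝ → Fin N → H) (X : ℝ≥0 → Ω → H →L[ℝ] H) (r : ℝ) (t : ℝ≥0) (ω : Ω) : ℝ :=
  ∑ a, ∑ b, U r a b * (⟪X t ω (g r a), g r b⟫ - ⟪X 0 ω (g r a), g r b⟫ -
    ∫ s in (0 : ℝ)..t, (α * ⟪Q (g r a), g r b⟫ + ⟪X s.toNNReal ω (g' r a), g r b⟫ +
      ⟪X s.toNNReal ω (g r a), g' r b⟫))

lemma approx_NN {T : C0Semigroup H} {Q sQ : H →L[ℝ] H} {α : ℝ} {e : HilbertBasis ℕ ℝ H}
    {β : ℕ × ℕ → ℝ≥0 → Ω → ℝ} {X sX : ℝ≥0 → Ω → H →L[ℝ] H}
    (heq : ∀ g h Ag Ah, T.IsGen g Ag → T.IsGen h Ah →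
      ∃ I₁ I₂ : ℝ≥0 → Ω → ℝ,
        IsItoIntegral P β (fun p t ω => ⟪sX t ω (e p.1), h⟫ * ⟪sQ g, e p.2⟫) I₁ ∧
        IsItoIntegral P β (fun p t ω => ⟪sX t ω g, e p.1⟫ * ⟪sQ (e p.2), h⟫) I₂ ∧
        ∀ᵐ ω ∂P, ∀ t : ℝ≥0, ⟪X t ω g, h⟫ = ⟪X 0 ω g, h⟫ +
          (∫ s in (0 : ℝ)..t, (α * ⟪Q g, h⟫ + ⟪X s.toNNReal ω Ag, h⟫ +
            ⟪X s.toNNReal ω g, Ah⟫)) + I₁ t ω + I₂ t ω)
    (U : ℝ → Matrix (Fin N) (Fin N) ℝ) {g g' : ℝ → Fin N → H}
    (hgen : ∀ r a, T.IsGen (g r a) (g' r a)) (r : ℝ) :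
    Approx P (fun J n t ω => ∑ p ∈ Finset.range J ×ˢ Finset.range J,
      riemannSum (fun t ω => phi e (U r) (sX t ω) sQ (g r) p) (β p) n t ω)
      (NN Q α U g g' X r) := by
  have hab : ∀ a b, Approx P (fun J n t ω =>
      ∑ p ∈ Finset.range J ×ˢ Finset.range J,
        riemannSum (fun t ω => ⟪sX t ω (e p.1), g r b⟫ * ⟪sQ (g r a), e p.2⟫) (β p) n t ω +
      ∑ p ∈ Finset.range J ×ˢ Finset.range J,
        riemannSum (fun t ω => ⟪sX t ω (g r a), e p.1⟫ * ⟪sQ (e p.2), g r b⟫) (β p) n t ω)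
      (fun t ω => ⟪X t ω (g r a), g r b⟫ - ⟪X 0 ω (g r a), g r b⟫ -
    ∫ s in (0 : ℝ)..t, (α * ⟪Q (g r a), g r b⟫ + ⟪X s.toNNReal ω (g' r a), g r b⟫ +
      ⟪X s.toNNReal ω (g r a), g' r b⟫)) := by
    intro a b
    obtain ⟨I₁, I₂, h1, h2, h3⟩ := heq (g r a) (g r b) (g' r a) (g' r b) (hgen r a) (hgen r b)
    refine (h1.approx.add h2.approx).congr_ae ?_
    filter_upwards [h3] with ω h t _
    rw [h t]
    ring
  have hs := Approx.sum Finset.univ (fun a _ => Approx.sum Finset.univ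
    (fun b _ => (hab a b).const_mul (U r a b)))
  have e1 : (fun (J n : ℕ) (t : ℝ≥0) (ω : Ω) => ∑ p ∈ Finset.range J ×ˢ Finset.range J,
      riemannSum (fun t ω => phi e (U r) (sX t ω) sQ (g r) p) (β p) n t ω) =
      (fun (J n : ℕ) (t : ℝ≥0) (ω : Ω) => ∑ a, ∑ b, U r a b *
        (∑ p ∈ Finset.range J ×ˢ Finset.range J,
        riemannSum (fun t ω => ⟪sX t ω (e p.1), g r b⟫ * ⟪sQ (g r a), e p.2⟫) (β p) n t ω +
      ∑ p ∈ Finset.range J ×ˢ Finset.range J,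
        riemannSum (fun t ω => ⟪sX t ω (g r a), e p.1⟫ * ⟪sQ (e p.2), g r b⟫) (β p) n t ω)) := by
    funext J n t ω
    have e2 : ∀ p, riemannSum (fun t ω => phi e (U r) (sX t ω) sQ (g r) p) (β p) n t ω =
        ∑ a, ∑ b, U r a b *
        (riemannSum (fun t ω => ⟪sX t ω (e p.1), g r b⟫ * ⟪sQ (g r a), e p.2⟫) (β p) n t ω +
        riemannSum (fun t ω => ⟪sX t ω (g r a), e p.1⟫ * ⟪sQ (e p.2), g r b⟫) (β p) n t ω) := by
      intro p
      unfold phi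
      rw [riemannSum_sum]
      refine Finset.sum_congr rfl fun a _ => ?_
      rw [riemannSum_sum]
      refine Finset.sum_congr rfl fun b _ => ?_
      rw [riemannSum_const_mul, riemannSum_add]
    simp_rw [e2]
    rw [Finset.sum_comm]
    refine Finset.sum_congr rfl fun a _ => ?_
    rw [Finset.sum_comm]
    refine Finset.sum_congr rfl fun b _ => ?_
    rw [← Finset.mul_sum, Finset.sum_add_distrib]
  rw [e1]
  exact hs

lemma NN_eq (Q : H →L[ℝ] H) (α : ℝ) (U : ℝ → Matrix (Fin N) (Fin N) ℝ)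
    (g g' : ℝ → Fin N → H) {X : ℝ≥0 → Ω → H →L[ℝ] H} {ω : Ω} (hX : Continuous fun t => X t ω)
    (r : ℝ) (t : ℝ≥0) :
    NN Q α U g g' X r t ω = FB U g g (fun s => X s.toNNReal ω) r t -
      FB U g g (fun s => X s.toNNReal ω) r 0 - ∫ s in (0 : ℝ)..t,
        (α * (∑ a, ∑ b, U r a b * ⟪Q (g r a), g r b⟫) +
          (FB U g' g (fun s => X s.toNNReal ω) r s + FB U g g' (fun s => X s.toNNReal ω) r s)) := by
  have hx : Continuous fun s : ℝ => X s.toNNReal ω := hX.comp continuous_real_toNNReal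
  have hc : ∀ u v : H, Continuous fun s : ℝ => ⟪X s.toNNReal ω u, v⟫ := fun u v =>
    (hx.clm_apply continuous_const).inner continuous_const
  have e1 : ∀ s : ℝ, (α * (∑ a, ∑ b, U r a b * ⟪Q (g r a), g r b⟫) +
          (FB U g' g (fun s => X s.toNNReal ω) r s + FB U g g' (fun s => X s.toNNReal ω) r s)) =
      ∑ a, ∑ b, U r a b * (α * ⟪Q (g r a), g r b⟫ + ⟪X s.toNNReal ω (g' r a), g r b⟫ +
      ⟪X s.toNNReal ω (g r a), g' r b⟫) := by
    intro s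
    unfold FB
    rw [Finset.mul_sum, ← Finset.sum_add_distrib, ← Finset.sum_add_distrib]
    refine Finset.sum_congr rfl fun a _ => ?_
    rw [Finset.mul_sum, ← Finset.sum_add_distrib, ← Finset.sum_add_distrib]
    refine Finset.sum_congr rfl fun b _ => ?_
    ring
  have hcc : ∀ a b, Continuous fun s : ℝ => U r a b * (α * ⟪Q (g r a), g r b⟫ +
      ⟪X s.toNNReal ω (g' r a), g r b⟫ + ⟪X s.toNNReal ω (g r a), g' r b⟫) := fun a b =>
    continuous_const.mul ((continuous_const.add (hc _ _)).add (hc _ _))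
  have hI : (∫ s in (0 : ℝ)..t, ∑ a, ∑ b, U r a b * (α * ⟪Q (g r a), g r b⟫ +
      ⟪X s.toNNReal ω (g' r a), g r b⟫ + ⟪X s.toNNReal ω (g r a), g' r b⟫)) =
      ∑ a, ∑ b, U r a b * ∫ s in (0 : ℝ)..t, (α * ⟪Q (g r a), g r b⟫ +
      ⟪X s.toNNReal ω (g' r a), g r b⟫ + ⟪X s.toNNReal ω (g r a), g' r b⟫) := by
    rw [intervalIntegral.integral_finsetSum (fun a _ => Continuous.intervalIntegrable
      (continuous_finsetSum _ fun b _ => hcc a b) _ _)]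
    refine Finset.sum_congr rfl fun a _ => ?_
    rw [intervalIntegral.integral_finsetSum (fun b _ => Continuous.intervalIntegrable
      (hcc a b) _ _)]
    refine Finset.sum_congr rfl fun b _ => ?_
    rw [intervalIntegral.integral_const_mul]
  rw [intervalIntegral.integral_congr (g := fun s => ∑ a, ∑ b, U r a b *
    (α * ⟪Q (g r a), g r b⟫ + ⟪X s.toNNReal ω (g' r a), g r b⟫ +
      ⟪X s.toNNReal ω (g r a), g' r b⟫)) (fun s _ => e1 s), hI]
  unfold NN FB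
  rw [← Finset.sum_sub_distrib, ← Finset.sum_sub_distrib]
  refine Finset.sum_congr rfl fun a _ => ?_
  rw [← Finset.sum_sub_distrib, ← Finset.sum_sub_distrib]
  refine Finset.sum_congr rfl fun b _ => ?_
  simp only [Real.toNNReal_coe, Real.toNNReal_zero]
  ring

end Pool.Agent.H5.W
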