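import Pool.Agent.H5.W.Defs

/-!
Basic facts on strongly continuous semigroups.
-/

open MeasureTheory Filter Topology
open scoped NNReal ENNReal RealInnerProductSpace

namespace Pool.Agent.H5.W

variable {H : Type*} [NormedAddCommGroup H] [InnerProductSpace ℝ H] (T : C0Semigroup H)

namespace C0Semigroup

lemma S_zero_apply (x : H) : T.S 0 x = x := by rw [T.zero]; rfl

lemma S_add_apply (s t : ℝ≥0) (x : H) : T.S (s + t) x = T.S s (T.S t x) := by
  rw [T.add]; rfl

variable {T}

lemma IsGen.zero : T.IsGen 0 0 := by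
  unfold IsGen
  simp

lemma IsGen.add {g g' a a' : H} (h : T.IsGen g a) (h' : T.IsGen g' a') :
    T.IsGen (g + g') (a + a') := by
  unfold IsGen at *
  refine (Tendsto.add h h').congr fun t => ?_
  rw [map_add, ← smul_add]
  congr 1
  abel

lemma IsGen.smul {g a : H} (c : ℝ) (h : T.IsGen g a) : T.IsGen (c • g) (c • a) := by
  unfold IsGen at *
  refine (h.const_smul c).congr fun t => ?_
  rw [map_smul, ← smul_sub, smul_comm]

lemma IsGen.apply {g a : H} (t : ℝ≥0) (h : T.IsGen g a) : T.IsGen (T.S t g) (T.S t a) := by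
  unfold IsGen at *
  refine (((T.S t).continuous.tendsto a).comp h).congr fun s => ?_
  simp only [Function.comp_apply]
  rw [map_smul, map_sub, ← T.S_add_apply, ← T.S_add_apply, add_comm s t]

lemma tendsto_coe_nhdsNE : Tendsto (fun s : ℝ≥0 => (s : ℝ)) (𝓝[≠] 0) (𝓝[>] 0) := by
  refine tendsto_nhdsWithin_iff.2 ⟨?_, ?_⟩
  · exact (NNReal.continuous_coe.tendsto 0).mono_left nhdsWithin_le_nhds
  · filter_upwards [self_mem_nhdsWithin] with s hs
    exact NNReal.coe_pos.2 (pos_iff_ne_zero.2 hs)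

lemma tendsto_toNNReal_nhdsGT : Tendsto Real.toNNReal (𝓝[>] 0) (𝓝[≠] 0) := by
  refine tendsto_nhdsWithin_iff.2 ⟨?_, ?_⟩
  · have := (continuous_real_toNNReal.tendsto 0).mono_left
      (nhdsWithin_le_nhds (s := Set.Ioi (0 : ℝ)))
    simpa using this
  · filter_upwards [self_mem_nhdsWithin] with s hs
    exact (Real.toNNReal_pos.2 hs).ne'

/-- continuity in real time -/
lemma continuous_toNNReal (T : C0Semigroup H) (x : H) :
    Continuous fun t : ℝ => T.S t.toNNReal x :=
  (T.cont x).comp continuous_real_toNNReal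

lemma IsGen.hasDerivWithinAt {g a : H} (h : T.IsGen g a) {t : ℝ} (ht : 0 ≤ t) :
    HasDerivWithinAt (fun t : ℝ => T.S t.toNNReal g) (T.S t.toNNReal a) (Set.Ioi t) t := by
  rw [hasDerivWithinAt_iff_tendsto_slope' (by simp)]
  have h1 := h.apply t.toNNReal
  unfold IsGen at h1
  have h2 : Tendsto (fun s : ℝ => (s - t)) (𝓝[>] t) (𝓝[>] 0) := by
    refine tendsto_nhdsWithin_iff.2 ⟨?_, ?_⟩
    · have : Tendsto (fun s : ℝ => s - t) (𝓝 t) (𝓝 (t - t)) :=
        (continuous_id.sub continuous_const).tendsto t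
      rw [sub_self] at this
      exact this.mono_left nhdsWithin_le_nhds
    · filter_upwards [self_mem_nhdsWithin] with s hs
      exact Set.mem_Ioi.2 (sub_pos.2 (Set.mem_Ioi.1 hs))
  have h3 := h1.comp (tendsto_toNNReal_nhdsGT.comp h2)
  refine h3.congr' ?_
  filter_upwards [self_mem_nhdsWithin] with s hs
  have hs' : 0 ≤ s - t := (sub_pos.2 (Set.mem_Ioi.1 hs)).le
  simp only [Function.comp_apply, slope, vsub_eq_sub]
  rw [Real.coe_toNNReal _ hs', ← T.S_add_apply, ← Real.toNNReal_add hs' ht]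
  rw [sub_add_cancel]

lemma IsGen.integral {g a : H} [CompleteSpace H] (h : T.IsGen g a) {s t : ℝ} (hs : 0 ≤ s)
    (hst : s ≤ t) :
    ∫ r in s..t, T.S r.toNNReal a = T.S t.toNNReal g - T.S s.toNNReal g := by
  refine intervalIntegral.integral_eq_sub_of_hasDeriv_right
    (f := fun t : ℝ => T.S t.toNNReal g) (T.continuous_toNNReal g).continuousOn
    (fun x hx => ?_) ((T.continuous_toNNReal a).intervalIntegrable _ _)
  rw [min_eq_left hst] at hx
  exact h.hasDerivWithinAt (hs.trans hx.1.le)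

lemma IsGen.hasDerivAt {g a : H} [CompleteSpace H] (h : T.IsGen g a) {t : ℝ} (ht : 0 < t) :
    HasDerivAt (fun t : ℝ => T.S t.toNNReal g) (T.S t.toNNReal a) t := by
  have h1 : HasDerivAt (fun u : ℝ => g + ∫ r in (0 : ℝ)..u, T.S r.toNNReal a)
      (T.S t.toNNReal a) t := by
    refine HasDerivAt.const_add _ ?_
    exact intervalIntegral.integral_hasDerivAt_right
      ((T.continuous_toNNReal a).intervalIntegrable _ _)
      ((T.continuous_toNNReal a).stronglyMeasurableAtFilter _ _)
      (T.continuous_toNNReal a).continuousAt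
  refine h1.congr_of_eventuallyEq ?_
  filter_upwards [lt_mem_nhds ht] with u hu
  rw [h.integral le_rfl hu.le]
  simp [T.S_zero_apply]

/-- The domain of the generator. -/
def dom (T : C0Semigroup H) : Submodule ℝ H where
  carrier := {g | ∃ a, T.IsGen g a}
  add_mem' := by
    rintro g g' ⟨a, ha⟩ ⟨a', ha'⟩
    exact ⟨_, ha.add ha'⟩
  zero_mem' := ⟨0, IsGen.zero⟩
  smul_mem' := by
    rintro c g ⟨a, ha⟩
    exact ⟨_, ha.smul c⟩

lemma isGen_integral [CompleteSpace H] (T : C0Semigroup H) (x : H) {t : ℝ} (ht : 0 ≤ t) :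
    T.IsGen (∫ r in (0 : ℝ)..t, T.S r.toNNReal x) (T.S t.toNNReal x - x) := by
  have hc := T.continuous_toNNReal x
  set Φ : ℝ → H := fun y => ∫ r in (0 : ℝ)..y, T.S r.toNNReal x with hΦ
  have hΦd : ∀ y, HasDerivAt Φ (T.S y.toNNReal x) y := fun y =>
    intervalIntegral.integral_hasDerivAt_right (hc.intervalIntegrable _ _)
      (hc.stronglyMeasurableAtFilter _ _) hc.continuousAt
  have hslope : ∀ y, Tendsto (fun s : ℝ => s⁻¹ • (Φ (y + s) - Φ y)) (𝓝[>] 0)
      (𝓝 (T.S y.toNNReal x)) := by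
    intro y
    exact (hΦd y).tendsto_slope_zero_right
  have h1 : Tendsto (fun s : ℝ => s⁻¹ • (Φ (t + s) - Φ t) - s⁻¹ • (Φ (0 + s) - Φ 0)) (𝓝[>] 0)
      (𝓝 (T.S t.toNNReal x - T.S (0 : ℝ).toNNReal x)) := (hslope t).sub (hslope 0)
  have h2 := h1.comp tendsto_coe_nhdsNE
  unfold IsGen
  rw [Real.toNNReal_zero, T.S_zero_apply] at h2
  refine h2.congr fun s => ?_
  simp only [Function.comp_apply]
  rw [← smul_sub]
  congr 1
  have h3 : T.S s (Φ t) = Φ (t + s) - Φ s := by
    simp only [hΦ]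
    rw [← ContinuousLinearMap.intervalIntegral_comp_comm _ (hc.intervalIntegrable _ _)]
    have h4 : ∫ r in (0 : ℝ)..t, T.S s (T.S r.toNNReal x)
        = ∫ r in (0 : ℝ)..t, T.S (r + s).toNNReal x := by
      refine intervalIntegral.integral_congr fun r hr => ?_
      rw [Set.uIcc_of_le ht] at hr
      change T.S s (T.S r.toNNReal x) = T.S (r + s).toNNReal x
      rw [← T.S_add_apply, Real.toNNReal_add hr.1 (NNReal.coe_nonneg s), add_comm s]
      simp
    rw [h4, intervalIntegral.integral_comp_add_right (fun r : ℝ => T.S r.toNNReal x), zero_add]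
    rw [intervalIntegral.integral_interval_sub_left (hc.intervalIntegrable _ _)
      (hc.intervalIntegrable _ _)]
  rw [h3, zero_add]
  have : Φ 0 = 0 := by simp [hΦ]
  rw [this]
  simp only [hΦ]
  abel

lemma dense_dom [CompleteSpace H] (T : C0Semigroup H) : Dense (T.dom : Set H) := by
  intro x
  have hc := T.continuous_toNNReal x
  have h1 : HasDerivAt (fun y : ℝ => ∫ r in (0 : ℝ)..y, T.S r.toNNReal x)
      (T.S (0 : ℝ).toNNReal x) 0 :=
    intervalIntegral.integral_hasDerivAt_right (hc.intervalIntegrable _ _)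
      (hc.stronglyMeasurableAtFilter _ _) hc.continuousAt
  have h2 := h1.tendsto_slope_zero_right
  rw [Real.toNNReal_zero, T.S_zero_apply] at h2
  refine mem_closure_of_tendsto h2 ?_
  filter_upwards [self_mem_nhdsWithin] with s hs
  simp only [zero_add, intervalIntegral.integral_same, sub_zero]
  exact T.dom.smul_mem _ ⟨_, T.isGen_integral x (le_of_lt hs)⟩

lemma not_finiteDimensional_dom [CompleteSpace H] (T : C0Semigroup H)
    (hH : ¬ FiniteDimensional ℝ H) : ¬ FiniteDimensional ℝ T.dom := by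
  intro hfin
  apply hH
  have h1 : IsClosed (T.dom : Set H) := T.dom.closed_of_finiteDimensional
  have h2 : (T.dom : Set H) = Set.univ := by
    rw [← h1.closure_eq]
    exact T.dense_dom.closure_eq
  have h3 : T.dom = ⊤ := by
    rw [← SetLike.coe_set_eq, h2]
    rfl
  rw [h3] at hfin
  exact LinearEquiv.finiteDimensional (Submodule.topEquiv (R := ℝ) (M := H))

end C0Semigroup

end Pool.Agent.H5.W
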