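import Pool.Agent.H5.W.Defs

/-!
Continuity of the positive square root.
-/

open MeasureTheory Filter Topology
open scoped NNReal ENNReal RealInnerProductSpace

namespace Pool.Agent.H5.W

variable {H : Type*} [NormedAddCommGroup H] [InnerProductSpace ℝ H]

lemma sqrt_aux {R S : H →L[ℝ] H} (hR : R.IsPositive) (hS : S.IsPositive) (x : H)
    (hx : ‖x‖ = 1) :
    ⟪(R - S) x, x⟫ ^ 2 ≤ ‖R.comp R - S.comp S‖ +
      (‖R‖ + ‖S‖) * Real.sqrt (‖R - S‖ ^ 2 - ⟪(R - S) x, x⟫ ^ 2) := by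
  set l : ℝ := ⟪(R - S) x, x⟫ with hl
  set C := ‖R.comp R - S.comp S‖
  have hr : 0 ≤ ⟪R x, x⟫ := hR.inner_nonneg_left x
  have hs : 0 ≤ ⟪S x, x⟫ := hS.inner_nonneg_left x
  have hl' : l = ⟪R x, x⟫ - ⟪S x, x⟫ := by
    rw [hl, sub_apply, inner_sub_left]
  set y := (R - S) x - l • x with hy
  have hxx : ⟪x, x⟫ = 1 := by rw [real_inner_self_eq_norm_sq, hx]; norm_num
  have hynorm : ‖y‖ ^ 2 = ‖(R - S) x‖ ^ 2 - l ^ 2 := by
    rw [← real_inner_self_eq_norm_sq, hy, inner_sub_left, inner_sub_right, inner_sub_right,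
      real_inner_smul_left, real_inner_smul_right, real_inner_smul_left, real_inner_smul_right,
      hxx, real_inner_comm ((R - S) x) x, ← hl, real_inner_self_eq_norm_sq]
    ring
  have hDx : ‖(R - S) x‖ ≤ ‖R - S‖ := by
    have := (R - S).le_opNorm x
    rwa [hx, mul_one] at this
  have hy' : ‖y‖ ≤ Real.sqrt (‖R - S‖ ^ 2 - l ^ 2) := by
    apply Real.le_sqrt_of_sq_le
    rw [hynorm]
    have : ‖(R - S) x‖ ^ 2 ≤ ‖R - S‖ ^ 2 := by gcongr
    linarith
  have hid : ⟪(R.comp R - S.comp S) x, x⟫ = ⟪(R - S) x, R x⟫ + ⟪S x, (R - S) x⟫ := by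
    have e1 : ⟪R (R x), x⟫ = ⟪R x, R x⟫ := hR.inner_left_eq_inner_right _ _
    have e2 : ⟪S (S x), x⟫ = ⟪S x, S x⟫ := hS.inner_left_eq_inner_right _ _
    simp only [sub_apply, ContinuousLinearMap.comp_apply, inner_sub_left,
      inner_sub_right]
    rw [e1, e2]
    ring
  have hDe : (R - S) x = l • x + y := by rw [hy]; abel
  have hid2 : ⟪(R.comp R - S.comp S) x, x⟫ = l * (⟪R x, x⟫ + ⟪S x, x⟫) + (⟪y, R x⟫ + ⟪S x, y⟫) := by
    rw [hid, hDe, inner_add_left, inner_add_right, real_inner_smul_left, real_inner_smul_right,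
      real_inner_comm (R x) x]
    ring
  have hbound : |⟪(R.comp R - S.comp S) x, x⟫| ≤ C := by
    refine (abs_real_inner_le_norm _ _).trans ?_
    rw [hx, mul_one]
    have := (R.comp R - S.comp S).le_opNorm x
    rwa [hx, mul_one] at this
  have hRx : ‖R x‖ ≤ ‖R‖ := by
    have := R.le_opNorm x
    rwa [hx, mul_one] at this
  have hSx : ‖S x‖ ≤ ‖S‖ := by
    have := S.le_opNorm x
    rwa [hx, mul_one] at this
  have h1 : |⟪y, R x⟫ + ⟪S x, y⟫| ≤ (‖R‖ + ‖S‖) * ‖y‖ := by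
    refine (abs_add_le _ _).trans ?_
    have a1 := abs_real_inner_le_norm y (R x)
    have a2 := abs_real_inner_le_norm (S x) y
    have a3 : ‖y‖ * ‖R x‖ ≤ ‖y‖ * ‖R‖ := by gcongr
    have a4 : ‖S x‖ * ‖y‖ ≤ ‖S‖ * ‖y‖ := by gcongr
    nlinarith
  have h2 : |l * (⟪R x, x⟫ + ⟪S x, x⟫)| ≤ C + (‖R‖ + ‖S‖) * ‖y‖ := by
    have : l * (⟪R x, x⟫ + ⟪S x, x⟫) =
        ⟪(R.comp R - S.comp S) x, x⟫ - (⟪y, R x⟫ + ⟪S x, y⟫) := by rw [hid2]; ring
    rw [this]
    refine (abs_sub _ _).trans ?_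
    linarith
  have h3 : |l| ≤ ⟪R x, x⟫ + ⟪S x, x⟫ := by
    rw [hl', abs_le]
    constructor <;> linarith
  have h4 : l ^ 2 ≤ |l * (⟪R x, x⟫ + ⟪S x, x⟫)| := by
    rw [abs_mul, abs_of_nonneg (add_nonneg hr hs), ← sq_abs, sq]
    gcongr
  have h5 : (‖R‖ + ‖S‖) * ‖y‖ ≤ (‖R‖ + ‖S‖) * Real.sqrt (‖R - S‖ ^ 2 - l ^ 2) := by gcongr
  linarith

lemma sqrt_norm_sub_sq_le {R S : H →L[ℝ] H} (hR : R.IsPositive) (hS : S.IsPositive) :
    ‖R - S‖ ^ 2 ≤ ‖R.comp R - S.comp S‖ := by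
  by_contra hcon
  push Not at hcon
  set d := ‖R - S‖ with hd
  set C := ‖R.comp R - S.comp S‖ with hC
  set K := ‖R‖ + ‖S‖ with hK
  have hK0 : 0 ≤ K := by positivity
  have hd0 : 0 < d := by
    rcases (norm_nonneg (R - S)).lt_or_eq with h | h
    · exact h
    · rw [hd, ← h] at hcon
      have : 0 ≤ C := norm_nonneg _
      norm_num at hcon
      linarith
  have hcont : Continuous fun t : ℝ => t ^ 2 - K * Real.sqrt (d ^ 2 - t ^ 2) := by fun_prop
  have hev : ∀ᶠ t in 𝓝 d, C < t ^ 2 - K * Real.sqrt (d ^ 2 - t ^ 2) := by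
    apply hcont.continuousAt.eventually_const_lt
    simpa using hcon
  obtain ⟨t, ht0, htd, htC⟩ : ∃ t, 0 ≤ t ∧ t < d ∧ C < t ^ 2 - K * Real.sqrt (d ^ 2 - t ^ 2) := by
    have h1 : ∀ᶠ t in 𝓝[<] d, C < t ^ 2 - K * Real.sqrt (d ^ 2 - t ^ 2) :=
      hev.filter_mono nhdsWithin_le_nhds
    have h2 : ∀ᶠ t in 𝓝[<] d, t < d := eventually_mem_nhdsWithin
    have h3 : ∀ᶠ t in 𝓝[<] d, 0 < t := (lt_mem_nhds hd0).filter_mono nhdsWithin_le_nhds
    obtain ⟨t, ht⟩ := (h1.and (h2.and h3)).exists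
    exact ⟨t, ht.2.2.le, ht.2.1, ht.1⟩
  have hsym : (R - S).IsSymmetric := by
    intro x y
    simp only [ContinuousLinearMap.coe_coe, sub_apply, inner_sub_left,
      inner_sub_right]
    rw [hR.inner_left_eq_inner_right, hS.inner_left_eq_inner_right]
  have hsup : t < ⨆ x, |(R - S).rayleighQuotient x| := by
    rw [← ContinuousLinearMap.norm_eq_iSup_rayleighQuotient _ hsym]
    exact htd
  obtain ⟨x, hx⟩ := exists_lt_of_lt_ciSup hsup
  have hx0 : x ≠ 0 := by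
    rintro rfl
    rw [ContinuousLinearMap.rayleighQuotient_apply_zero, abs_zero] at hx
    exact absurd hx (not_lt.2 ht0)
  have hnx : ‖x‖ ≠ 0 := norm_ne_zero_iff.2 hx0
  set u := ‖x‖⁻¹ • x with hu
  have hu1 : ‖u‖ = 1 := by rw [hu, norm_smul, norm_inv, norm_norm, inv_mul_cancel₀ hnx]
  have hray : (R - S).rayleighQuotient x = ⟪(R - S) u, u⟫ := by
    rw [ContinuousLinearMap.rayleighQuotient, ContinuousLinearMap.reApplyInnerSelf_apply, hu,
      map_smul, real_inner_smul_left, real_inner_smul_right]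
    simp only [RCLike.re_to_real]
    field_simp
  rw [hray] at hx
  have hle : |⟪(R - S) u, u⟫| ≤ d := by
    refine (abs_real_inner_le_norm _ _).trans ?_
    rw [hu1, mul_one]
    have := (R - S).le_opNorm u
    rwa [hu1, mul_one] at this
  have haux := sqrt_aux hR hS u hu1
  rw [← hd, ← hC, ← hK] at haux
  have h1 : t ^ 2 ≤ ⟪(R - S) u, u⟫ ^ 2 := by
    rw [← sq_abs ⟪(R - S) u, u⟫]
    gcongr
  have h2 : Real.sqrt (d ^ 2 - ⟪(R - S) u, u⟫ ^ 2) ≤ Real.sqrt (d ^ 2 - t ^ 2) := by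
    apply Real.sqrt_le_sqrt
    linarith
  have h3 : K * Real.sqrt (d ^ 2 - ⟪(R - S) u, u⟫ ^ 2) ≤ K * Real.sqrt (d ^ 2 - t ^ 2) := by
    gcongr
  linarith

/-- The positive square root depends continuously on the operator. -/
lemma continuous_sqrt_of_continuous {Z : Type*} [TopologicalSpace Z] {X R : Z → H →L[ℝ] H}
    (hX : Continuous X) (hR : ∀ z, IsPosSqrt (R z) (X z)) : Continuous R := by
  rw [continuous_iff_continuousAt]
  intro z
  rw [ContinuousAt, tendsto_iff_norm_sub_tendsto_zero]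
  have h1 : Tendsto (fun w => ‖X w - X z‖) (𝓝 z) (𝓝 0) :=
    tendsto_iff_norm_sub_tendsto_zero.1 hX.continuousAt
  have h2 : Tendsto (fun w => Real.sqrt ‖X w - X z‖) (𝓝 z) (𝓝 0) := by
    have := (Real.continuous_sqrt.tendsto 0).comp h1
    rw [Real.sqrt_zero] at this
    exact this
  refine squeeze_zero (fun w => norm_nonneg _) (fun w => ?_) h2
  apply Real.le_sqrt_of_sq_le
  have := sqrt_norm_sub_sq_le (hR w).1 (hR z).1
  rwa [(hR w).2, (hR z).2] at this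

/-- The positive square root is measurable. -/
lemma measurable_sqrt_of_measurable {Ω : Type*} [MeasurableSpace Ω] {X R : Ω → H →L[ℝ] H}
    (hX : Measurable X) (hR : ∀ z, IsPosSqrt (R z) (X z)) : Measurable R := by
  let A := {T : H →L[ℝ] H // ∃ R, IsPosSqrt R T}
  let f : A → H →L[ℝ] H := fun a => a.2.choose
  have hf : Continuous f := by
    refine continuous_sqrt_of_continuous (X := fun a : A => (a : H →L[ℝ] H))
      continuous_subtype_val fun a => a.2.choose_spec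
  have hX' : Measurable fun ω => (⟨X ω, R ω, hR ω⟩ : A) := hX.subtype_mk
  have : R = fun ω => f ⟨X ω, R ω, hR ω⟩ := by
    funext ω
    have h1 := (⟨X ω, R ω, hR ω⟩ : A).2.choose_spec
    have h2 := sqrt_norm_sub_sq_le (hR ω).1 h1.1
    rw [(hR ω).2, h1.2] at h2
    simp only [sub_self, norm_zero] at h2
    have h3 : ‖R ω - (⟨X ω, R ω, hR ω⟩ : A).2.choose‖ = 0 := by
      have := norm_nonneg (R ω - (⟨X ω, R ω, hR ω⟩ : A).2.choose)
      nlinarith
    exact sub_eq_zero.1 (norm_eq_zero.1 h3)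
  rw [this]
  exact hf.measurable.comp hX'

end Pool.Agent.H5.W
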