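import Mathlib

/-!
Third order Taylor expansions needed for the moment computations.
-/

open Filter Topology Asymptotics

namespace Pool.Agent.H5.W

lemma ring_choose_two (a : ℝ) : Ring.choose a 2 = a * (a - 1) / 2 := by
  have h := Ring.descPochhammer_eq_factorial_smul_choose a 2
  simp only [descPochhammer_succ_right, descPochhammer_zero] at h
  rw [← Polynomial.aeval_eq_smeval] at h
  simp [Nat.factorial] at h
  linarith

lemma ring_choose_three (a : ℝ) : Ring.choose a 3 = a * (a - 1) * (a - 2) / 6 := by
  have h := Ring.descPochhammer_eq_factorial_smul_choose a 3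
  simp only [descPochhammer_succ_right, descPochhammer_zero] at h
  rw [← Polynomial.aeval_eq_smeval] at h
  simp [Nat.factorial] at h
  have h2 : (Polynomial.aeval a) (2 : Polynomial ℤ) = 2 := map_ofNat _ 2
  rw [h2] at h
  linarith

lemma rpow_taylor (s : ℝ) :
    (fun x : ℝ => (1 + x) ^ (-s) -
      (1 - s * x + s * (s + 1) / 2 * x ^ 2 - s * (s + 1) * (s + 2) / 6 * x ^ 3))
      =O[𝓝 0] fun x => x ^ 4 := by
  have h := (Real.one_add_rpow_hasFPowerSeriesAt_zero (a := -s)).isBigO_sub_partialSum_pow 4
  have h1 : (fun y : ℝ => (1 + (0 + y)) ^ (-s) - (binomialSeries ℝ (-s)).partialSum 4 y)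
      = fun x : ℝ => (1 + x) ^ (-s) -
      (1 - s * x + s * (s + 1) / 2 * x ^ 2 - s * (s + 1) * (s + 2) / 6 * x ^ 3) := by
    funext x
    rw [zero_add]
    congr 1
    simp only [FormalMultilinearSeries.partialSum, Finset.sum_range_succ, Finset.sum_range_zero,
      binomialSeries]
    simp [ring_choose_two, ring_choose_three]
    ring
  rw [h1] at h
  refine h.trans (isBigO_of_le _ fun x => ?_)
  simp

end Pool.Agent.H5.W
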