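import Pool.Agent.H5.W.Semi

/-!
Test vectors in the domain of the generator, orthonormal for `2 ∫_0^1 ⟨Q S_r x, S_r y⟩ dr`.
-/

open MeasureTheory Filter Topology
open scoped NNReal ENNReal RealInnerProductSpace

namespace Pool.Agent.H5.W

variable {H : Type*} [NormedAddCommGroup H] [InnerProductSpace ℝ H]

lemma bil_continuous (T : C0Semigroup H) (Q : H →L[ℝ] H) (x y : H) :
    Continuous fun r : ℝ => ⟪Q (T.S (1 - r).toNNReal x), T.S (1 - r).toNNReal y⟫ := by
  have h1 : ∀ z, Continuous fun r : ℝ => T.S (1 - r).toNNReal z := fun z =>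
    (T.continuous_toNNReal z).comp (continuous_const.sub continuous_id)
  exact (Q.continuous.comp (h1 x)).inner (h1 y)

/-- The bilinear form `2 ∫_0^1 ⟨Q S_{1-r} x, S_{1-r} y⟩ dr`. -/
noncomputable def bil (T : C0Semigroup H) (Q : H →L[ℝ] H) : LinearMap.BilinForm ℝ H :=
  LinearMap.mk₂ ℝ (fun x y => 2 * ∫ r in (0 : ℝ)..1,
      ⟪Q (T.S (1 - r).toNNReal x), T.S (1 - r).toNNReal y⟫)
    (fun x x' y => by
      rw [← mul_add, ← intervalIntegral.integral_add
        ((bil_continuous T Q x y).intervalIntegrable _ _)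
        ((bil_continuous T Q x' y).intervalIntegrable _ _)]
      simp [inner_add_left])
    (fun c x y => by
      rw [smul_eq_mul, ← mul_assoc, mul_comm c 2, mul_assoc,
        ← intervalIntegral.integral_const_mul]
      simp [real_inner_smul_left])
    (fun x y y' => by
      rw [← mul_add, ← intervalIntegral.integral_add
        ((bil_continuous T Q x y).intervalIntegrable _ _)
        ((bil_continuous T Q x y').intervalIntegrable _ _)]
      simp [inner_add_right])
    (fun c x y => by
      rw [smul_eq_mul, ← mul_assoc, mul_comm c 2, mul_assoc,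
        ← intervalIntegral.integral_const_mul]
      simp [real_inner_smul_right])

lemma bil_apply (T : C0Semigroup H) (Q : H →L[ℝ] H) (x y : H) :
    bil T Q x y = 2 * ∫ r in (0 : ℝ)..1,
      ⟪Q (T.S (1 - r).toNNReal x), T.S (1 - r).toNNReal y⟫ := rfl

lemma bil_symm (T : C0Semigroup H) {Q : H →L[ℝ] H} (hQ : Q.IsPositive) (x y : H) :
    bil T Q x y = bil T Q y x := by
  rw [bil_apply, bil_apply]
  congr 1
  refine intervalIntegral.integral_congr fun r _ => ?_
  rw [hQ.inner_left_eq_inner_right, real_inner_comm]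

lemma bil_pos (T : C0Semigroup H) {Q sQ : H →L[ℝ] H} (hs : IsPosSqrt sQ Q)
    (hinj : Function.Injective Q) {x : H} (hx : x ≠ 0) : 0 < bil T Q x x := by
  rw [bil_apply]
  have hcont := bil_continuous T Q x x
  have hnn : ∀ z : H, 0 ≤ ⟪Q z, z⟫ := by
    intro z
    rw [← hs.2, ContinuousLinearMap.comp_apply, hs.1.inner_left_eq_inner_right]
    exact real_inner_self_nonneg
  have hpos : ∀ z : H, z ≠ 0 → 0 < ⟪Q z, z⟫ := by
    intro z hz
    refine (hnn z).lt_of_ne fun h0 => hz ?_
    rw [← hs.2, ContinuousLinearMap.comp_apply, hs.1.inner_left_eq_inner_right] at h0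
    have h1 : sQ z = 0 := inner_self_eq_zero.1 h0.symm
    apply hinj
    rw [map_zero, ← hs.2, ContinuousLinearMap.comp_apply, h1, map_zero]
  have h1 : 0 < ∫ r in (0 : ℝ)..1,
      ⟪Q (T.S (1 - r).toNNReal x), T.S (1 - r).toNNReal x⟫ := by
    refine intervalIntegral.integral_pos zero_lt_one hcont.continuousOn (fun r _ => hnn _)
      ⟨1, by simp, ?_⟩
    rw [sub_self, Real.toNNReal_zero, T.S_zero_apply]
    exact hpos x hx
  linarith

lemma exists_test_vectors [CompleteSpace H] (T : C0Semigroup H) {Q sQ : H →L[ℝ] H}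
    (hs : IsPosSqrt sQ Q) (hQ : Q.IsPositive) (hinj : Function.Injective Q)
    (hH : ¬ FiniteDimensional ℝ H) (n : ℕ) :
    ∃ h a : Fin n → H, (∀ i, T.IsGen (h i) (a i)) ∧
      ∀ i j, bil T Q (h i) (h j) = if i = j then 1 else 0 := by
  have hD := T.not_finiteDimensional_dom hH
  let b := Module.Basis.ofVectorSpace ℝ T.dom
  have hinf : Infinite (Module.Basis.ofVectorSpaceIndex ℝ T.dom) := by
    by_contra hfin
    rw [not_infinite_iff_finite] at hfin
    exact hD (Module.Finite.of_basis b)
  let emb : Fin n ↪ Module.Basis.ofVectorSpaceIndex ℝ T.dom :=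
    (Fin.valEmbedding).trans (Infinite.natEmbedding _)
  let v : Fin n → T.dom := fun i => b (emb i)
  have hv : LinearIndependent ℝ v := b.linearIndependent.comp _ emb.injective
  let W : Submodule ℝ T.dom := Submodule.span ℝ (Set.range v)
  have hW : Module.finrank ℝ W = n := by
    rw [finrank_span_eq_card hv, Fintype.card_fin]
  have : FiniteDimensional ℝ W := FiniteDimensional.span_of_finite ℝ (Set.finite_range v)
  let f : W →ₗ[ℝ] H := T.dom.subtype.comp W.subtype
  have hf : Function.Injective f :=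
    T.dom.injective_subtype.comp W.injective_subtype
  let B : LinearMap.BilinForm ℝ W := (bil T Q).compl₁₂ f f
  have hB : LinearMap.IsSymm B := ⟨fun x y => by
    simp only [B, LinearMap.compl₁₂_apply, RingHom.id_apply]
    exact bil_symm T hQ _ _⟩
  obtain ⟨c, hc⟩ := LinearMap.BilinForm.exists_orthogonal_basis (B := B) hB
  have hc' : ∀ i j, i ≠ j → bil T Q (f (c i)) (f (c j)) = 0 := fun i j hij => hc hij
  have hpos : ∀ i, 0 < bil T Q (f (c i)) (f (c i)) := fun i => by
    refine bil_pos T hs hinj fun h0 => c.ne_zero i ?_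
    exact hf (by rw [h0, map_zero])
  have hgen : ∀ i, ∃ a, T.IsGen (f (c i)) a := fun i => (c i : T.dom).2
  choose a ha using hgen
  let ε : Fin n → Fin (Module.finrank ℝ W) := Fin.cast hW.symm
  have hε : Function.Injective ε := Fin.cast_injective _
  let r : Fin n → ℝ := fun i => (Real.sqrt (bil T Q (f (c (ε i))) (f (c (ε i)))))⁻¹
  refine ⟨fun i => r i • f (c (ε i)), fun i => r i • a (ε i), fun i => (ha _).smul _,
    fun i j => ?_⟩
  beta_reduce
  simp only [map_smul, LinearMap.smul_apply, smul_eq_mul]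
  by_cases hij : i = j
  · subst hij
    rw [if_pos rfl]
    have h1 := hpos (ε i)
    have h2 : Real.sqrt (bil T Q (f (c (ε i))) (f (c (ε i)))) ≠ 0 :=
      (Real.sqrt_pos.2 h1).ne'
    simp only [r]
    field_simp
    rw [Real.sq_sqrt h1.le]
  · rw [if_neg hij, hc' _ _ (fun h => hij (hε h))]
    simp

end Pool.Agent.H5.W
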